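import Pool.Agent.H60.Sob.Model2

/-!
# Concrete globalizations: the norms belong to `Norm(V, w)`
-/

namespace Pool.Agent.H60.Sob

open Complex Topology Filter

theorem hasDerivAt_subtype {E : Type*} [NormedAddCommGroup E] [NormedSpace ℂ E]
    {F : Submodule ℂ E} {f : ℝ → F} {f' : F} {x : ℝ}
    (h : HasDerivAt (fun t => (f t : E)) (f' : E) x) : HasDerivAt f f' x := by
  rw [hasDerivAt_iff_tendsto_slope] at h ⊢
  rw [tendsto_subtype_rng]
  refine h.congr (fun t => ?_)
  simp [slope_def_module]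

section Emb

variable {L : Type} [NormedAddCommGroup L] [NormedSpace ℂ L]
variable [FiniteDimensional ℂ L] {k α : ℕ} {N : L →ₗ[ℂ] L} {w : G → ℝ}

theorem numf_deriv {X : gLie} {γ : ℝ → G} (h : IsExp X γ) :
    HasDerivAt (fun t => numf (γ t))
      ((starRingEnd ℂ (X.1.1 0 0)) • Zf - (X.1.1 0 1) • (1 : C(DD, ℂ))) 0 := by
  have h1 := ((h.2.1 0 0).star).smul_const Zf
  have h2 := (h.2.1 0 1).smul_const (1 : C(DD, ℂ))
  exact h1.sub h2

theorem denf_deriv {X : gLie} {γ : ℝ → G} (h : IsExp X γ) :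
    HasDerivAt (fun t => denf (γ t))
      ((X.1.1 0 0) • (1 : C(DD, ℂ)) - (starRingEnd ℂ (X.1.1 0 1)) • Zf) 0 := by
  have h1 := ((h.2.1 0 1).star).smul_const Zf
  have h2 := (h.2.1 0 0).smul_const (1 : C(DD, ℂ))
  exact h2.sub h1

theorem denf_one : denf 1 = 1 := by
  unfold denf
  simp

theorem numf_one : numf 1 = Zf := by
  unfold numf
  simp

theorem inv_deriv {X : gLie} {γ : ℝ → G} (h : IsExp X γ) :
    HasDerivAt (fun t => Ring.inverse (denf (γ t)))
      (-((X.1.1 0 0) • (1 : C(DD, ℂ)) - (starRingEnd ℂ (X.1.1 0 1)) • Zf)) 0 := by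
  have h0 : denf (γ 0) = ((1 : C(DD, ℂ)ˣ) : C(DD, ℂ)) := by
    rw [IsExp_zero h, denf_one]; rfl
  have h1 := hasFDerivAt_ringInverse (𝕜 := ℝ) (1 : C(DD, ℂ)ˣ)
  rw [← h0] at h1
  have h2 := h1.comp_hasDerivAt 0 (denf_deriv h)
  refine h2.congr_deriv ?_
  simp

/-- The scalar function whose derivative is computed. -/
noncomputable def Ph (k α n : ℕ) (g : G) : C(DD, ℂ) :=
  Wf ^ α * (numf g ^ n * (Ring.inverse (denf g)) ^ (k + n))

theorem Ph_deriv (k α n : ℕ) {X : gLie} {γ : ℝ → G} (h : IsExp X γ) :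
    HasDerivAt (fun t => Ph k α n (γ t))
      (Wf ^ α * ((n:ℂ) • (Zf ^ (n - 1) *
          ((starRingEnd ℂ (X.1.1 0 0)) • Zf - (X.1.1 0 1) • (1 : C(DD, ℂ)))) -
        ((k + n : ℕ) : ℂ) • (Zf ^ n *
          ((X.1.1 0 0) • (1 : C(DD, ℂ)) - (starRingEnd ℂ (X.1.1 0 1)) • Zf)))) 0 := by
  have h1 := (numf_deriv h).pow n
  have h2 := (inv_deriv h).pow (k + n)
  have h3 := (h1.mul h2).const_mul (Wf ^ α)
  refine h3.congr_deriv ?_
  have e1 : numf (γ 0) = Zf := by rw [IsExp_zero h, numf_one]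
  have e2 : denf (γ 0) = 1 := by rw [IsExp_zero h, denf_one]
  simp only [Pi.pow_apply, e1, e2, Ring.inverse_one, one_pow, mul_one]
  ext Z
  simp only [ContinuousMap.mul_apply, ContinuousMap.add_apply, ContinuousMap.sub_apply,
    ContinuousMap.smul_apply, ContinuousMap.pow_apply, ContinuousMap.natCast_apply,
    ContinuousMap.one_apply, ContinuousMap.neg_apply, smul_eq_mul]
  ring

theorem PiFun_iot' (g : G) (n : ℕ) (x : L) :
    PiFun k α N g (iot α L (Finsupp.single n x)) =
      JJ x (Ph k α n g) + (Real.log (g.2 : ℝ) : ℂ) • JJ (N x) (Ph k α n g) := by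
  rw [PiFun_iot, JJ_add, JJ_smul]
  rfl

theorem Ph_one (n : ℕ) : Ph k α n 1 = Wf ^ α * Zf ^ n := by
  unfold Ph
  rw [denf_one, numf_one]
  simp

theorem PiFun_deriv {X : gLie} {γ : ℝ → G} (h : IsExp X γ) (v : ℕ →₀ L) (hG : GrowthOK k α N w)
    (hw : ∀ g, 0 < w g) :
    HasDerivAt (fun t => PiL hG hw (γ t) (iot α L v)) (iot α L (rhoL k N X v)) 0 := by
  induction v using Finsupp.induction_linear with
  | zero =>
    simp only [map_zero]
    exact hasDerivAt_const _ _
  | add v w hv hw =>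
    simp only [map_add]
    exact hv.add hw
  | single n x =>
    simp only [PiL_apply, PiFun_iot']
    have h1 := Ph_deriv k α n h
    have h2 := ((JJ x).restrictScalars ℝ).hasFDerivAt.comp_hasDerivAt 0 h1
    have h3 := ((JJ (N x)).restrictScalars ℝ).hasFDerivAt.comp_hasDerivAt 0 h1
    have hy0 : (γ 0).2 = 1 := by rw [IsExp_zero h]; rfl
    have h4 : HasDerivAt (fun t => ((Real.log ((γ t).2 : ℝ) : ℝ) : ℂ)) ((X.2 : ℝ) : ℂ) 0 := by
      have h5 := h.2.2.log (γ 0).2.ne_zero
      rw [hy0] at h5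
      have h6 := h5.ofReal_comp
      simpa using h6
    have h5 := h2.add (h4.smul h3)
    refine h5.congr_deriv ?_
    have hy1 : ((γ 0).2 : ℝ) = 1 := by rw [hy0]; rfl
    rw [hy1, Real.log_one, Complex.ofReal_zero, zero_smul, zero_add, rhoL_single]
    simp only [map_add, map_sub, map_smul, iot_single]
    have e3 : ((JJ (N x)).restrictScalars ℝ ∘ fun t => Ph k α n (γ t)) 0 =
        JJ (N x) (Wf ^ α * Zf ^ n) := by
      show JJ (N x) (Ph k α n (γ 0)) = _
      rw [IsExp_zero h, Ph_one]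
    have hXc := gLie_conj X
    ext Z
    simp only [ContinuousMap.add_apply, ContinuousMap.sub_apply, ContinuousMap.smul_apply]
    rw [e3]
    simp only [ContinuousLinearMap.coe_restrictScalars', JJ_apply, ContinuousMap.mul_apply,
      ContinuousMap.sub_apply, ContinuousMap.smul_apply,
      ContinuousMap.pow_apply, ContinuousMap.one_apply, smul_eq_mul, hXc]
    rcases n with _ | n
    · simp only [Nat.cast_zero, pow_zero]
      push_cast
      module
    · simp only [Nat.add_sub_cancel]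
      push_cast
      module

/-- The representation on `EE`. -/
noncomputable def piE (hG : GrowthOK k α N w) (hw : ∀ g, 0 < w g) (hN : ∀ x, N (N x) = 0) :
    G →* (EE α L →L[ℂ] EE α L) where
  toFun g := ((PiL hG hw g).comp (EE α L).subtypeL).codRestrict (EE α L)
    (fun f => PiFun_mem hG hw g f f.2)
  map_one' := by
    ext1 f
    apply Subtype.ext
    show PiFun k α N 1 (f : C(DD, L)) = f
    exact PiFun_one _
  map_mul' g h := by
    ext1 f
    apply Subtype.ext
    show PiFun k α N (g * h) (f : C(DD, L)) = PiFun k α N g (PiFun k α N h (f : C(DD, L)))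
    exact PiFun_mul hN g h _

/-- The embedding into `EE`. -/
noncomputable def iotE (α : ℕ) (L : Type) [NormedAddCommGroup L] [NormedSpace ℂ L]
    [FiniteDimensional ℂ L] : (ℕ →₀ L) →ₗ[ℂ] EE α L :=
  (iot α L).codRestrict (EE α L) iot_mem

theorem iotE_coe (v : ℕ →₀ L) : ((iotE α L v : EE α L) : C(DD, L)) = iot α L v := rfl

theorem piE_coe (hG : GrowthOK k α N w) (hw : ∀ g, 0 < w g) (hN : ∀ x, N (N x) = 0) (g : G)
    (f : EE α L) : ((piE hG hw hN g f : EE α L) : C(DD, L)) = PiFun k α N g f := rfl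

theorem iotE_dense : DenseRange (iotE α L) := by
  intro f
  have hf : (f : C(DD, L)) ∈ closure (LinearMap.range (iot α L) : Set C(DD, L)) := f.2
  rw [closure_subtype]
  refine closure_mono ?_ hf
  rintro _ ⟨v, rfl⟩
  exact ⟨iotE α L v, ⟨v, rfl⟩, rfl⟩

theorem piE_cont (hG : GrowthOK k α N w) (hw : ∀ g, 0 < w g) (hN : ∀ x, N (N x) = 0) :
    Continuous fun p : G × EE α L => piE hG hw hN p.1 p.2 := by
  have h1 : Continuous fun p : G × EE α L => p.1 := continuous_fst
  have h2 : Continuous fun p : G × EE α L => (p.2 : C(DD, L)) :=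
    continuous_subtype_val.comp continuous_snd
  exact Continuous.subtype_mk (PiFun_cont (k := k) (α := α) (N := N) h1 h2) _

theorem piE_norm (hG : GrowthOK k α N w) (hw : ∀ g, 0 < w g) (hN : ∀ x, N (N x) = 0) (g : G) :
    ‖piE hG hw hN g‖ ≤ w g := by
  refine ContinuousLinearMap.opNorm_le_bound _ (hw g).le (fun f => ?_)
  exact PiFun_norm hG hw g f

theorem piE_K (hG : GrowthOK k α N w) (hw : ∀ g, 0 < w g) (hN : ∀ x, N (N x) = 0) (g : K)
    (v : ℕ →₀ L) : piE hG hw hN g (iotE α L v) = iotE α L (kapL k L g v) := by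
  induction v using Finsupp.induction_linear with
  | zero => simp only [map_zero]
  | add v w hv hw => simp only [map_add, hv, hw]
  | single n x =>
    apply Subtype.ext
    rw [piE_coe, iotE_coe, iotE_coe, PiFun_iot', kapL_single, map_smul, iot_single]
    have hlog : Real.log ((g : G).2 : ℝ) = 0 := by
      rcases g.2.2 with h | h <;> rw [h] <;> simp
    rw [hlog, Complex.ofReal_zero, zero_smul, add_zero]
    ext Z
    rw [ContinuousMap.smul_apply, JJ_apply, JJ_apply, smul_smul]
    congr 1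
    unfold Ph
    simp only [ContinuousMap.mul_apply, ContinuousMap.pow_apply, numf_apply, inv_apply, Zf_apply]
    have hd : g.1.1.1.1 1 1 = starRingEnd ℂ (g.1.1.1.1 0 0) := SU_11 g.1
    have hu := K_unit g
    have hb := K_01 g
    unfold num den
    rw [show (g.1.1.1 1 1 : ℂ) = starRingEnd ℂ (g.1.1.1.1 0 0) from hd]
    have hb' : ((g : G)).1.1.1 0 1 = 0 := hb
    rw [hb', map_zero, zero_mul, sub_zero, sub_zero]
    set c := starRingEnd ℂ (g.1.1.1.1 0 0) with hc
    have hinv : (((g : G)).1.1.1 0 0)⁻¹ = c := inv_eq_of_mul_eq_one_right hu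
    rw [hinv]
    ring

theorem piE_deriv (hG : GrowthOK k α N w) (hw : ∀ g, 0 < w g) (hN : ∀ x, N (N x) = 0)
    {X : gLie} {γ : ℝ → G} (h : IsExp X γ) (v : ℕ →₀ L) :
    HasDerivAt (fun t => piE hG hw hN (γ t) (iotE α L v)) (iotE α L (rhoL k N X v)) 0 := by
  apply hasDerivAt_subtype
  exact PiFun_deriv h v hG hw

theorem EE_complete : CompleteSpace (EE α L) := EE_closed.completeSpace_coe

theorem piE_circ (hG : GrowthOK k α N w) (hw : ∀ g, 0 < w g) (hN : ∀ x, N (N x) = 0)
    (hrot : ∀ φ, w (rot φ) ≤ 1) : CircAct (fun φ => piE hG hw hN (rot φ)) 1 :=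
  circAct_of _ (piE_cont hG hw hN) (fun φ => (piE_norm hG hw hN _).trans (hrot φ))

theorem piE_wt (hG : GrowthOK k α N w) (hw : ∀ g, 0 < w g) (hN : ∀ x, N (N x) = 0) :
    WtMap (fun φ => piE hG hw hN (rot φ)) k (iotE α L) :=
  wtMap_of _ _ (piE_K hG hw hN)

theorem iotE_inj (hG : GrowthOK k α N w) (hw : ∀ g, 0 < w g) (hN : ∀ x, N (N x) = 0)
    (hrot : ∀ φ, w (rot φ) ≤ 1) : Function.Injective (iotE α L) := by
  rw [injective_iff_map_eq_zero]
  intro v hv
  have hcomp : CompleteSpace (EE α L) := EE_complete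
  ext n
  have h1 := proj_iota_eq (piE_circ hG hw hN hrot) (piE_wt hG hw hN) n v
  rw [hv, ← projL_apply (piE_circ hG hw hN hrot), map_zero] at h1
  have h2 : JJ (v n) (Wf ^ α * Zf ^ n) = 0 := by
    rw [← iot_single, ← iotE_coe, ← h1]
    rfl
  have h3 := congrArg (fun f : C(DD, L) => f ⟨(1/2 : ℂ), by
    rw [Metric.mem_closedBall, dist_zero_right]; norm_num⟩) h2
  simp only [JJ_apply, ContinuousMap.mul_apply, ContinuousMap.pow_apply, Zf_apply, Wf_apply,
    ContinuousMap.zero_apply] at h3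
  rw [smul_eq_zero] at h3
  rcases h3 with h3 | h3
  · exfalso
    rw [mul_eq_zero] at h3
    rcases h3 with h3 | h3
    · have h4 := eq_zero_of_pow_eq_zero h3
      have h5 : (1 - ‖(1/2 : ℂ)‖ ^ 2 : ℝ) = 0 := by exact_mod_cast h4
      norm_num at h5
    · have h4 := eq_zero_of_pow_eq_zero h3
      norm_num at h4
  · rw [h3]; rfl

/-- The weighted sup norm belongs to `Norm(V, w)`. -/
theorem model_inNorm (hG : GrowthOK k α N w) (hw : ∀ g, 0 < w g) (hN : ∀ x, N (N x) = 0)
    (hrot : ∀ φ, w (rot φ) ≤ 1) : InNorm (modL k N) w (fun v => ‖iot α L v‖) := by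
  have hcomp : CompleteSpace (EE α L) := EE_complete
  refine ⟨EE α L, inferInstance, inferInstance, hcomp, piE hG hw hN, iotE α L,
    iotE_inj hG hw hN hrot, iotE_dense, fun v => rfl, piE_cont hG hw hN, ?_,
    piE_K hG hw hN, fun X γ h v => piE_deriv hG hw hN h v, 1, fun g => ?_⟩
  · intro e
    constructor
    · intro hfin
      refine mem_of_finite_orbit (piE_circ hG hw hN hrot) _
        (proj_mem_range (piE_circ hG hw hN hrot) (piE_wt hG hw hN) iotE_dense) e ?_
      refine Submodule.finiteDimensional_of_le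
        (S₂ := Submodule.span ℂ (Set.range fun k : K => piE hG hw hN k e)) ?_
      apply Submodule.span_mono
      rintro _ ⟨φ, rfl⟩
      exact ⟨rot φ, rfl⟩
    · rintro ⟨v, rfl⟩
      have h1 : (Set.range fun g : K => piE hG hw hN g (iotE α L v)) =
          iotE α L '' (Set.range fun g : K => kapL k L g v) := by
        rw [← Set.range_comp]
        congr 1
        funext g
        exact piE_K hG hw hN g v
      rw [h1, Submodule.span_image]
      have := kapL_fin k v
      infer_instance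
  · rw [one_mul]
    exact piE_norm hG hw hN g

end Emb

end Pool.Agent.H60.Sob
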