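import Pool.Agent.H60.Sob.Model3

/-!
# The Sobolev gap of the submodule is larger
-/

namespace Pool.Agent.H60.Sob

open Complex Topology Filter

theorem wgt_left (d : ℕ) (g : G) : (‖g.1.1.1 0 0‖ + ‖g.1.1.1 0 1‖) ^ (2 * d) ≤ wgt d g :=
  le_max_left _ _

theorem wgt_right (d : ℕ) (g : G) : 1 + |Real.log (g.2 : ℝ)| ≤ wgt d g := le_max_right _ _

theorem growth_V (d α : ℕ) (h : α ≤ 2 * d) : GrowthOK (2 * d) α (0 : ℂ →ₗ[ℂ] ℂ) (wgt d) := by
  intro g Z x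
  simp only [LinearMap.zero_apply, smul_zero, add_zero]
  have := (cfac_norm_le h g Z).trans (wgt_left d g)
  gcongr

theorem growth_U (d : ℕ) : GrowthOK (2 * d) d nil2 (wgt d) := by
  rintro g Z ⟨a, b⟩
  rw [cfac_norm_eq, one_mul]
  refine le_trans ?_ (mul_le_mul_of_nonneg_right (wgt_right d g) (norm_nonneg _))
  have hb : ‖b‖ ≤ ‖((a, b) : ℂ × ℂ)‖ := norm_snd_le (a, b)
  have h1 : ‖nil2 (a, b)‖ ≤ ‖((a, b) : ℂ × ℂ)‖ := by
    rw [nil2_apply, Prod.norm_mk, norm_zero]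
    exact max_le hb (norm_nonneg _)
  calc ‖((a, b) : ℂ × ℂ) + (Real.log (g.2 : ℝ) : ℂ) • nil2 (a, b)‖
      ≤ ‖((a, b) : ℂ × ℂ)‖ + ‖(Real.log (g.2 : ℝ) : ℂ) • nil2 (a, b)‖ := norm_add_le _ _
    _ = ‖((a, b) : ℂ × ℂ)‖ + |Real.log (g.2 : ℝ)| * ‖nil2 (a, b)‖ := by
        rw [norm_smul, Complex.norm_real, Real.norm_eq_abs]
    _ ≤ ‖((a, b) : ℂ × ℂ)‖ + |Real.log (g.2 : ℝ)| * ‖((a, b) : ℂ × ℂ)‖ := by gcongr
    _ = _ := by ring

theorem norm_V (d α : ℕ) (h : α ≤ 2 * d) :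
    InNorm (modL (2 * d) (0 : ℂ →ₗ[ℂ] ℂ)) (wgt d) (fun v => ‖iot α ℂ v‖) :=
  model_inNorm (growth_V d α h) (wgt_pos d) (fun _ => rfl) (wgt_rot d)

theorem norm_U (d : ℕ) : InNorm (modL (2 * d) nil2) (wgt d) (fun v => ‖iot d (ℂ × ℂ) v‖) :=
  model_inNorm (growth_U d) (wgt_pos d) nil2_sq (wgt_rot d)

theorem p_lower (n : ℕ) : 1 ≤ ‖iot 0 ℂ (Finsupp.single n 1)‖ := by
  rw [iot_single]
  have h1 : ‖(JJ (1:ℂ) (Wf ^ 0 * Zf ^ n)) ⟨1, by simp⟩‖ ≤ ‖JJ (1:ℂ) (Wf ^ 0 * Zf ^ n)‖ :=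
    ContinuousMap.norm_coe_le_norm _ _
  refine le_trans (le_of_eq ?_) h1
  rw [JJ_apply]
  simp

theorem q_upper (d N : ℕ) : ((N + 2 * d).choose (2 * d) : ℝ) *
    ‖iot (2 * d) ℂ (Finsupp.single (2 * N) 1)‖ ≤ 1 := by
  have hpos : (0:ℝ) < ((N + 2 * d).choose (2 * d) : ℝ) := by
    exact_mod_cast Nat.choose_pos (by omega)
  rw [← le_div_iff₀' hpos, ContinuousMap.norm_le _ (by positivity)]
  intro Z
  rw [iot_single, JJ_apply]
  simp only [ContinuousMap.mul_apply, ContinuousMap.pow_apply, Zf_apply, Wf_apply, smul_eq_mul,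
    mul_one]
  have hZ := DD_norm Z
  set x : ℝ := ‖(Z:ℂ)‖ ^ 2 with hx
  have hx0 : 0 ≤ x := by positivity
  have hx1 : x ≤ 1 := by rw [hx]; nlinarith [norm_nonneg (Z:ℂ)]
  rw [norm_mul, norm_pow, norm_pow, Complex.norm_real, Real.norm_of_nonneg (by linarith),
    pow_mul ‖(Z:ℂ)‖, ← hx, le_div_iff₀' hpos]
  have h1 := add_pow x (1 - x) (N + 2 * d)
  rw [add_sub_cancel, one_pow] at h1
  refine le_trans ?_ (le_of_eq h1.symm)
  have h2 : ((N + 2 * d).choose (2 * d) : ℝ) * ((1 - x) ^ (2 * d) * x ^ N) =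
      x ^ N * (1 - x) ^ (N + 2 * d - N) * ((N + 2 * d).choose N : ℝ) := by
    rw [Nat.add_sub_cancel_left, ← Nat.choose_symm_add]
    ring
  rw [h2]
  refine Finset.single_le_sum (f := fun m => x ^ m * (1 - x) ^ (N + 2 * d - m) *
    ((N + 2 * d).choose m : ℝ)) (fun i _ => ?_) (Finset.mem_range.mpr (by omega))
  have : 0 ≤ 1 - x := by linarith
  positivity

theorem choose_lower' (d N : ℕ) :
    ((N:ℝ) + 1) ^ (2 * d) ≤ ((2 * d).factorial : ℝ) * ((N + 2 * d).choose (2 * d) : ℝ) := by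
  have h2 := Nat.pow_succ_le_ascFactorial (N + 1) (2 * d)
  have h3 := Nat.ascFactorial_eq_factorial_mul_choose N (2 * d)
  rw [h3] at h2
  exact_mod_cast h2

/-- Every `s` for which the two norms compare is at least `2 d`. -/
theorem lower_V {d : ℕ} {s : ℝ} (hs : 0 ≤ s)
    (h : SobLe (modL (2 * d) (0 : ℂ →ₗ[ℂ] ℂ)) s (fun v => ‖iot 0 ℂ v‖)
      (fun v => ‖iot (2 * d) ℂ v‖)) : ((2 * d : ℕ) : ℝ) ≤ s := by
  obtain ⟨D, hD, c, hc⟩ := h
  by_contra hlt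
  push Not at hlt
  set K0 : ℝ := |c| * ((2 * d).factorial : ℝ) * ((2 * d + 5 : ℕ) : ℝ) ^ s with hK0
  have h1 : ∀ N : ℕ, ((N:ℝ) + 1) ^ (((2 * d : ℕ) : ℝ) - s) ≤ K0 := by
    intro N
    have h2 := hc (Finsupp.single (2 * N) 1)
    simp only at h2
    rw [isSobolev_single hD, map_smul, norm_smul, Complex.norm_real,
      Real.norm_of_nonneg (sobc_pos _ _ _).le] at h2
    have h3 := (p_lower (2 * N)).trans h2
    have h4 := q_upper d N
    have h5 := choose_lower' d N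
    set q := ‖iot (2 * d) ℂ (Finsupp.single (2 * N) 1)‖ with hq
    have hq0 : 0 ≤ q := norm_nonneg _
    set B : ℝ := ((N + 2 * d).choose (2 * d) : ℝ) with hB
    set F : ℝ := ((2 * d).factorial : ℝ) with hF
    have hF0 : 0 ≤ F := by positivity
    have h6 : sobc (2 * d) s (2 * N) ≤ ((2 * d + 5 : ℕ) : ℝ) ^ s * ((N:ℝ) + 1) ^ s := by
      unfold sobc
      rw [← Real.mul_rpow (by positivity) (by positivity)]
      have h7 : (1 + (((2 * d : ℕ) : ℝ) + 2 * ((2 * N : ℕ) : ℝ)) ^ 2) ≤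
          (((2 * d + 5 : ℕ) : ℝ) * ((N:ℝ) + 1)) ^ 2 := by
        push_cast
        have hd0 : (0:ℝ) ≤ d := Nat.cast_nonneg d
        have hN0 : (0:ℝ) ≤ N := Nat.cast_nonneg N
        nlinarith [mul_nonneg hd0 hN0, mul_nonneg hN0 hN0, mul_nonneg hd0 hd0,
          mul_nonneg hN0 (mul_nonneg hd0 hN0), mul_nonneg hd0 (mul_nonneg hd0 hN0),
          mul_nonneg (mul_nonneg hd0 hN0) (mul_nonneg hd0 hN0)]
      calc (1 + (((2 * d : ℕ) : ℝ) + 2 * ((2 * N : ℕ) : ℝ)) ^ 2) ^ (s / 2)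
          ≤ ((((2 * d + 5 : ℕ) : ℝ) * ((N:ℝ) + 1)) ^ 2) ^ (s / 2) :=
            Real.rpow_le_rpow (by positivity) h7 (by positivity)
        _ = (((2 * d + 5 : ℕ) : ℝ) * ((N:ℝ) + 1)) ^ s := by
            rw [← Real.rpow_natCast, ← Real.rpow_mul (by positivity)]
            congr 1
            push_cast
            ring
    have hS0 := (sobc_pos (2 * d) s (2 * N)).le
    have h8 : 1 ≤ |c| * (sobc (2 * d) s (2 * N) * q) := by
      refine h3.trans ?_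
      gcongr
      exact le_abs_self c
    have h9 : ((N:ℝ) + 1) ^ (2 * d) ≤ K0 * ((N:ℝ) + 1) ^ s := by
      calc ((N:ℝ) + 1) ^ (2 * d) ≤ F * B := h5
        _ = F * B * 1 := by ring
        _ ≤ F * B * (|c| * (sobc (2 * d) s (2 * N) * q)) := by gcongr
        _ = F * |c| * sobc (2 * d) s (2 * N) * (B * q) := by ring
        _ ≤ F * |c| * sobc (2 * d) s (2 * N) * 1 := by gcongr
        _ ≤ F * |c| * (((2 * d + 5 : ℕ) : ℝ) ^ s * ((N:ℝ) + 1) ^ s) * 1 := by gcongr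
        _ = K0 * ((N:ℝ) + 1) ^ s := by rw [hK0]; ring
    rw [Real.rpow_sub (by positivity), Real.rpow_natCast, div_le_iff₀ (by positivity)]
    exact h9
  have h2 : Tendsto (fun N : ℕ => ((N:ℝ) + 1) ^ (((2 * d : ℕ) : ℝ) - s)) atTop atTop :=
    (tendsto_rpow_atTop (by linarith)).comp
      (tendsto_atTop_add_const_right _ _ tendsto_natCast_atTop_atTop)
  obtain ⟨N, hN⟩ := (h2.eventually (eventually_gt_atTop K0)).exists
  exact absurd (h1 N) (not_le.mpr hN)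

/-- The inclusion of `V` in `U`. -/
noncomputable def incl : (ℕ →₀ ℂ) →ₗ[ℂ] (ℕ →₀ (ℂ × ℂ)) :=
  Finsupp.mapRange.linearMap (LinearMap.inl ℂ ℂ ℂ)

theorem incl_single (n : ℕ) (x : ℂ) : incl (Finsupp.single n x) = Finsupp.single n (x, 0) := by
  simp [incl]

theorem incl_inj : Function.Injective incl :=
  Finsupp.mapRange_injective _ (map_zero _) LinearMap.inl_injective

theorem incl_rho (k : ℕ) (X : gLie) (v : ℕ →₀ ℂ) :
    incl ((modL k (0 : ℂ →ₗ[ℂ] ℂ)).ρ X v) = (modL k nil2).ρ X (incl v) := by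
  show incl (rhoL k (0 : ℂ →ₗ[ℂ] ℂ) X v) = rhoL k nil2 X (incl v)
  induction v using Finsupp.induction_linear with
  | zero => simp only [map_zero]
  | add v w hv hw => simp only [map_add, hv, hw]
  | single n x =>
    rw [incl_single, rhoL_single, rhoL_single]
    simp only [map_add, map_sub, map_smul, incl_single, LinearMap.zero_apply, nil2_apply,
      Finsupp.single_zero, Prod.mk_zero_zero, map_zero]

theorem incl_kap (k : ℕ) (g : K) (v : ℕ →₀ ℂ) :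
    incl ((modL k (0 : ℂ →ₗ[ℂ] ℂ)).κ g v) = (modL k nil2).κ g (incl v) := by
  show incl (kapL k ℂ g v) = kapL k (ℂ × ℂ) g (incl v)
  induction v using Finsupp.induction_linear with
  | zero => simp only [map_zero]
  | add v w hv hw => simp only [map_add, hv, hw]
  | single n x => rw [incl_single, kapL_single, kapL_single, map_smul, incl_single]

end Pool.Agent.H60.Sob
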