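import Pool.Agent.H60.Sob.Glob

/-!
# Polynomial bounds valid for every globalization
-/

namespace Pool.Agent.H60.Sob

open Complex Topology Filter

/-- The weight `w(g, y) = max ((|a| + |b|)^(2d), 1 + |log |y||)`, where `a, b` is the first row of
`g` (in Mathlib, `Real.log y` is `log |y|`). -/
noncomputable def wgt (d : ℕ) (g : G) : ℝ :=
  max ((‖g.1.1.1 0 0‖ + ‖g.1.1.1 0 1‖) ^ (2 * d)) (1 + |Real.log (g.2 : ℝ)|)

theorem wgt_pos (d : ℕ) (g : G) : 0 < wgt d g :=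
  lt_of_lt_of_le (by positivity) (le_max_right _ _)

theorem wgt_rot (d : ℕ) (φ : ℝ) : wgt d (rot φ) ≤ 1 := by
  unfold wgt
  simp [Complex.norm_exp]

theorem wgt_mul (d : ℕ) (g h : G) : wgt d (g * h) ≤ wgt d g * wgt d h := by
  have p1 : 0 < wgt d g := wgt_pos d g
  have p2 : 0 < wgt d h := wgt_pos d h
  refine max_le ?_ ?_
  · have h1 : ‖(g * h).1.1.1 0 0‖ + ‖(g * h).1.1.1 0 1‖ ≤
        (‖g.1.1.1 0 0‖ + ‖g.1.1.1 0 1‖) * (‖h.1.1.1 0 0‖ + ‖h.1.1.1 0 1‖) := by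
      rw [G_mul_00, G_mul_01]
      refine (add_le_add (norm_add_le _ _) (norm_add_le _ _)).trans ?_
      simp only [norm_mul, RCLike.norm_conj]
      nlinarith
    calc (‖(g * h).1.1.1 0 0‖ + ‖(g * h).1.1.1 0 1‖) ^ (2 * d)
        ≤ ((‖g.1.1.1 0 0‖ + ‖g.1.1.1 0 1‖) * (‖h.1.1.1 0 0‖ + ‖h.1.1.1 0 1‖)) ^ (2 * d) := by
          gcongr
      _ = (‖g.1.1.1 0 0‖ + ‖g.1.1.1 0 1‖) ^ (2 * d) * (‖h.1.1.1 0 0‖ + ‖h.1.1.1 0 1‖) ^ (2 * d) :=
          mul_pow _ _ _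
      _ ≤ wgt d g * wgt d h := by
          gcongr
          · exact le_max_left _ _
          · exact le_max_left _ _
  · have h1 : |Real.log ((g * h).2 : ℝ)| ≤ |Real.log (g.2 : ℝ)| + |Real.log (h.2 : ℝ)| := by
      rw [G_mul_2, Units.val_mul, Real.log_mul g.2.ne_zero h.2.ne_zero]
      exact abs_add_le _ _
    calc 1 + |Real.log ((g * h).2 : ℝ)| ≤ 1 + (|Real.log (g.2 : ℝ)| + |Real.log (h.2 : ℝ)|) := by
          gcongr
      _ ≤ (1 + |Real.log (g.2 : ℝ)|) * (1 + |Real.log (h.2 : ℝ)|) := by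
          nlinarith [abs_nonneg (Real.log (g.2 : ℝ)), abs_nonneg (Real.log (h.2 : ℝ))]
      _ ≤ wgt d g * wgt d h := by
          gcongr
          · exact le_max_right _ _
          · exact le_max_right _ _

theorem continuous_G_entry (i j : Fin 2) : Continuous fun g : G => g.1.1.1 i j := by
  have h1 : Continuous fun g : G => g.1.1 := continuous_subtype_val.comp continuous_fst
  have h2 : Continuous fun g : G => g.1.1.1 := continuous_subtype_val.comp h1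
  exact (continuous_apply j).comp ((continuous_apply i).comp h2)

theorem wgt_cont (d : ℕ) : Continuous (wgt d) := by
  unfold wgt
  have h1 := continuous_G_entry 0 0
  have h2 := continuous_G_entry 0 1
  have h3 : Continuous fun g : G => Real.log (g.2 : ℝ) := by
    refine Continuous.log ?_ (fun g => g.2.ne_zero)
    exact Units.continuous_val.comp continuous_snd
  fun_prop

theorem wgt_isWeight (d : ℕ) : IsWeight (wgt d) := by
  refine ⟨wgt_pos d, wgt_mul d, fun g => ⟨wgt d g + 1, ?_⟩⟩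
  filter_upwards [(wgt_cont d).continuousAt.eventually (gt_mem_nhds (lt_add_one (wgt d g)))]
    with h hh using hh.le

/-- The time `t_n` with `sinh t_n = √(n+1)`. -/
noncomputable def tn (n : ℕ) : ℝ := Real.arsinh (Real.sqrt (n + 1))

theorem tn_pos (n : ℕ) : 0 < tn n := by
  unfold tn
  rw [Real.arsinh_pos_iff]
  positivity

theorem sinh_tn (n : ℕ) : Real.sinh (tn n) = Real.sqrt (n + 1) := Real.sinh_arsinh _

theorem cosh_tn_sq (n : ℕ) : Real.cosh (tn n) ^ 2 = n + 2 := by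
  rw [Real.cosh_sq, sinh_tn, Real.sq_sqrt (by positivity)]
  ring

theorem tanh_pow (n : ℕ) : (1:ℝ)/2 ≤ (Real.sinh (tn n) / Real.cosh (tn n)) ^ n := by
  have h0 : 0 < Real.cosh (tn n) := Real.cosh_pos _
  have h1 : 0 < Real.sinh (tn n) := Real.sinh_pos_iff.mpr (tn_pos n)
  have h2 : ((Real.sinh (tn n) / Real.cosh (tn n)) ^ n) ^ 2 = (((n:ℝ) + 1) / (n + 2)) ^ n := by
    rw [← pow_mul, mul_comm, pow_mul, div_pow, cosh_tn_sq, sinh_tn, Real.sq_sqrt (by positivity)]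
  have h3 : (1:ℝ)/4 ≤ (((n:ℝ) + 1) / (n + 2)) ^ n := by
    have h4 : (((n:ℝ) + 2) / (n + 1)) ^ n ≤ 4 := by
      have h5 : ((n:ℝ) + 2) / (n + 1) ≤ Real.exp (1 / (n + 1)) := by
        have := Real.add_one_le_exp (1 / ((n:ℝ) + 1))
        refine le_trans (le_of_eq ?_) this
        field_simp
        ring
      calc (((n:ℝ) + 2) / (n + 1)) ^ n ≤ (Real.exp (1 / (n + 1))) ^ n := by gcongr
        _ = Real.exp (n * (1 / (n + 1))) := by rw [← Real.exp_nat_mul]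
        _ ≤ Real.exp 1 := by
            apply Real.exp_le_exp.mpr
            rw [mul_one_div, div_le_one (by positivity)]
            linarith
        _ ≤ 4 := by
            have := Real.exp_one_lt_d9
            linarith
    have h6 : (((n:ℝ) + 1) / (n + 2)) ^ n = ((((n:ℝ) + 2) / (n + 1)) ^ n)⁻¹ := by
      rw [← inv_pow, inv_div]
    rw [h6, one_div]
    apply inv_anti₀ (by positivity) h4
  rw [← h2] at h3
  have h7 : 0 < (Real.sinh (tn n) / Real.cosh (tn n)) ^ n := by positivity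
  nlinarith

theorem wgt_hyp_cen (d n : ℕ) (hd : 0 < d) (s : ℝ) (hs : |s| ≤ ((n:ℝ) + 2) ^ d) :
    wgt d (hyp (tn n) * cen s) ≤ 4 ^ d * ((n:ℝ) + 2) ^ d := by
  have h0 : 0 < Real.cosh (tn n) := Real.cosh_pos _
  have h1 : 0 < Real.sinh (tn n) := Real.sinh_pos_iff.mpr (tn_pos n)
  unfold wgt
  rw [G_mul_00, G_mul_01, G_mul_2]
  simp only [hyp_00, hyp_01, cen_00, cen_01, hyp_2, map_zero, mul_zero, mul_one, add_zero,
    map_one, zero_add, one_mul, cen_2, Complex.norm_real, Real.norm_eq_abs, abs_of_pos h0,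
    abs_of_pos h1, Real.log_exp]
  refine max_le ?_ ?_
  · have h2 : Real.sinh (tn n) ≤ Real.cosh (tn n) := (Real.sinh_lt_cosh _).le
    calc (Real.cosh (tn n) + Real.sinh (tn n)) ^ (2 * d) ≤
        (2 * Real.cosh (tn n)) ^ (2 * d) := by
          gcongr
          linarith
      _ = 4 ^ d * ((n:ℝ) + 2) ^ d := by
          rw [pow_mul, mul_pow, cosh_tn_sq, mul_pow]
          norm_num
  · have h3 : (1:ℝ) ≤ ((n:ℝ) + 2) ^ d := one_le_pow₀ (by linarith [Nat.cast_nonneg (α := ℝ) n])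
    have h4 : (4:ℝ) ≤ 4 ^ d := by
      calc (4:ℝ) = 4 ^ 1 := by norm_num
        _ ≤ 4 ^ d := pow_le_pow_right₀ (by norm_num) hd
    nlinarith

section

variable {L : Type} [AddCommGroup L] [Module ℂ L]
variable {E : Type} [NormedAddCommGroup E] [NormedSpace ℂ E]
variable {k d : ℕ} {N : L →ₗ[ℂ] L} {π : G →* (E →L[ℂ] E)}
  {ι : (ℕ →₀ L) →ₗ[ℂ] E} {C : ℝ}

theorem rhoL_cen (n : ℕ) (x : L) : rhoL k N (elt 0 0 1) (Finsupp.single n x) =
    Finsupp.single n (N x) := by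
  rw [rhoL_single]
  simp

theorem Glob.cen_eq {w : G → ℝ} (h : Glob k N w π ι C) (hN : ∀ x, N (N x) = 0) (n : ℕ) (x : L)
    (s : ℝ) :
    π (cen s) (ι (Finsupp.single n x)) = ι (Finsupp.single n (x + (s:ℂ) • N x)) := by
  have hc0 : cen 0 = 1 := IsExp_zero isExp_cen
  have h1 : ∀ y, N y = 0 → ∀ s, π (cen s) (ι (Finsupp.single n y)) = ι (Finsupp.single n y) := by
    intro y hy s
    have h2 : ∀ s, HasDerivAt (fun s => π (cen s) (ι (Finsupp.single n y))) 0 s := by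
      intro s
      have := h.deriv_at isExp_cen (Finsupp.single n y) s
      rwa [rhoL_cen, hy, Finsupp.single_zero, map_zero, map_zero] at this
    have h3 := is_const_of_deriv_eq_zero (fun s => (h2 s).differentiableAt)
      (fun s => (h2 s).deriv) s 0
    rw [h3, hc0, map_one]
    rfl
  have h2 : ∀ s, HasDerivAt (fun s : ℝ => π (cen s) (ι (Finsupp.single n x)) -
      s • ι (Finsupp.single n (N x))) 0 s := by
    intro s
    have h3 := h.deriv_at isExp_cen (Finsupp.single n x) s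
    rw [rhoL_cen, h1 _ (hN x)] at h3
    have h4 := h3.sub ((hasDerivAt_id s).smul_const (ι (Finsupp.single n (N x))))
    rwa [one_smul, sub_self] at h4
  have h3 := is_const_of_deriv_eq_zero (fun s => (h2 s).differentiableAt)
    (fun s => (h2 s).deriv) s 0
  rw [hc0, map_one, zero_smul, sub_zero] at h3
  rw [sub_eq_iff_eq_add] at h3
  rw [h3, Finsupp.single_add, map_add]
  congr 1
  rw [← Finsupp.smul_single, map_smul, Complex.coe_smul]

variable [CompleteSpace E]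

/-- Lower bound for the norm of `z^n x`. -/
theorem Glob.lower (h : Glob (2 * d) N (wgt d) π ι C) (hd : 0 < d)
    (hN : ∀ x, N (N x) = 0) (n : ℕ) (x : L) (s : ℝ) (hs : |s| ≤ ((n:ℝ) + 2) ^ d) :
    ‖ι (Finsupp.single 0 (x + (s:ℂ) • N x))‖ ≤
      (2 * 4 ^ d * C ^ 2) * ((n:ℝ) + 2) ^ (2 * d) * ‖ι (Finsupp.single n x)‖ := by
  have hC := h.C_nonneg (wgt_pos d)
  have hc := h.circ (wgt_rot d) (wgt_pos d)
  have h0 : 0 < Real.cosh (tn n) := Real.cosh_pos _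
  have h00 : 0 < Real.sinh (tn n) := Real.sinh_pos_iff.mpr (tn_pos n)
  have h1 := FF_zero_eq' h (wgt_rot d) (wgt_pos d) (by omega) (x + (s:ℂ) • N x) n (tn n) (tn_pos n)
  have h2 : ‖FF π ι (2 * d) 0 (x + (s:ℂ) • N x) n (tn n)‖ ≤
      C * ‖π (hyp (tn n)) (ι (Finsupp.single n (x + (s:ℂ) • N x)))‖ := norm_proj_le hc _ _
  rw [h1, norm_smul, ← h.cen_eq hN n x s] at h2
  have h3 : π (hyp (tn n)) (π (cen s) (ι (Finsupp.single n x))) =
      π (hyp (tn n) * cen s) (ι (Finsupp.single n x)) := by rw [map_mul]; rfl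
  rw [h3] at h2
  have h4 : ‖π (hyp (tn n) * cen s) (ι (Finsupp.single n x))‖ ≤
      (C * (4 ^ d * ((n:ℝ) + 2) ^ d)) * ‖ι (Finsupp.single n x)‖ := by
    refine ((π _).le_opNorm _).trans ?_
    gcongr
    refine (h.bd _).trans ?_
    gcongr
    exact wgt_hyp_cen d n hd s hs
  have h5 : (1/2) / ((n:ℝ) + 2) ^ d ≤
      ‖(-(Real.sinh (tn n) / Real.cosh (tn n))) ^ n / Real.cosh (tn n) ^ (2 * d)‖ := by
    rw [norm_div, norm_pow, norm_neg, norm_pow, Real.norm_of_nonneg (by positivity),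
      Real.norm_of_nonneg h0.le, pow_mul (Real.cosh (tn n)), cosh_tn_sq]
    gcongr
    exact tanh_pow n
  have h6 : 0 < ((n:ℝ) + 2) ^ d := by positivity
  have h7 : (1/2) / ((n:ℝ) + 2) ^ d * ‖ι (Finsupp.single 0 (x + (s:ℂ) • N x))‖ ≤
      C * ((C * (4 ^ d * ((n:ℝ) + 2) ^ d)) * ‖ι (Finsupp.single n x)‖) :=
    calc (1/2) / ((n:ℝ) + 2) ^ d * ‖ι (Finsupp.single 0 (x + (s:ℂ) • N x))‖ ≤ _ := by gcongr
      _ ≤ _ := h2
      _ ≤ _ := by gcongr
  calc ‖ι (Finsupp.single 0 (x + (s:ℂ) • N x))‖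
      = (2 * ((n:ℝ) + 2) ^ d) * ((1/2) / ((n:ℝ) + 2) ^ d *
          ‖ι (Finsupp.single 0 (x + (s:ℂ) • N x))‖) := by field_simp
    _ ≤ (2 * ((n:ℝ) + 2) ^ d) * (C * ((C * (4 ^ d * ((n:ℝ) + 2) ^ d)) *
          ‖ι (Finsupp.single n x)‖)) := by gcongr
    _ = _ := by ring

theorem choose_lower (d n : ℕ) (hd : 0 < d) :
    ((n:ℝ) + 2) ^ (2 * d - 1) ≤ (2 ^ (2 * d - 1) * (2 * d - 1).factorial : ℕ) *
      ((2 * d + n - 1).choose n : ℝ) := by
  have h1 : (n + 1) ^ (2 * d - 1) ≤ (2 * d - 1).factorial * (2 * d + n - 1).choose n := by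
    have h2 := Nat.pow_succ_le_ascFactorial (n + 1) (2 * d - 1)
    have h3 := Nat.ascFactorial_eq_factorial_mul_choose n (2 * d - 1)
    have h4 : (n + (2 * d - 1)).choose (2 * d - 1) = (2 * d + n - 1).choose n := by
      have h5 : 2 * d + n - 1 = n + (2 * d - 1) := by omega
      rw [h5]
      rw [← Nat.choose_symm_add]
    rw [← h4, ← h3]
    exact h2
  have h2 : (n + 2) ^ (2 * d - 1) ≤ (2 ^ (2 * d - 1) * (2 * d - 1).factorial) *
      (2 * d + n - 1).choose n := by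
    calc (n + 2) ^ (2 * d - 1) ≤ (2 * (n + 1)) ^ (2 * d - 1) := by gcongr; omega
      _ = 2 ^ (2 * d - 1) * (n + 1) ^ (2 * d - 1) := mul_pow _ _ _
      _ ≤ 2 ^ (2 * d - 1) * ((2 * d - 1).factorial * (2 * d + n - 1).choose n) := by gcongr
      _ = _ := by ring
  exact_mod_cast h2

/-- Upper bound for the norm of `z^n (x + s N x)`. -/
theorem Glob.upper (h : Glob (2 * d) N (wgt d) π ι C) (hd : 0 < d)
    (hN : ∀ x, N (N x) = 0) (n : ℕ) (x : L) (s : ℝ) (hs : |s| ≤ ((n:ℝ) + 2) ^ d) :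
    ‖ι (Finsupp.single n (x + (s:ℂ) • N x))‖ ≤
      (2 * 4 ^ d * C ^ 2 * (2 ^ (2 * d - 1) * (2 * d - 1).factorial : ℕ)) * ((n:ℝ) + 2) *
        ‖ι (Finsupp.single 0 x)‖ := by
  have hC := h.C_nonneg (wgt_pos d)
  have hc := h.circ (wgt_rot d) (wgt_pos d)
  have h0 : 0 < Real.cosh (tn n) := Real.cosh_pos _
  have h00 : 0 < Real.sinh (tn n) := Real.sinh_pos_iff.mpr (tn_pos n)
  have h1 := FF_zero_eq h (wgt_rot d) (wgt_pos d) n (x + (s:ℂ) • N x) (tn n) (tn_pos n)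
  have h2 : ‖FF π ι (2 * d) n (x + (s:ℂ) • N x) 0 (tn n)‖ ≤
      C * ‖π (hyp (tn n)) (ι (Finsupp.single 0 (x + (s:ℂ) • N x)))‖ := norm_proj_le hc _ _
  rw [h1, norm_smul, ← h.cen_eq hN 0 x s] at h2
  have h3 : π (hyp (tn n)) (π (cen s) (ι (Finsupp.single 0 x))) =
      π (hyp (tn n) * cen s) (ι (Finsupp.single 0 x)) := by rw [map_mul]; rfl
  rw [h3] at h2
  have h4 : ‖π (hyp (tn n) * cen s) (ι (Finsupp.single 0 x))‖ ≤
      (C * (4 ^ d * ((n:ℝ) + 2) ^ d)) * ‖ι (Finsupp.single 0 x)‖ := by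
    refine ((π _).le_opNorm _).trans ?_
    gcongr
    refine (h.bd _).trans ?_
    gcongr
    exact wgt_hyp_cen d n hd s hs
  set B : ℝ := ((2 * d + n - 1).choose n : ℝ) with hB
  have hB0 : 0 ≤ B := by positivity
  set F : ℝ := ((2 ^ (2 * d - 1) * (2 * d - 1).factorial : ℕ) : ℝ) with hF
  have hF0 : 0 ≤ F := by positivity
  have hFB : ((n:ℝ) + 2) ^ (2 * d - 1) ≤ F * B := choose_lower d n hd
  have h5 : B * ((1/2) / ((n:ℝ) + 2) ^ d) ≤
      ‖B * (Real.sinh (tn n) ^ n / Real.cosh (tn n) ^ (n + 2 * d))‖ := by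
    have h51 : Real.sinh (tn n) ^ n / Real.cosh (tn n) ^ (n + 2 * d) =
        (Real.sinh (tn n) / Real.cosh (tn n)) ^ n / ((n:ℝ) + 2) ^ d := by
      rw [← cosh_tn_sq, ← pow_mul, pow_add, div_pow, div_div]
    rw [h51, Real.norm_of_nonneg (by positivity)]
    gcongr
    exact tanh_pow n
  have h6 : 0 < ((n:ℝ) + 2) ^ d := by positivity
  set P := ‖ι (Finsupp.single n (x + (s:ℂ) • N x))‖ with hP
  set P0 := ‖ι (Finsupp.single 0 x)‖ with hP0
  have h7 : B * ((1/2) / ((n:ℝ) + 2) ^ d) * P ≤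
      C * ((C * (4 ^ d * ((n:ℝ) + 2) ^ d)) * P0) :=
    calc B * ((1/2) / ((n:ℝ) + 2) ^ d) * P ≤ _ := by gcongr
      _ ≤ _ := h2
      _ ≤ _ := by gcongr
  have h8 : B * P ≤ (2 * 4 ^ d * C ^ 2) * ((n:ℝ) + 2) ^ (2 * d) * P0 :=
    calc B * P = (2 * ((n:ℝ) + 2) ^ d) * (B * ((1/2) / ((n:ℝ) + 2) ^ d) * P) := by field_simp
      _ ≤ (2 * ((n:ℝ) + 2) ^ d) * (C * ((C * (4 ^ d * ((n:ℝ) + 2) ^ d)) * P0)) := by gcongr
      _ = _ := by ring
  have h9 : 0 < ((n:ℝ) + 2) ^ (2 * d - 1) := by positivity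
  have h10 : ((n:ℝ) + 2) ^ (2 * d - 1) * P ≤ ((n:ℝ) + 2) ^ (2 * d - 1) *
      ((2 * 4 ^ d * C ^ 2 * F) * ((n:ℝ) + 2) * P0) :=
    calc ((n:ℝ) + 2) ^ (2 * d - 1) * P ≤ (F * B) * P := by gcongr
      _ = F * (B * P) := by ring
      _ ≤ F * ((2 * 4 ^ d * C ^ 2) * ((n:ℝ) + 2) ^ (2 * d) * P0) := by gcongr
      _ = _ := by
        have : ((n:ℝ) + 2) ^ (2 * d) = ((n:ℝ) + 2) ^ (2 * d - 1) * ((n:ℝ) + 2) := by
          rw [← pow_succ]; congr 1; omega
        rw [this]; ring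
  exact le_of_mul_le_mul_left h10 h9

end

end Pool.Agent.H60.Sob
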