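import Pool.Agent.H60.Sob.Final

/-!
# Transfer to the definitions used in the statement
-/

namespace Pool.Agent.H60.Sob

open Complex Topology Filter

section

variable {L : Type} [AddCommGroup L] [Module ℂ L]

/-- From `SobS.KT` to `K`. -/
def kOld (k : SobS.KT) : K := ⟨k.1, by
  obtain ⟨g, h1, h2⟩ := k
  refine ⟨h1, ?_⟩
  rcases h2 with h2 | h2
  · exact Or.inl (Units.ext h2)
  · exact Or.inr (Units.ext h2)⟩

/-- From `K` to `SobS.KT`. -/
def kNew (k : K) : SobS.KT := ⟨k.1, by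
  obtain ⟨g, h1, h2⟩ := k
  refine ⟨h1, ?_⟩
  rcases h2 with h2 | h2
  · exact Or.inl (congrArg Units.val h2)
  · exact Or.inr (congrArg Units.val h2)⟩

theorem kOld_kNew (k : K) : kOld (kNew k) = k := rfl
theorem kNew_kOld (k : SobS.KT) : kNew (kOld k) = k := rfl
theorem kOld_mul (k l : SobS.KT) : kOld (k * l) = kOld k * kOld l := rfl
theorem kOld_one : kOld 1 = 1 := rfl

theorem kOld_cont : Continuous kOld := Continuous.subtype_mk continuous_subtype_val _
theorem kNew_cont : Continuous kNew := Continuous.subtype_mk continuous_subtype_val _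

theorem isExp_iff (X : SobS.gLie) (γ : ℝ → SobS.G) :
    SobS.IsExp X γ ↔ IsExp (X : gLie) (fun t => (γ t : G)) := Iff.rfl

/-- The `(𝔤, K)`-module in the sense of the statement. -/
noncomputable def modS (k : ℕ) (N : L →ₗ[ℂ] L) : SobS.GKModule (ℕ →₀ L) where
  ρ X v := (modL k N).ρ X v
  κ g v := (modL k N).κ (kOld g) v
  ρ_lin X := ((modL k N).ρ X).isLinear
  κ_lin g := ((modL k N).κ (kOld g)).isLinear
  ρ_add X Y v := by
    have h := (modL k N).ρ_add X Y
    exact congrArg (fun f : (ℕ →₀ L) →ₗ[ℂ] (ℕ →₀ L) => f v) h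
  ρ_smul r X v := by
    have h := (modL k N).ρ_smul r X
    exact congrArg (fun f : (ℕ →₀ L) →ₗ[ℂ] (ℕ →₀ L) => f v) h
  ρ_lie X Y v := by
    have h := (modL k N).ρ_lie X Y
    exact congrArg (fun f : (ℕ →₀ L) →ₗ[ℂ] (ℕ →₀ L) => f v) h
  κ_one v := by rw [kOld_one, map_one]; rfl
  κ_mul g l v := by rw [kOld_mul, map_mul]; rfl
  κ_fin v := by
    have h : (Set.range fun g : SobS.KT => (modL k N).κ (kOld g) v) =
        Set.range fun g : K => (modL k N).κ g v := by
      ext x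
      constructor
      · rintro ⟨g, rfl⟩; exact ⟨kOld g, rfl⟩
      · rintro ⟨g, rfl⟩; exact ⟨kNew g, rfl⟩
    show FiniteDimensional ℂ (Submodule.span ℂ _)
    rw [h]
    exact (modL k N).κ_fin v
  κ_cont v l := ((modL k N).κ_cont v l).comp kOld_cont
  κ_deriv X γ h v l := (modL k N).κ_deriv X (fun t => kOld (γ t)) h v l
  κ_Ad g X v := (modL k N).κ_Ad (kOld g) X v

theorem modS_isHC [FiniteDimensional ℂ L] {k : ℕ} (hk : 0 < k) (N : L →ₗ[ℂ] L) :
    SobS.IsHarishChandra (modS k N) := by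
  obtain ⟨h1, S, hS⟩ := modL_isHC hk N
  refine ⟨fun χ => ?_, S, hS⟩
  refine h1 (fun g => χ (kNew g)) _ ?_
  intro v hv g
  induction hv using Submodule.span_induction with
  | mem x hx => exact hx (kNew g)
  | zero => rw [map_zero, smul_zero]
  | add x y _ _ hx hy => rw [map_add, hx, hy, smul_add]
  | smul a x _ hx => rw [map_smul, hx, smul_comm]

theorem inNorm_iff (k : ℕ) (N : L →ₗ[ℂ] L) (w : SobS.G → ℝ) (p : (ℕ →₀ L) → ℝ) :
    SobS.InNorm (modS k N) w p ↔ InNorm (modL k N) (fun g => w g) p := by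
  constructor
  · rintro ⟨E, i1, i2, π, ι, C, h, hp⟩
    have hlin : ∀ g, ∀ e, ‖(IsLinearMap.mk' _ (h.π_lin g)) e‖ ≤ (C * w g) * ‖e‖ := h.growth
    let π' : G →* (E →L[ℂ] E) :=
      { toFun := fun g => LinearMap.mkContinuous (IsLinearMap.mk' _ (h.π_lin g)) (C * w g) (hlin g)
        map_one' := by
          ext1 e
          exact h.π_one e
        map_mul' := by
          intro a b
          ext1 e
          exact h.π_mul a b e }
    let ι' : (ℕ →₀ L) →ₗ[ℂ] E := IsLinearMap.mk' _ h.ι_lin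
    have hgr : ∃ C' : ℝ, ∀ g, ‖π' g‖ ≤ C' * w g := by
      by_cases hne : Nontrivial E
      · refine ⟨C, fun g => ?_⟩
        have hw : 0 ≤ C * w g := by
          obtain ⟨e, he⟩ := exists_ne (0 : E)
          have h3 := (norm_nonneg _).trans (h.growth g e)
          exact nonneg_of_mul_nonneg_left h3 (norm_pos_iff.mpr he)
        exact ContinuousLinearMap.opNorm_le_bound _ hw (hlin g)
      · refine ⟨0, fun g => ?_⟩
        rw [not_nontrivial_iff_subsingleton] at hne
        rw [zero_mul]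
        refine ContinuousLinearMap.opNorm_le_bound _ le_rfl (fun e => ?_)
        rw [Subsingleton.elim (π' g e) 0, norm_zero, zero_mul]
    refine ⟨E, i1, i2, h.complete, π', ι', h.ι_inj, h.ι_dense, hp, h.π_cont, ?_,
      fun g v => h.ι_K (kNew g) v, fun X γ hγ v => h.ι_deriv X γ hγ v, hgr⟩
    · intro e
      have h1 := h.fin_iff e
      have h2 : (Set.range fun g : SobS.KT => π g.inc e) = Set.range fun g : K => π' g e := by
        ext x
        constructor
        · rintro ⟨g, rfl⟩; exact ⟨kOld g, rfl⟩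
        · rintro ⟨g, rfl⟩; exact ⟨kNew g, rfl⟩
      rw [h2] at h1
      exact h1
  · rintro ⟨E, i1, i2, hE, π, ι, h1, h2, h3, h4, h5, h6, h7, C, h8⟩
    refine ⟨E, i1, i2, fun g e => π g e, ι, C, ⟨hE, fun g => (π g).isLinear, ?_, ?_, h4,
      ι.isLinear, h1, h2, ?_, fun g v => h6 (kOld g) v, fun X γ hγ v => h7 X γ hγ v, ?_⟩, h3⟩
    · intro e
      have := π.map_one
      exact congrArg (fun f : E →L[ℂ] E => f e) this
    · intro g l e
      have := π.map_mul g l
      exact congrArg (fun f : E →L[ℂ] E => f e) this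
    · intro e
      have h9 := h5 e
      have h10 : (Set.range fun g : SobS.KT => π g.inc e) = Set.range fun g : K => π g e := by
        ext x
        constructor
        · rintro ⟨g, rfl⟩; exact ⟨kOld g, rfl⟩
        · rintro ⟨g, rfl⟩; exact ⟨kNew g, rfl⟩
      show FiniteDimensional ℂ (Submodule.span ℂ _) ↔ _
      rw [h10]
      exact h9
    · intro g e
      refine ((π g).le_opNorm e).trans ?_
      gcongr
      exact h8 g

theorem isRot_iff (θ : ℝ) (g : SobS.KT) : SobS.IsRot θ g ↔ kOld g = rot θ := by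
  constructor
  · rintro ⟨h1, h2⟩
    apply Subtype.ext
    apply G_ext
    · exact h1
    · rw [K_01, rot_01]
    · exact Units.ext h2
  · intro h
    have h1 : (kOld g).1.1.1.1 0 0 = exp (θ * I) := by rw [h]; rfl
    have h2 : ((kOld g).1.2 : ℝ) = 1 := by rw [h]; rfl
    exact ⟨h1, h2⟩

theorem isSobolev_iff (k : ℕ) (N : L →ₗ[ℂ] L) (s : ℝ) (D : (ℕ →₀ L) →ₗ[ℂ] (ℕ →₀ L)) :
    SobS.IsSobolev (modS k N) s D ↔ IsSobolev (modL k N) s D := by
  constructor
  · intro h m v hv
    refine h m v (fun θ g hg => ?_)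
    rw [isRot_iff] at hg
    show (modL k N).κ (kOld g) v = _
    rw [hg]
    exact hv θ
  · intro h m v hv
    refine h m v (fun θ => ?_)
    exact hv θ (kNew (rot θ)) ((isRot_iff _ _).mpr rfl)

theorem sobLe_iff (k : ℕ) (N : L →ₗ[ℂ] L) (s : ℝ) (p q : (ℕ →₀ L) → ℝ) :
    SobS.SobLe (modS k N) s p q ↔ SobLe (modL k N) s p q := by
  unfold SobS.SobLe SobLe
  simp only [isSobolev_iff]

theorem sobolevGap_eq (k : ℕ) (N : L →ₗ[ℂ] L) (w : SobS.G → ℝ) :
    SobS.sobolevGap (modS k N) w = sobolevGap (modL k N) (fun g => w g) := by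
  unfold SobS.sobolevGap sobolevGap gapSet
  simp only [sobLe_iff, inNorm_iff]

theorem gapOf_eq (k : ℕ) (N : L →ₗ[ℂ] L) (p q : (ℕ →₀ L) → ℝ) :
    SobS.gapOf (modS k N) p q = sInf {s | 0 ≤ s ∧ SobLe (modL k N) s p q} := by
  unfold SobS.gapOf
  simp only [sobLe_iff]

theorem isMaxNorm_iff (k : ℕ) (N : L →ₗ[ℂ] L) (w : SobS.G → ℝ) (p : (ℕ →₀ L) → ℝ) :
    SobS.IsMaxNorm (modS k N) w p ↔ IsMaxNorm (modL k N) (fun g => w g) p := by
  unfold SobS.IsMaxNorm IsMaxNorm
  simp only [inNorm_iff]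

theorem isMinNorm_iff (k : ℕ) (N : L →ₗ[ℂ] L) (w : SobS.G → ℝ) (p : (ℕ →₀ L) → ℝ) :
    SobS.IsMinNorm (modS k N) w p ↔ IsMinNorm (modL k N) (fun g => w g) p := by
  unfold SobS.IsMinNorm IsMinNorm
  simp only [inNorm_iff]

end

/-- The inclusion is an embedding of modules. -/
theorem incl_isEmb (k : ℕ) :
    SobS.IsEmb (modS k (0 : ℂ →ₗ[ℂ] ℂ)) (modS k nil2) incl :=
  ⟨incl_inj, fun X v => incl_rho k X v, fun g v => incl_kap k (kOld g) v⟩

/-- The weight, on the group of the statement. -/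
noncomputable def wgtS (d : ℕ) (g : SobS.G) : ℝ := wgt d g

theorem wgtS_isWeight (d : ℕ) : SobS.IsWeight (wgtS d) := wgt_isWeight d

end Pool.Agent.H60.Sob
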