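import Pool.Agent.H60.Sob.Defs

/-!
# Averaging over the circle
-/

namespace Pool.Agent.H60.Sob

open Complex Topology Filter MeasureTheory intervalIntegral

section Circle

variable {E : Type*} [NormedAddCommGroup E] [NormedSpace ℂ E]

/-- A bounded strongly continuous action of the circle `ℝ / 2πℤ` on a Banach space. -/
structure CircAct (u : ℝ → E →L[ℂ] E) (C : ℝ) : Prop where
  cont : ∀ e, Continuous fun φ => u φ e
  add : ∀ s t e, u (s + t) e = u s (u t e)
  zero : ∀ e, u 0 e = e
  per : ∀ s e, u (s + 2 * Real.pi) e = u s e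
  bd : ∀ φ e, ‖u φ e‖ ≤ C * ‖e‖

/-- The projection to the weight space. -/
noncomputable def proj (u : ℝ → E →L[ℂ] E) (m : ℤ) (e : E) : E :=
  ((2 * Real.pi : ℝ) : ℂ)⁻¹ • ∫ φ in (0:ℝ)..2 * Real.pi, exp (m * φ * I) • u φ e

variable {u : ℝ → E →L[ℂ] E} {C : ℝ}

theorem CircAct.cont' (h : CircAct u C) (m : ℤ) (e : E) :
    Continuous fun φ : ℝ => exp (m * φ * I) • u φ e := by
  have := h.cont e
  fun_prop

theorem CircAct.C_nonneg_of (h : CircAct u C) {e : E} (he : e ≠ 0) : 0 ≤ C := by
  have h1 := h.bd 0 e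
  rw [h.zero] at h1
  have h2 : 0 < ‖e‖ := norm_pos_iff.mpr he
  by_contra hC
  push Not at hC
  nlinarith

theorem proj_add (h : CircAct u C) (m : ℤ) (e f : E) :
    proj u m (e + f) = proj u m e + proj u m f := by
  unfold proj
  rw [← smul_add, ← intervalIntegral.integral_add ((h.cont' m e).intervalIntegrable _ _)
    ((h.cont' m f).intervalIntegrable _ _)]
  simp only [map_add, smul_add]

theorem proj_smul (m : ℤ) (c : ℂ) (e : E) :
    proj u m (c • e) = c • proj u m e := by
  unfold proj
  rw [smul_comm c]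
  congr 1
  rw [← intervalIntegral.integral_smul]
  congr 1
  funext φ
  rw [map_smul, smul_comm]

theorem norm_proj_le (h : CircAct u C) (m : ℤ) (e : E) : ‖proj u m e‖ ≤ C * ‖e‖ := by
  unfold proj
  rw [norm_smul]
  have h2 : (0:ℝ) < 2 * Real.pi := by positivity
  have h1 : ‖∫ φ in (0:ℝ)..2 * Real.pi, exp (m * φ * I) • u φ e‖ ≤
      (C * ‖e‖) * |2 * Real.pi - 0| := by
    apply intervalIntegral.norm_integral_le_of_norm_le_const
    intro φ _
    rw [norm_smul]
    have : ‖exp (m * φ * I)‖ = 1 := by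
      have : (m:ℂ) * φ * I = ((m * φ : ℝ) : ℂ) * I := by push_cast; ring
      rw [this, Complex.norm_exp_ofReal_mul_I]
    rw [this, one_mul]
    exact h.bd φ e
  rw [sub_zero, abs_of_pos h2] at h1
  rw [norm_inv, Complex.norm_real, Real.norm_of_nonneg h2.le]
  calc (2 * Real.pi)⁻¹ * ‖∫ φ in (0:ℝ)..2 * Real.pi, exp (m * φ * I) • u φ e‖
      ≤ (2 * Real.pi)⁻¹ * ((C * ‖e‖) * (2 * Real.pi)) := by gcongr
    _ = C * ‖e‖ := by field_simp

/-- The projection as a continuous linear map. -/
noncomputable def projL (h : CircAct u C) (m : ℤ) : E →L[ℂ] E :=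
  LinearMap.mkContinuous
    { toFun := proj u m
      map_add' := proj_add h m
      map_smul' := proj_smul m } C (norm_proj_le h m)

@[simp] theorem projL_apply (h : CircAct u C) (m : ℤ) (e : E) : projL h m e = proj u m e := rfl

variable [CompleteSpace E]

theorem proj_rot (h : CircAct u C) (m : ℤ) (ψ : ℝ) (e : E) :
    proj u m (u ψ e) = exp (-(m * ψ * I)) • proj u m e := by
  unfold proj
  rw [smul_comm]
  congr 1
  rw [← intervalIntegral.integral_smul]
  have h1 : (fun φ : ℝ => exp (m * φ * I) • (u φ) ((u ψ) e)) =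
      fun φ : ℝ => (fun x : ℝ => exp (-(m * ψ * I)) • exp (m * x * I) • u x e) (φ + ψ) := by
    funext φ
    simp only
    rw [h.add, smul_smul, ← Complex.exp_add]
    congr 2
    push_cast
    ring
  rw [h1, intervalIntegral.integral_comp_add_right
    (fun x : ℝ => exp (-(m * ψ * I)) • exp (m * x * I) • u x e), zero_add,
    add_comm (2 * Real.pi) ψ]
  have hper : Function.Periodic (fun x : ℝ => exp (-(m * ψ * I)) • exp (m * x * I) • u x e)
      (2 * Real.pi) := by
    intro x
    simp only
    rw [h.per]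
    congr 2
    have : (m:ℂ) * ((x + 2 * Real.pi : ℝ) : ℂ) * I = m * x * I + m * (2 * Real.pi * I) := by
      push_cast; ring
    rw [this, Complex.exp_add, Complex.exp_int_mul_two_pi_mul_I, mul_one]
  rw [hper.intervalIntegral_add_eq ψ 0, zero_add]

theorem proj_eig (h : CircAct u C) (m j : ℤ) (e : E)
    (he : ∀ φ : ℝ, u φ e = exp (-(j * φ * I)) • e) :
    proj u m e = if m = j then e else 0 := by
  have hp : ((2 * Real.pi : ℝ) : ℂ) ≠ 0 := by
    exact_mod_cast (by positivity : (2 * Real.pi : ℝ) ≠ 0)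
  split_ifs with hmj
  · subst hmj
    unfold proj
    have : (fun φ : ℝ => exp (m * φ * I) • (u φ) e) = fun φ => e := by
      ext φ
      rw [he, smul_smul, ← Complex.exp_add]
      simp
    rw [this, intervalIntegral.integral_const, sub_zero]
    rw [← Complex.coe_smul, smul_smul, inv_mul_cancel₀ hp, one_smul]
  · -- rotate by a suitable angle
    have h1 : ∀ ψ : ℝ, exp (-(j * ψ * I)) • proj u m e = exp (-(m * ψ * I)) • proj u m e := by
      intro ψ
      rw [← proj_smul, ← he ψ, proj_rot h]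
    by_contra hne
    have hd : ((m:ℝ) - j) ≠ 0 := sub_ne_zero.mpr (by exact_mod_cast hmj)
    have h2 := h1 (Real.pi / (m - j))
    have h3 := smul_left_injective ℂ hne h2
    rw [Complex.exp_eq_exp_iff_exists_int] at h3
    obtain ⟨n, hn⟩ := h3
    have h4 : (((m:ℝ) - j) * (Real.pi / (m - j)) : ℝ) = n * (2 * Real.pi) := by
      have h5 : ((((m:ℝ) - j) * (Real.pi / (m - j)) : ℝ) : ℂ) * I = ((n * (2 * Real.pi) : ℝ) : ℂ) * I := by
        push_cast
        push_cast at hn
        linear_combination hn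
      have h6 := mul_right_cancel₀ Complex.I_ne_zero h5
      exact_mod_cast h6
    rw [mul_div_cancel₀ _ hd] at h4
    have h5 : (1:ℝ) = 2 * n := by
      have := Real.pi_pos
      nlinarith [mul_left_cancel₀ this.ne' (show Real.pi * 1 = Real.pi * (2 * n) by linarith)]
    have h6 : (1:ℤ) = 2 * n := by exact_mod_cast h5
    omega

theorem proj_mem (h : CircAct u C) (m : ℤ) (e : E) (F : Submodule ℂ E)
    (hF : IsClosed (F : Set E)) (hu : ∀ φ, u φ e ∈ F) : proj u m e ∈ F := by
  unfold proj
  apply F.smul_mem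
  have : CompleteSpace F := hF.completeSpace_coe
  have hm : ∀ φ : ℝ, exp (m * φ * I) • u φ e ∈ F := fun φ => F.smul_mem _ (hu φ)
  have hc : Continuous fun φ : ℝ => (⟨exp (m * φ * I) • u φ e, hm φ⟩ : F) :=
    Continuous.subtype_mk (h.cont' m e) _
  have h1 := F.subtypeL.intervalIntegral_comp_comm
    (hc.intervalIntegrable (μ := volume) 0 (2 * Real.pi))
  have h2 : (∫ φ in (0:ℝ)..2 * Real.pi, exp (m * φ * I) • u φ e) =
      ∫ φ in (0:ℝ)..2 * Real.pi, F.subtypeL (⟨exp (m * φ * I) • u φ e, hm φ⟩ : F) := rfl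
  rw [h2, h1]
  exact Submodule.coe_mem _

theorem proj_complete (h : CircAct u C) (e : E) (he : ∀ m : ℤ, proj u m e = 0) : e = 0 := by
  have : Fact (0 < 2 * Real.pi) := ⟨by positivity⟩
  apply SeparatingDual.eq_zero_of_forall_dual_eq_zero (R := ℂ)
  intro l
  have hper : Function.Periodic (fun φ : ℝ => l (u φ e)) (2 * Real.pi) := by
    intro x
    simp only
    rw [h.per]
  have hcont : Continuous (fun φ : ℝ => l (u φ e)) := l.continuous.comp (h.cont e)
  let g : C(AddCircle (2 * Real.pi), ℂ) := ⟨hper.lift, continuous_coinduced_dom.mpr hcont⟩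
  have hg : ∀ m, fourierCoeff g m = 0 := by
    intro m
    rw [fourierCoeff_eq_intervalIntegral g m 0]
    have h1 : (∫ x in (0:ℝ)..0 + 2 * Real.pi, (fourier (-m) (x : AddCircle (2 * Real.pi))) • g x) =
        ∫ x in (0:ℝ)..2 * Real.pi, l (exp (((-m : ℤ) : ℂ) * x * I) • u x e) := by
      rw [zero_add]
      congr 1
      funext x
      rw [map_smul, fourier_coe_apply]
      show _ • hper.lift (x : AddCircle (2 * Real.pi)) = _
      rw [Function.Periodic.lift_coe]
      congr 2
      have : (Real.pi : ℂ) ≠ 0 := by exact_mod_cast Real.pi_ne_zero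
      push_cast
      field_simp
    rw [h1, l.intervalIntegral_comp_comm ((h.cont' (-m) e).intervalIntegrable _ _)]
    have h2 := he (-m)
    unfold proj at h2
    rw [smul_eq_zero] at h2
    rcases h2 with h2 | h2
    · exfalso
      have hp : ((2 * Real.pi : ℝ) : ℂ) ≠ 0 := by
        exact_mod_cast (by positivity : (2 * Real.pi : ℝ) ≠ 0)
      exact inv_ne_zero hp h2
    · rw [h2, map_zero, smul_zero]
  have hs : Summable (fourierCoeff g) := by
    have : (fourierCoeff g : ℤ → ℂ) = fun _ => 0 := funext hg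
    rw [this]
    exact summable_zero
  have h3 := hasSum_fourier_series_of_summable hs
  have h4 : (fun i : ℤ => fourierCoeff g i • (fourier i : C(AddCircle (2 * Real.pi), ℂ))) =
      fun _ => 0 := by
    funext i
    rw [hg i, zero_smul]
  rw [h4] at h3
  have h5 : g = 0 := h3.unique hasSum_zero
  have h6 : g ((0:ℝ) : AddCircle (2 * Real.pi)) = 0 := by rw [h5]; rfl
  have h7 : g ((0:ℝ) : AddCircle (2 * Real.pi)) = l (u 0 e) := by
    show hper.lift ((0:ℝ) : AddCircle (2 * Real.pi)) = _
    rw [Function.Periodic.lift_coe]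
  rw [h7, h.zero] at h6
  exact h6

theorem rot_proj (h : CircAct u C) (m : ℤ) (ψ : ℝ) (e : E) :
    u ψ (proj u m e) = exp (-(m * ψ * I)) • proj u m e := by
  rw [← proj_rot h]
  unfold proj
  rw [map_smul, ← (u ψ).intervalIntegral_comp_comm ((h.cont' m e).intervalIntegrable _ _)]
  congr 2
  funext φ
  rw [map_smul, ← h.add, ← h.add, add_comm]

theorem proj_proj (h : CircAct u C) (m j : ℤ) (e : E) :
    proj u m (proj u j e) = if m = j then proj u j e else 0 :=
  proj_eig h m j _ (fun φ => rot_proj h j φ e)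

theorem mem_of_finite_orbit (h : CircAct u C) (W : Submodule ℂ E)
    (hW : ∀ m e, proj u m e ∈ W) (e : E)
    (hF : FiniteDimensional ℂ (Submodule.span ℂ (Set.range fun φ => u φ e))) : e ∈ W := by
  set F := Submodule.span ℂ (Set.range fun φ => u φ e) with hFdef
  have hcl : IsClosed (F : Set E) := F.closed_of_finiteDimensional
  have hmem : ∀ m, proj u m e ∈ F := fun m =>
    proj_mem h m e F hcl (fun φ => Submodule.subset_span ⟨φ, rfl⟩)
  let ι := {m : ℤ // proj u m e ≠ 0}
  have hli : LinearIndependent ℂ (fun m : ι => (⟨proj u m.1 e, hmem m.1⟩ : F)) := by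
    rw [linearIndependent_iff']
    intro s g hg j hj
    have h1 := congrArg (fun x : F => projL h j.1 (x : E)) hg
    simp only [Submodule.coe_sum, Submodule.coe_smul, map_sum, map_smul, projL_apply,
      proj_proj h, ZeroMemClass.coe_zero, map_zero] at h1
    rw [Finset.sum_eq_single j] at h1
    · rw [if_pos rfl] at h1
      exact (smul_eq_zero.mp h1).resolve_right j.2
    · intro b _ hb
      rw [if_neg, smul_zero]
      intro hjb
      exact hb (Subtype.ext hjb.symm)
    · intro hj'
      exact absurd hj hj'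
  have hfin : Finite ι := hli.finite_of_isNoetherian
  have hfs : {m : ℤ | proj u m e ≠ 0}.Finite := Set.finite_coe_iff.mp hfin
  have h0 : e - ∑ m ∈ hfs.toFinset, proj u m e = 0 := by
    apply proj_complete h
    intro j
    have h1 : proj u j (e - ∑ m ∈ hfs.toFinset, proj u m e) =
        projL h j (e - ∑ m ∈ hfs.toFinset, proj u m e) := rfl
    rw [h1, map_sub, map_sum]
    simp only [projL_apply, proj_proj h]
    by_cases hj : proj u j e = 0
    · rw [Finset.sum_eq_zero, hj, sub_zero]
      intro m hm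
      split_ifs with hjm
      · rw [← hjm]; exact hj
      · rfl
    · rw [Finset.sum_ite_eq, if_pos (hfs.mem_toFinset.mpr hj), sub_self]
  rw [sub_eq_zero.mp h0]
  exact W.sum_mem fun m _ => hW m e

/-- Weight vectors indexed by `ℕ →₀ L`. -/
structure WtMap {L : Type*} [AddCommGroup L] [Module ℂ L] (u : ℝ → E →L[ℂ] E) (k : ℕ)
    (ι : (ℕ →₀ L) →ₗ[ℂ] E) : Prop where
  eig : ∀ (φ : ℝ) n x, u φ (ι (Finsupp.single n x)) =
    exp (-(((k + 2 * n : ℕ) : ℤ) * φ * I)) • ι (Finsupp.single n x)

section Wt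

variable {L : Type*} [AddCommGroup L] [Module ℂ L] {k : ℕ} {ι : (ℕ →₀ L) →ₗ[ℂ] E}

theorem proj_iota (h : CircAct u C) (hι : WtMap u k ι) (m : ℤ) (v : ℕ →₀ L) :
    proj u m (ι v) =
      ι (v.filter (fun n => m = ((k + 2 * n : ℕ) : ℤ))) := by
  induction v using Finsupp.induction_linear with
  | zero =>
    rw [map_zero, ← projL_apply h, map_zero, Finsupp.filter_zero, map_zero]
  | add v w hv hw => rw [map_add, proj_add h, hv, hw, Finsupp.filter_add, map_add]
  | single n x =>
    rw [proj_eig h m ((k + 2 * n : ℕ) : ℤ) _ (fun φ => hι.eig φ n x)]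
    split_ifs with hm
    · rw [Finsupp.filter_single_of_pos (fun n : ℕ => m = ((k + 2 * n : ℕ) : ℤ)) hm]
    · rw [Finsupp.filter_single_of_neg (fun n : ℕ => m = ((k + 2 * n : ℕ) : ℤ)) hm, map_zero]

theorem proj_iota_eq (h : CircAct u C) (hι : WtMap u k ι) (n : ℕ) (v : ℕ →₀ L) :
    proj u ((k + 2 * n : ℕ) : ℤ) (ι v) = ι (Finsupp.single n (v n)) := by
  rw [proj_iota h hι]
  congr 1
  ext j
  by_cases hj : j = n
  · subst hj
    simp
  · rw [Finsupp.filter_apply_neg, Finsupp.single_apply, if_neg (Ne.symm hj)]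
    intro h1
    apply hj
    have : (k + 2 * n : ℕ) = k + 2 * j := by exact_mod_cast h1
    omega

theorem proj_iota_single (h : CircAct u C) (hι : WtMap u k ι) (n m : ℕ) (x : L) :
    proj u ((k + 2 * n : ℕ) : ℤ) (ι (Finsupp.single m x)) =
      if m = n then ι (Finsupp.single m x) else 0 := by
  rw [proj_iota_eq h hι, Finsupp.single_apply]
  split_ifs with hm
  · rw [hm]
  · simp

theorem proj_mem_range [FiniteDimensional ℂ L] (h : CircAct u C) (hι : WtMap u k ι)
    (hd : DenseRange ι) (m : ℤ) (e : E) : proj u m e ∈ LinearMap.range ι := by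
  by_cases hm : ∃ n : ℕ, m = ((k + 2 * n : ℕ) : ℤ)
  · obtain ⟨n, rfl⟩ := hm
    let W : Submodule ℂ E := LinearMap.range (ι ∘ₗ Finsupp.lsingle n)
    have hWc : IsClosed (W : Set E) := W.closed_of_finiteDimensional
    have h1 : IsClosed {e : E | projL h ((k + 2 * n : ℕ) : ℤ) e ∈ W} :=
      hWc.preimage (projL h _).continuous
    have h2 : ∀ e, projL h ((k + 2 * n : ℕ) : ℤ) e ∈ W := by
      intro e
      refine hd.induction_on (p := fun e => projL h ((k + 2 * n : ℕ) : ℤ) e ∈ W) e h1 ?_
      intro v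
      rw [projL_apply, proj_iota_eq h hι]
      exact ⟨v n, rfl⟩
    obtain ⟨x, hx⟩ := h2 e
    rw [← projL_apply h, ← hx]
    exact ⟨Finsupp.single n x, rfl⟩
  · have h1 : IsClosed {e : E | projL h m e = 0} :=
      isClosed_eq (projL h _).continuous continuous_const
    have h2 : ∀ e, projL h m e = 0 := by
      intro e
      refine hd.induction_on (p := fun e => projL h m e = 0) e h1 ?_
      intro v
      rw [projL_apply, proj_iota h hι]
      have : v.filter (fun n => m = ((k + 2 * n : ℕ) : ℤ)) = 0 := by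
        rw [Finsupp.filter_eq_zero_iff]
        intro n hn
        exact absurd ⟨n, hn⟩ hm
      rw [this, map_zero]
    rw [← projL_apply h, h2 e]
    exact Submodule.zero_mem _

end Wt

end Circle

end Pool.Agent.H60.Sob
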