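import Pool.Agent.H60.Sob.Stmt

/-!
# Definitions: the real reductive group `SU(1,1) × ℝˣ`, its Harish-Chandra modules, `G`-continuous
norms, weights and Sobolev gaps.
-/

namespace Pool.Agent.H60.Sob

open Complex Matrix Topology Filter

export Pool.Agent.H60.SobS (SU11 su11)

/-- The real reductive group `G = SU(1,1) × ℝˣ` (the real points of a connected reductive
algebraic group). -/
abbrev G : Type := SU11 × ℝˣ

/-- Its Lie algebra `𝔤 = su(1,1) × ℝ`. -/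
abbrev gLie : Type := su11 × ℝ

/-- The Lie bracket of `𝔤`: the commutator of matrices on `su(1,1)`; the factor `ℝ` is central. -/
def bracket (X Y : gLie) : gLie :=
  (⟨X.1.1 * Y.1.1 - Y.1.1 * X.1.1, by
    obtain ⟨⟨X, h1, h2, h3⟩, x⟩ := X
    obtain ⟨⟨Y, h4, h5, h6⟩, y⟩ := Y
    refine ⟨?_, ?_, ?_⟩
    all_goals
      simp only [Matrix.sub_apply, Matrix.mul_apply, Fin.sum_univ_two, h1, h2, h4, h5, map_sub,
        map_add, map_mul, Complex.conj_conj]
      ring⟩, 0)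

/-- The adjoint action of `G` on `𝔤`. -/
def Ad (g : G) (X : gLie) : gLie :=
  (⟨g.1.1.1 * X.1.1 * (g.1.1⁻¹).1, by
    obtain ⟨⟨g, h1, h2⟩, y⟩ := g
    obtain ⟨⟨X, h3, h4, h5⟩, x⟩ := X
    have h6 : X 1 1 = - X 0 0 := by linear_combination h5
    have h7 : starRingEnd ℂ (X 0 0) = - X 0 0 := by rw [← h4, h6]
    refine ⟨?_, ?_, ?_⟩
    all_goals
      simp only [Matrix.SpecialLinearGroup.coe_inv, Matrix.adjugate_fin_two, Matrix.mul_apply,
        Fin.sum_univ_two, h1, h2, h3, h6, Matrix.of_apply, Matrix.cons_val', Matrix.cons_val_zero,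
        Matrix.cons_val_one, Matrix.cons_val_fin_one, map_add, map_mul, map_neg,
        Complex.conj_conj, h7]
      ring⟩, X.2)

/-- The maximal compact subgroup `K = U(1) × {±1}` of `G`. -/
def K : Subgroup G where
  carrier := {g | g.1.1 0 1 = 0 ∧ (g.2 = 1 ∨ g.2 = -1)}
  one_mem' := by simp
  mul_mem' := by
    rintro ⟨⟨g, hg1, hg2⟩, y⟩ ⟨⟨h, hh1, hh2⟩, z⟩ ⟨h1, h2⟩ ⟨h3, h4⟩
    simp only at h1 h2 h3 h4
    refine ⟨?_, ?_⟩
    · show (g * h) 0 1 = 0
      simp [Matrix.SpecialLinearGroup.coe_mul, Matrix.mul_apply, Fin.sum_univ_two, h1, h3]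
    · show y * z = 1 ∨ y * z = -1
      rcases h2 with rfl | rfl <;> rcases h4 with rfl | rfl <;> simp
  inv_mem' := by
    rintro ⟨⟨g, hg1, hg2⟩, y⟩ ⟨h1, h2⟩
    simp only at h1 h2
    refine ⟨?_, ?_⟩
    · show (g⁻¹) 0 1 = 0
      rw [Matrix.SpecialLinearGroup.SL2_inv_expl]
      simp [h1]
    · show y⁻¹ = 1 ∨ y⁻¹ = -1
      rcases h2 with rfl | rfl <;> simp

/-- `γ` is the one-parameter subgroup `t ↦ exp (t X)` of `G`: a homomorphism `ℝ → G` whose
derivative at `0` is `X`. -/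
def IsExp (X : gLie) (γ : ℝ → G) : Prop :=
  (∀ s t, γ (s + t) = γ s * γ t) ∧
  (∀ i j, HasDerivAt (fun t => (γ t).1.1 i j) (X.1.1 i j) 0) ∧
  HasDerivAt (fun t => ((γ t).2 : ℝ)) X.2 0

/-- A `(𝔤, K)`-module structure on a complex vector space `V`. -/
structure GKModule (V : Type) [AddCommGroup V] [Module ℂ V] where
  /-- the action of the Lie algebra -/
  ρ : gLie → V →ₗ[ℂ] V
  /-- the action of `K` -/
  κ : K →* Module.End ℂ V
  ρ_add : ∀ X Y, ρ (X + Y) = ρ X + ρ Y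
  ρ_smul : ∀ (r : ℝ) X, ρ (r • X) = (r : ℂ) • ρ X
  ρ_lie : ∀ X Y, ρ (bracket X Y) = ρ X ∘ₗ ρ Y - ρ Y ∘ₗ ρ X
  /-- every vector is `K`-finite -/
  κ_fin : ∀ v, FiniteDimensional ℂ (Submodule.span ℂ (Set.range fun k => κ k v))
  /-- the action of `K` is continuous -/
  κ_cont : ∀ v (l : V →ₗ[ℂ] ℂ), Continuous fun k => l (κ k v)
  /-- the two actions of the Lie algebra of `K` agree -/
  κ_deriv : ∀ (X : gLie) (γ : ℝ → K), IsExp X (fun t => (γ t : G)) → ∀ v (l : V →ₗ[ℂ] ℂ),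
    HasDerivAt (fun t => l (κ (γ t) v)) (l (ρ X v)) 0
  /-- compatibility with the adjoint action of `K` on `𝔤` -/
  κ_Ad : ∀ (k : K) X v, κ k (ρ X v) = ρ (Ad k X) (κ k v)

variable {V : Type} [AddCommGroup V] [Module ℂ V]

/-- A Harish-Chandra module: an admissible `(𝔤, K)`-module, finitely generated over `𝔤`.
(Since `K` is commutative, its irreducible representations are characters.) -/
def IsHarishChandra (M : GKModule V) : Prop :=
  (∀ χ : K → ℂ, ∀ W : Submodule ℂ V, (∀ v ∈ W, ∀ k, M.κ k v = χ k • v) →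
    FiniteDimensional ℂ W) ∧
  (∃ S : Finset V, ∀ W : Submodule ℂ V, (∀ v ∈ S, v ∈ W) →
    (∀ (X : gLie), ∀ v ∈ W, M.ρ X v ∈ W) → W = ⊤)

/-- A weight on `G`: a positive, locally bounded, submultiplicative function. -/
def IsWeight (w : G → ℝ) : Prop :=
  (∀ g, 0 < w g) ∧ (∀ g h, w (g * h) ≤ w g * w h) ∧
  (∀ g, ∃ C : ℝ, ∀ᶠ h in 𝓝 g, w h ≤ C)

/-- `p ∈ Norm(V, w)`: `p` is a `G`-continuous norm on `V` whose growth is at most `C w`.
Here `E`, with the map `ι`, is the completion of `V` with respect to `p`; the group `G` acts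
continuously on `E`; the `K`-finite vectors of `E` are exactly the vectors of `V`, and the two
`(𝔤, K)`-module structures on them agree. -/
def InNorm (M : GKModule V) (w : G → ℝ) (p : V → ℝ) : Prop :=
  ∃ (E : Type) (_ : NormedAddCommGroup E) (_ : NormedSpace ℂ E) (_ : CompleteSpace E)
    (π : G →* (E →L[ℂ] E)) (ι : V →ₗ[ℂ] E),
    Function.Injective ι ∧ DenseRange ι ∧ (∀ v, p v = ‖ι v‖) ∧
    Continuous (fun x : G × E => π x.1 x.2) ∧
    (∀ e, FiniteDimensional ℂ (Submodule.span ℂ (Set.range fun k : K => π k e)) ↔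
      e ∈ LinearMap.range ι) ∧
    (∀ (k : K) v, π k (ι v) = ι (M.κ k v)) ∧
    (∀ (X : gLie) (γ : ℝ → G), IsExp X γ → ∀ v,
      HasDerivAt (fun t => π (γ t) (ι v)) (ι (M.ρ X v)) 0) ∧
    ∃ C : ℝ, ∀ g, ‖π g‖ ≤ C * w g

/-- The element `diag(e^{iθ}, e^{-iθ})` of the maximal torus `U(1)` of `K`. -/
noncomputable def rot (θ : ℝ) : K :=
  ⟨(⟨⟨!![exp (θ * I), 0; 0, exp (-(θ * I))], by
    simp [Matrix.det_fin_two, ← Complex.exp_add]⟩, by
    constructor
    · simp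
    · simp [← Complex.exp_conj]⟩, 1), by
    constructor
    · simp
    · simp⟩

/-- `D` is the operator `D_s = (1 + Δ_K)^{s/2}`: it acts on vectors of weight `m ∈ ℤ` under the
maximal torus `U(1)` by the scalar `(1 + m²)^{s/2}`. -/
def IsSobolev (M : GKModule V) (s : ℝ) (D : V →ₗ[ℂ] V) : Prop :=
  ∀ (m : ℤ) (v : V), (∀ θ : ℝ, M.κ (rot θ) v = exp (m * θ * I) • v) →
    D v = (((1 + (m : ℝ) ^ 2) ^ (s / 2) : ℝ) : ℂ) • v

/-- `p ≲ q_s`, where `q_s(v) = q(D_s v)`. -/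
def SobLe (M : GKModule V) (s : ℝ) (p q : V → ℝ) : Prop :=
  ∃ D, IsSobolev M s D ∧ ∃ c : ℝ, ∀ v, p v ≤ c * q (D v)

/-- The set of all `s ≥ 0` such that `p ≲ q_s` for all `p, q ∈ Norm(V, w)`. When
`Norm(V, w)/∼` has a maximal class `[p_max]` and a minimal class `[p_min]`, this says that
`p_max ≲ (p_min)_s`. -/
def gapSet (M : GKModule V) (w : G → ℝ) : Set ℝ :=
  {s | 0 ≤ s ∧ ∀ p q, InNorm M w p → InNorm M w q → SobLe M s p q}

/-- The Sobolev gap `s(V, w)`, for `Norm(V, w)` nonempty. -/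
noncomputable def sobolevGap (M : GKModule V) (w : G → ℝ) : ℝ := sInf (gapSet M w)

/-- `p` represents the maximal class of `Norm(V, w)`. -/
def IsMaxNorm (M : GKModule V) (w : G → ℝ) (p : V → ℝ) : Prop :=
  InNorm M w p ∧ ∀ q, InNorm M w q → ∃ c : ℝ, ∀ v, q v ≤ c * p v

/-- `p` represents the minimal class of `Norm(V, w)`. -/
def IsMinNorm (M : GKModule V) (w : G → ℝ) (p : V → ℝ) : Prop :=
  InNorm M w p ∧ ∀ q, InNorm M w q → ∃ c : ℝ, ∀ v, p v ≤ c * q v

end Pool.Agent.H60.Sob
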