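import Pool.Agent.H60.Sob.Bounds

/-!
# Upper bounds for the Sobolev gap
-/

namespace Pool.Agent.H60.Sob

open Complex Topology Filter

section

variable {L : Type} [AddCommGroup L] [Module ℂ L]

theorem int_eq_of_exp (m j : ℤ) (h : ∀ θ : ℝ, exp (m * θ * I) = exp (j * θ * I)) : m = j := by
  have h1 : HasDerivAt (fun θ : ℝ => exp (m * θ * I)) (m * I) 0 := by
    have := ((((hasDerivAt_id (0:ℝ)).ofReal_comp.const_mul (m:ℂ)).mul_const I).cexp)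
    simpa using this
  have h2 : HasDerivAt (fun θ : ℝ => exp (j * θ * I)) (j * I) 0 := by
    have := ((((hasDerivAt_id (0:ℝ)).ofReal_comp.const_mul (j:ℂ)).mul_const I).cexp)
    simpa using this
  have h3 : (fun θ : ℝ => exp (m * θ * I)) = fun θ : ℝ => exp (j * θ * I) := funext h
  rw [h3] at h1
  have h4 := mul_right_cancel₀ Complex.I_ne_zero (h1.unique h2)
  exact_mod_cast h4

/-- The scalar by which `D_s` acts on `z^n`. -/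
noncomputable def sobc (k : ℕ) (s : ℝ) (n : ℕ) : ℝ := (1 + ((k:ℝ) + 2 * n) ^ 2) ^ (s / 2)

theorem sobc_pos (k : ℕ) (s : ℝ) (n : ℕ) : 0 < sobc k s n :=
  Real.rpow_pos_of_pos (by positivity) _

/-- The Sobolev operator on `ℕ →₀ L`. -/
noncomputable def Dsob (k : ℕ) (L : Type) [AddCommGroup L] [Module ℂ L] (s : ℝ) :
    (ℕ →₀ L) →ₗ[ℂ] (ℕ →₀ L) :=
  Finsupp.lsum ℂ fun n : ℕ => ((sobc k s n : ℝ) : ℂ) • (Finsupp.lsingle n : L →ₗ[ℂ] (ℕ →₀ L))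

theorem Dsob_single (k : ℕ) (s : ℝ) (n : ℕ) (x : L) :
    Dsob k L s (Finsupp.single n x) = ((sobc k s n : ℝ) : ℂ) • Finsupp.single n x := by
  simp [Dsob, Finsupp.sum_single_index]

theorem Dsob_apply (k : ℕ) (s : ℝ) (v : ℕ →₀ L) (n : ℕ) :
    (Dsob k L s v) n = ((sobc k s n : ℝ) : ℂ) • v n := by
  induction v using Finsupp.induction_linear with
  | zero => simp
  | add v w hv hw => rw [map_add, Finsupp.add_apply, hv, hw, Finsupp.add_apply, smul_add]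
  | single m x =>
    rw [Dsob_single, Finsupp.smul_apply, Finsupp.single_apply]
    split_ifs with h
    · rw [h]
    · simp

theorem wt_single (k : ℕ) (N : L →ₗ[ℂ] L) (n : ℕ) (x : L) (θ : ℝ) :
    (modL k N).κ (rot θ) (Finsupp.single n x) =
      exp ((-((k + 2 * n : ℕ) : ℤ) : ℤ) * θ * I) • Finsupp.single n x := by
  show kapL k L (rot θ) (Finsupp.single n x) = _
  rw [kapL_single]
  have h6 : (rot θ).1.1.1 1 1 = exp (-(θ * I)) := rfl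
  rw [h6, ← Complex.exp_nat_mul]
  congr 2
  push_cast
  ring

theorem Dsob_isSobolev (k : ℕ) (N : L →ₗ[ℂ] L) (s : ℝ) :
    IsSobolev (modL k N) s (Dsob k L s) := by
  intro m v hv
  ext n
  rw [Dsob_apply, Finsupp.smul_apply]
  by_cases hn : v n = 0
  · rw [hn, smul_zero, smul_zero]
  · have h1 : ((-((k + 2 * n : ℕ) : ℤ) : ℤ)) = m := by
      apply int_eq_of_exp
      intro θ
      have h2 := hv θ
      have h3 : ((modL k N).κ (rot θ) v) n = (exp (-(θ * I)) ^ (k + 2 * n)) • v n :=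
        kapL_apply k (rot θ) v n
      rw [h2, Finsupp.smul_apply] at h3
      have h4 := smul_left_injective ℂ hn h3
      rw [h4, ← Complex.exp_nat_mul]
      congr 1
      push_cast
      ring
    congr 2
    unfold sobc
    rw [← h1]
    congr 2
    push_cast
    ring

theorem isSobolev_single {k : ℕ} {N : L →ₗ[ℂ] L} {s : ℝ} {D : (ℕ →₀ L) →ₗ[ℂ] (ℕ →₀ L)}
    (hD : IsSobolev (modL k N) s D) (n : ℕ) (x : L) :
    D (Finsupp.single n x) = ((sobc k s n : ℝ) : ℂ) • Finsupp.single n x := by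
  rw [hD _ _ (wt_single k N n x)]
  congr 2
  unfold sobc
  congr 2
  push_cast
  ring

theorem sobc_lower (k r n : ℕ) (hk : 2 ≤ k) : ((n:ℝ) + 2) ^ r ≤ sobc k r n := by
  unfold sobc
  have h1 : ((n:ℝ) + 2) ^ 2 ≤ 1 + ((k:ℝ) + 2 * n) ^ 2 := by
    have hk' : (2:ℝ) ≤ k := by exact_mod_cast hk
    have hn : (0:ℝ) ≤ n := Nat.cast_nonneg n
    nlinarith [mul_nonneg hn hn, mul_nonneg hn (sub_nonneg.mpr hk'),
      mul_nonneg (sub_nonneg.mpr hk') (sub_nonneg.mpr hk')]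
  calc ((n:ℝ) + 2) ^ r = (((n:ℝ) + 2) ^ 2) ^ ((r:ℝ) / 2) := by
        rw [← Real.rpow_natCast, ← Real.rpow_natCast, ← Real.rpow_mul (by positivity)]
        congr 1
        push_cast
        ring
    _ ≤ _ := Real.rpow_le_rpow (by positivity) h1 (by positivity)

/-- From an `InNorm` we get a globalization. -/
theorem exists_glob {k : ℕ} {N : L →ₗ[ℂ] L} {w : G → ℝ} {p : (ℕ →₀ L) → ℝ}
    (h : InNorm (modL k N) w p) :
    ∃ (E : Type) (_ : NormedAddCommGroup E) (_ : NormedSpace ℂ E) (_ : CompleteSpace E)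
      (π : G →* (E →L[ℂ] E)) (ι : (ℕ →₀ L) →ₗ[ℂ] E) (C : ℝ), Glob k N w π ι C ∧
      ∀ v, p v = ‖ι v‖ := by
  obtain ⟨E, i1, i2, i3, π, ι, h1, h2, h3, h4, h5, h6, h7, C, h8⟩ := h
  exact ⟨E, i1, i2, i3, π, ι, C, ⟨h1, h2, h4, h6, h7, h8⟩, h3⟩

end

section

variable {L : Type} [AddCommGroup L] [Module ℂ L]
variable {E : Type} [NormedAddCommGroup E] [NormedSpace ℂ E]
variable {E' : Type} [NormedAddCommGroup E'] [NormedSpace ℂ E']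
variable {d : ℕ} {N : L →ₗ[ℂ] L} {π : G →* (E →L[ℂ] E)} {π' : G →* (E' →L[ℂ] E')}
  {ι : (ℕ →₀ L) →ₗ[ℂ] E} {ι' : (ℕ →₀ L) →ₗ[ℂ] E'} {C : ℝ}

theorem summable_sq : Summable fun n : ℕ => 1 / ((n:ℝ) + 2) ^ 2 := by
  have h1 : Summable fun n : ℕ => 1 / ((n:ℝ)) ^ 2 := Real.summable_one_div_nat_pow.mpr (by norm_num)
  have h2 := (summable_nat_add_iff 2).mpr h1
  refine h2.congr (fun n => ?_)
  push_cast
  rfl

theorem gap_upper [CompleteSpace E'] (hE' : Glob (2 * d) N (wgt d) π' ι' C)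
    (hd : 0 < d) (r : ℕ) (A : ℝ) (hA0 : 0 ≤ A)
    (hA : ∀ n u, ‖ι (Finsupp.single n u)‖ ≤ A * ((n:ℝ) + 2) ^ r * ‖ι' (Finsupp.single n u)‖) :
    SobLe (modL (2 * d) N) ((r + 2 : ℕ) : ℝ) (fun v => ‖ι v‖) (fun v => ‖ι' v‖) := by
  refine ⟨Dsob (2 * d) L ((r + 2 : ℕ) : ℝ), Dsob_isSobolev _ _ _,
    A * C * ∑' n : ℕ, 1 / ((n:ℝ) + 2) ^ 2, fun v => ?_⟩
  have hC := hE'.C_nonneg (wgt_pos d)
  have hc := hE'.circ (wgt_rot d) (wgt_pos d)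
  set Q : ℝ := ‖ι' (Dsob (2 * d) L ((r + 2 : ℕ) : ℝ) v)‖ with hQ
  have h1 : ∀ n, ‖ι (Finsupp.single n (v n))‖ ≤ A * C * Q * (1 / ((n:ℝ) + 2) ^ 2) := by
    intro n
    have h2 : ‖proj (fun φ => π' (rot φ)) ((2 * d + 2 * n : ℕ) : ℤ)
        (ι' (Dsob (2 * d) L ((r + 2 : ℕ) : ℝ) v))‖ ≤ C * Q := norm_proj_le hc _ _
    rw [proj_iota_eq hc hE'.wt, Dsob_apply, ← Finsupp.smul_single, map_smul, norm_smul,
      Complex.norm_real, Real.norm_of_nonneg (sobc_pos _ _ _).le] at h2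
    have h3 := sobc_lower (2 * d) (r + 2) n (by omega)
    have h4 : ((n:ℝ) + 2) ^ (r + 2) * ‖ι' (Finsupp.single n (v n))‖ ≤ C * Q :=
      le_trans (by gcongr) h2
    have h5 : 0 < ((n:ℝ) + 2) ^ 2 := by positivity
    calc ‖ι (Finsupp.single n (v n))‖ ≤ A * ((n:ℝ) + 2) ^ r * ‖ι' (Finsupp.single n (v n))‖ :=
          hA n _
      _ = A * (((n:ℝ) + 2) ^ (r + 2) * ‖ι' (Finsupp.single n (v n))‖) *
          (1 / ((n:ℝ) + 2) ^ 2) := by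
          rw [pow_add]; field_simp
      _ ≤ A * (C * Q) * (1 / ((n:ℝ) + 2) ^ 2) := by gcongr
      _ = _ := by ring
  have h2 : ‖ι v‖ ≤ ∑ n ∈ v.support, ‖ι (Finsupp.single n (v n))‖ := by
    conv_lhs => rw [← v.sum_single]
    rw [Finsupp.sum, map_sum]
    exact norm_sum_le _ _
  calc ‖ι v‖ ≤ ∑ n ∈ v.support, ‖ι (Finsupp.single n (v n))‖ := h2
    _ ≤ ∑ n ∈ v.support, A * C * Q * (1 / ((n:ℝ) + 2) ^ 2) := Finset.sum_le_sum fun n _ => h1 n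
    _ = A * C * Q * ∑ n ∈ v.support, (1 / ((n:ℝ) + 2) ^ 2) := by rw [Finset.mul_sum]
    _ ≤ A * C * Q * ∑' n : ℕ, 1 / ((n:ℝ) + 2) ^ 2 := by
        gcongr
        exact summable_sq.sum_le_tsum _ (fun n _ => by positivity)
    _ = _ := by ring

end

section Two

variable {E : Type} [NormedAddCommGroup E] [NormedSpace ℂ E]
variable {E' : Type} [NormedAddCommGroup E'] [NormedSpace ℂ E']
variable {d : ℕ}

/-- The nilpotent map on `ℂ²`. -/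
noncomputable def nil2 : (ℂ × ℂ) →ₗ[ℂ] (ℂ × ℂ) :=
  LinearMap.inl ℂ ℂ ℂ ∘ₗ LinearMap.snd ℂ ℂ ℂ

@[simp] theorem nil2_apply (a b : ℂ) : nil2 (a, b) = (b, 0) := rfl

theorem nil2_sq (x : ℂ × ℂ) : nil2 (nil2 x) = 0 := by
  obtain ⟨a, b⟩ := x
  simp

/-- Comparison of two globalizations of `U`. -/
theorem compare_two {π : G →* (E →L[ℂ] E)} {π' : G →* (E' →L[ℂ] E')}
    {ι : (ℕ →₀ (ℂ × ℂ)) →ₗ[ℂ] E} {ι' : (ℕ →₀ (ℂ × ℂ)) →ₗ[ℂ] E'} {C C' : ℝ}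
    [CompleteSpace E] [CompleteSpace E'] (hE : Glob (2 * d) nil2 (wgt d) π ι C)
    (hE' : Glob (2 * d) nil2 (wgt d) π' ι' C') (hd : 0 < d) :
    ∃ A, 0 ≤ A ∧ ∀ n u, ‖ι (Finsupp.single n u)‖ ≤
      A * ((n:ℝ) + 2) ^ (d + 1) * ‖ι' (Finsupp.single n u)‖ := by
  have hC := hE.C_nonneg (wgt_pos d)
  have hC' := hE'.C_nonneg (wgt_pos d)
  set K1 : ℝ := (2 * 4 ^ d * C ^ 2 * (2 ^ (2 * d - 1) * (2 * d - 1).factorial : ℕ)) *
    ‖ι (Finsupp.single 0 ((0, 1) : ℂ × ℂ))‖ with hK1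
  have hK10 : 0 ≤ K1 := by positivity
  have hup : ∀ (n : ℕ) (s : ℝ), |s| ≤ ((n:ℝ) + 2) ^ d →
      ‖ι (Finsupp.single n (((s:ℂ), (1:ℂ)) : ℂ × ℂ))‖ ≤ K1 * ((n:ℝ) + 2) := by
    intro n s hs
    have h1 := hE.upper hd nil2_sq n (0, 1) s hs
    have h2 : (((0:ℂ), (1:ℂ)) : ℂ × ℂ) + (s:ℂ) • nil2 (0, 1) = ((s:ℂ), (1:ℂ)) := by
      simp [nil2_apply]
    rw [h2] at h1
    refine h1.trans (le_of_eq ?_)
    rw [hK1]; ring
  have hup1 : ∀ n : ℕ, ‖ι (Finsupp.single n (((1:ℂ), (0:ℂ)) : ℂ × ℂ))‖ * ((n:ℝ) + 2) ^ d ≤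
      K1 * ((n:ℝ) + 2) := by
    intro n
    have hpos : (0:ℝ) < ((n:ℝ) + 2) ^ d := by positivity
    have h1 := hup n (((n:ℝ) + 2) ^ d) (by rw [abs_of_pos hpos])
    have h2 := hup n (-(((n:ℝ) + 2) ^ d)) (by rw [abs_neg, abs_of_pos hpos])
    have h3 : (2 * ((((n:ℝ) + 2) ^ d : ℝ) : ℂ)) • ι (Finsupp.single n (((1:ℂ), (0:ℂ)) : ℂ × ℂ)) =
        ι (Finsupp.single n ((((((n:ℝ) + 2) ^ d : ℝ) : ℂ), (1:ℂ)) : ℂ × ℂ)) -
        ι (Finsupp.single n ((((-(((n:ℝ) + 2) ^ d) : ℝ) : ℂ), (1:ℂ)) : ℂ × ℂ)) := by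
      rw [← map_smul, ← map_sub, Finsupp.smul_single, ← Finsupp.single_sub]
      congr 2
      simp
      ring
    have h4 := congrArg norm h3
    rw [norm_smul, norm_mul, Complex.norm_real, Real.norm_of_nonneg hpos.le] at h4
    have h5 : ‖(2:ℂ)‖ = 2 := by simp
    rw [h5] at h4
    have h6 := norm_sub_le (ι (Finsupp.single n ((((((n:ℝ) + 2) ^ d : ℝ) : ℂ), (1:ℂ)) : ℂ × ℂ)))
      (ι (Finsupp.single n ((((-(((n:ℝ) + 2) ^ d) : ℝ) : ℂ), (1:ℂ)) : ℂ × ℂ)))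
    rw [← h4] at h6
    nlinarith
  have hup2 : ∀ n : ℕ, ‖ι (Finsupp.single n (((0:ℂ), (1:ℂ)) : ℂ × ℂ))‖ ≤ K1 * ((n:ℝ) + 2) := by
    intro n
    have h1 := hup n 0 (by rw [abs_zero]; positivity)
    simpa using h1
  -- lower bounds
  set K2 : ℝ := 2 * 4 ^ d * C' ^ 2 with hK2
  have hK20 : 0 ≤ K2 := by positivity
  set c1 : ℝ := ‖ι' (Finsupp.single 0 (((1:ℂ), (0:ℂ)) : ℂ × ℂ))‖ with hc1
  set c2 : ℝ := ‖ι' (Finsupp.single 0 (((0:ℂ), (1:ℂ)) : ℂ × ℂ))‖ with hc2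
  have hc10 : 0 < c1 := by
    rw [hc1, norm_pos_iff]
    intro h0
    have h1 : ι' (Finsupp.single 0 (((1:ℂ), (0:ℂ)) : ℂ × ℂ)) = ι' 0 := by rw [h0, map_zero]
    have h2 := hE'.inj h1
    rw [Finsupp.single_eq_zero] at h2
    simp at h2
  have hlow : ∀ (n : ℕ) (a b : ℂ) (s : ℝ), |s| ≤ ((n:ℝ) + 2) ^ d →
      ‖ι' (Finsupp.single 0 ((a + s * b, b) : ℂ × ℂ))‖ ≤
        K2 * ((n:ℝ) + 2) ^ (2 * d) * ‖ι' (Finsupp.single n ((a, b) : ℂ × ℂ))‖ := by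
    intro n a b s hs
    have h1 := hE'.lower hd nil2_sq n (a, b) s hs
    have h2 : ((a, b) : ℂ × ℂ) + (s:ℂ) • nil2 (a, b) = (a + s * b, b) := by
      simp [nil2_apply]
    rwa [h2] at h1
  have hlowb : ∀ (n : ℕ) (a b : ℂ), ‖b‖ * c1 ≤
      K2 * ((n:ℝ) + 2) ^ d * ‖ι' (Finsupp.single n ((a, b) : ℂ × ℂ))‖ := by
    intro n a b
    have hpos : (0:ℝ) < ((n:ℝ) + 2) ^ d := by positivity
    have h1 := hlow n a b (((n:ℝ) + 2) ^ d) (by rw [abs_of_pos hpos])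
    have h2 := hlow n a b (-(((n:ℝ) + 2) ^ d)) (by rw [abs_neg, abs_of_pos hpos])
    have h3 : (2 * ((((n:ℝ) + 2) ^ d : ℝ) : ℂ) * b) •
        ι' (Finsupp.single 0 (((1:ℂ), (0:ℂ)) : ℂ × ℂ)) =
        ι' (Finsupp.single 0 ((a + ((((n:ℝ) + 2) ^ d : ℝ) : ℂ) * b, b) : ℂ × ℂ)) -
        ι' (Finsupp.single 0 ((a + ((-(((n:ℝ) + 2) ^ d) : ℝ) : ℂ) * b, b) : ℂ × ℂ)) := by
      rw [← map_smul, ← map_sub, Finsupp.smul_single, ← Finsupp.single_sub]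
      congr 2
      simp
      ring
    have h4 := congrArg norm h3
    rw [norm_smul, norm_mul, norm_mul, Complex.norm_real, Real.norm_of_nonneg hpos.le] at h4
    have h5 : ‖(2:ℂ)‖ = 2 := by simp
    rw [h5] at h4
    have h6 := norm_sub_le
      (ι' (Finsupp.single 0 ((a + ((((n:ℝ) + 2) ^ d : ℝ) : ℂ) * b, b) : ℂ × ℂ)))
      (ι' (Finsupp.single 0 ((a + ((-(((n:ℝ) + 2) ^ d) : ℝ) : ℂ) * b, b) : ℂ × ℂ)))
    rw [← h4] at h6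
    have h7 : ((n:ℝ) + 2) ^ (2 * d) = ((n:ℝ) + 2) ^ d * ((n:ℝ) + 2) ^ d := by
      rw [← pow_add]; congr 1; omega
    rw [h7] at h1 h2
    set Q := ‖ι' (Finsupp.single n ((a, b) : ℂ × ℂ))‖
    set X := ((n:ℝ) + 2) ^ d
    have h8 : X * (‖b‖ * c1) ≤ X * (K2 * X * Q) := by nlinarith
    exact le_of_mul_le_mul_left h8 hpos
  have hlowa : ∀ (n : ℕ) (a b : ℂ), ‖a‖ * c1 ≤
      (K2 + K2 * c2 / c1) * ((n:ℝ) + 2) ^ (2 * d) * ‖ι' (Finsupp.single n ((a, b) : ℂ × ℂ))‖ := by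
    intro n a b
    have h1 := hlow n a b 0 (by rw [abs_zero]; positivity)
    simp only [Complex.ofReal_zero, zero_mul, add_zero] at h1
    have h2 := hlowb n a b
    have h3 : a • ι' (Finsupp.single 0 (((1:ℂ), (0:ℂ)) : ℂ × ℂ)) =
        ι' (Finsupp.single 0 ((a, b) : ℂ × ℂ)) -
        b • ι' (Finsupp.single 0 (((0:ℂ), (1:ℂ)) : ℂ × ℂ)) := by
      rw [← map_smul, ← map_smul, ← map_sub, Finsupp.smul_single, Finsupp.smul_single,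
        ← Finsupp.single_sub]
      congr 2
      simp
    have h4 := congrArg norm h3
    rw [norm_smul] at h4
    have h6 := norm_sub_le (ι' (Finsupp.single 0 ((a, b) : ℂ × ℂ)))
      (b • ι' (Finsupp.single 0 (((0:ℂ), (1:ℂ)) : ℂ × ℂ)))
    rw [← h4, norm_smul] at h6
    set Q := ‖ι' (Finsupp.single n ((a, b) : ℂ × ℂ))‖
    have hQ0 : 0 ≤ Q := norm_nonneg _
    have hX : ((n:ℝ) + 2) ^ d ≤ ((n:ℝ) + 2) ^ (2 * d) :=
      pow_le_pow_right₀ (by linarith [Nat.cast_nonneg (α := ℝ) n]) (by omega)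
    have hc20 : 0 ≤ c2 := norm_nonneg _
    have h7 : ‖b‖ * c2 ≤ (K2 * c2 / c1) * ((n:ℝ) + 2) ^ (2 * d) * Q := by
      calc ‖b‖ * c2 = (‖b‖ * c1) * (c2 / c1) := by field_simp
        _ ≤ (K2 * ((n:ℝ) + 2) ^ d * Q) * (c2 / c1) := by gcongr
        _ ≤ (K2 * ((n:ℝ) + 2) ^ (2 * d) * Q) * (c2 / c1) := by gcongr
        _ = _ := by ring
    calc ‖a‖ * c1 ≤ _ := h6
      _ ≤ K2 * ((n:ℝ) + 2) ^ (2 * d) * Q + (K2 * c2 / c1) * ((n:ℝ) + 2) ^ (2 * d) * Q :=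
          add_le_add h1 h7
      _ = _ := by ring
  refine ⟨((K2 + K2 * c2 / c1) * K1 + K2 * K1) / c1, by positivity, ?_⟩
  rintro n ⟨a, b⟩
  have hpos : (0:ℝ) < ((n:ℝ) + 2) ^ d := by positivity
  have h1 : ι (Finsupp.single n ((a, b) : ℂ × ℂ)) =
      a • ι (Finsupp.single n (((1:ℂ), (0:ℂ)) : ℂ × ℂ)) +
      b • ι (Finsupp.single n (((0:ℂ), (1:ℂ)) : ℂ × ℂ)) := by
    rw [← map_smul, ← map_smul, ← map_add, Finsupp.smul_single, Finsupp.smul_single,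
      ← Finsupp.single_add]
    congr 2
    simp
  have h2 : ‖ι (Finsupp.single n ((a, b) : ℂ × ℂ))‖ ≤
      ‖a‖ * ‖ι (Finsupp.single n (((1:ℂ), (0:ℂ)) : ℂ × ℂ))‖ +
      ‖b‖ * ‖ι (Finsupp.single n (((0:ℂ), (1:ℂ)) : ℂ × ℂ))‖ := by
    rw [h1]
    refine (norm_add_le _ _).trans (le_of_eq ?_)
    rw [norm_smul, norm_smul]
  set Q := ‖ι' (Finsupp.single n ((a, b) : ℂ × ℂ))‖ with hQ
  have hQ0 : 0 ≤ Q := norm_nonneg _
  set K3 := K2 + K2 * c2 / c1 with hK3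
  have hK30 : 0 ≤ K3 := by positivity
  have ha : ‖a‖ ≤ K3 / c1 * ((n:ℝ) + 2) ^ (2 * d) * Q := by
    have := hlowa n a b
    rw [← le_div_iff₀ hc10] at this
    refine this.trans (le_of_eq ?_)
    ring
  have hb : ‖b‖ ≤ K2 / c1 * ((n:ℝ) + 2) ^ d * Q := by
    have := hlowb n a b
    rw [← le_div_iff₀ hc10] at this
    refine this.trans (le_of_eq ?_)
    ring
  have hu1 : ‖ι (Finsupp.single n (((1:ℂ), (0:ℂ)) : ℂ × ℂ))‖ ≤
      K1 * ((n:ℝ) + 2) / ((n:ℝ) + 2) ^ d := by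
    rw [le_div_iff₀ hpos]
    exact hup1 n
  have hu2 := hup2 n
  calc ‖ι (Finsupp.single n ((a, b) : ℂ × ℂ))‖ ≤ _ := h2
    _ ≤ (K3 / c1 * ((n:ℝ) + 2) ^ (2 * d) * Q) * (K1 * ((n:ℝ) + 2) / ((n:ℝ) + 2) ^ d) +
        (K2 / c1 * ((n:ℝ) + 2) ^ d * Q) * (K1 * ((n:ℝ) + 2)) := by gcongr
    _ = _ := by
      have h7 : ((n:ℝ) + 2) ^ (2 * d) = ((n:ℝ) + 2) ^ d * ((n:ℝ) + 2) ^ d := by
        rw [← pow_add]; congr 1; omega
      rw [h7, pow_succ]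
      field_simp

/-- Comparison of two globalizations of `V`. -/
theorem compare_one {π : G →* (E →L[ℂ] E)} {π' : G →* (E' →L[ℂ] E')}
    {ι : (ℕ →₀ ℂ) →ₗ[ℂ] E} {ι' : (ℕ →₀ ℂ) →ₗ[ℂ] E'} {C C' : ℝ}
    [CompleteSpace E] [CompleteSpace E'] (hE : Glob (2 * d) (0 : ℂ →ₗ[ℂ] ℂ) (wgt d) π ι C)
    (hE' : Glob (2 * d) (0 : ℂ →ₗ[ℂ] ℂ) (wgt d) π' ι' C') (hd : 0 < d) :
    ∃ A, 0 ≤ A ∧ ∀ n u, ‖ι (Finsupp.single n u)‖ ≤
      A * ((n:ℝ) + 2) ^ (2 * d + 1) * ‖ι' (Finsupp.single n u)‖ := by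
  have hC := hE.C_nonneg (wgt_pos d)
  have hC' := hE'.C_nonneg (wgt_pos d)
  set K1 : ℝ := (2 * 4 ^ d * C ^ 2 * (2 ^ (2 * d - 1) * (2 * d - 1).factorial : ℕ)) with hK1
  set K2 : ℝ := 2 * 4 ^ d * C' ^ 2 with hK2
  set c0 : ℝ := ‖ι (Finsupp.single 0 (1:ℂ))‖ with hc0
  set c1 : ℝ := ‖ι' (Finsupp.single 0 (1:ℂ))‖ with hc1
  have hc10 : 0 < c1 := by
    rw [hc1, norm_pos_iff]
    intro h0
    have h1 : ι' (Finsupp.single 0 (1:ℂ)) = ι' 0 := by rw [h0, map_zero]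
    have h2 := hE'.inj h1
    rw [Finsupp.single_eq_zero] at h2
    simp at h2
  refine ⟨K1 * c0 * K2 / c1, by positivity, fun n u => ?_⟩
  have h1 := hE.upper hd (by simp) n u 0 (by rw [abs_zero]; positivity)
  have h2 := hE'.lower hd (by simp) n u 0 (by rw [abs_zero]; positivity)
  simp only [Complex.ofReal_zero, LinearMap.zero_apply, smul_zero, add_zero] at h1 h2
  have h3 : ‖ι (Finsupp.single 0 u)‖ = ‖u‖ * c0 := by
    rw [hc0, ← norm_smul, ← map_smul, Finsupp.smul_single, smul_eq_mul, mul_one]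
  have h4 : ‖ι' (Finsupp.single 0 u)‖ = ‖u‖ * c1 := by
    rw [hc1, ← norm_smul, ← map_smul, Finsupp.smul_single, smul_eq_mul, mul_one]
  rw [h3] at h1
  rw [h4, ← le_div_iff₀ hc10] at h2
  calc ‖ι (Finsupp.single n u)‖ ≤ K1 * ((n:ℝ) + 2) * (‖u‖ * c0) := h1
    _ ≤ K1 * ((n:ℝ) + 2) * ((K2 * ((n:ℝ) + 2) ^ (2 * d) * ‖ι' (Finsupp.single n u)‖ / c1) * c0) := by
        gcongr
    _ = _ := by
      rw [pow_succ]
      ring

/-- `d + 3` belongs to the set defining the gap of `U`. -/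
theorem gapSet_U (hd : 0 < d) : ((d + 3 : ℕ) : ℝ) ∈ gapSet (modL (2 * d) nil2) (wgt d) := by
  refine ⟨by positivity, fun p q hp hq => ?_⟩
  obtain ⟨E, i1, i2, i3, π, ι, C, h1, h2⟩ := exists_glob hp
  obtain ⟨E', i1', i2', i3', π', ι', C', h1', h2'⟩ := exists_glob hq
  obtain ⟨A, hA0, hA⟩ := compare_two h1 h1' hd
  obtain ⟨D, hD, c, hc⟩ := gap_upper (ι := ι) h1' hd (d + 1) A hA0 hA
  refine ⟨D, hD, c, fun v => ?_⟩
  rw [h2, h2']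
  exact hc v

/-- `2 d + 3` belongs to the set defining the gap of `V`. -/
theorem gapSet_V (hd : 0 < d) :
    ((2 * d + 3 : ℕ) : ℝ) ∈ gapSet (modL (2 * d) (0 : ℂ →ₗ[ℂ] ℂ)) (wgt d) := by
  refine ⟨by positivity, fun p q hp hq => ?_⟩
  obtain ⟨E, i1, i2, i3, π, ι, C, h1, h2⟩ := exists_glob hp
  obtain ⟨E', i1', i2', i3', π', ι', C', h1', h2'⟩ := exists_glob hq
  obtain ⟨A, hA0, hA⟩ := compare_one h1 h1' hd
  obtain ⟨D, hD, c, hc⟩ := gap_upper (ι := ι) h1' hd (2 * d + 1) A hA0 hA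
  refine ⟨D, hD, c, fun v => ?_⟩
  rw [h2, h2']
  exact hc v

end Two

end Pool.Agent.H60.Sob
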