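import Pool.Agent.H60.Sob.Ode

/-!
# Bounds valid for every globalization of `modL k N`
-/

namespace Pool.Agent.H60.Sob

open Complex Topology Filter

variable {L : Type} [AddCommGroup L] [Module ℂ L]
variable {E : Type} [NormedAddCommGroup E] [NormedSpace ℂ E]

/-- A Banach globalization of `modL k N`, of growth at most `C w`. -/
structure Glob (k : ℕ) (N : L →ₗ[ℂ] L) (w : G → ℝ) (π : G →* (E →L[ℂ] E))
    (ι : (ℕ →₀ L) →ₗ[ℂ] E) (C : ℝ) : Prop where
  inj : Function.Injective ι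
  dense : DenseRange ι
  cont : Continuous (fun x : G × E => π x.1 x.2)
  hK : ∀ (g : K) v, π g (ι v) = ι (kapL k L g v)
  deriv : ∀ (X : gLie) (γ : ℝ → G), IsExp X γ → ∀ v,
      HasDerivAt (fun t => π (γ t) (ι v)) (ι (rhoL k N X v)) 0
  bd : ∀ g, ‖π g‖ ≤ C * w g

variable {k : ℕ} {N : L →ₗ[ℂ] L} {w : G → ℝ} {π : G →* (E →L[ℂ] E)}
  {ι : (ℕ →₀ L) →ₗ[ℂ] E} {C : ℝ}

theorem cont_rot : Continuous fun φ : ℝ => (rot φ : G) := by
  refine Continuous.prodMk ?_ continuous_const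
  refine Continuous.subtype_mk ?_ _
  refine Continuous.subtype_mk ?_ _
  refine continuous_matrix ?_
  intro i j
  fin_cases i <;> fin_cases j
  · show Continuous fun φ : ℝ => exp (φ * I)
    fun_prop
  · show Continuous fun φ : ℝ => (0:ℂ)
    exact continuous_const
  · show Continuous fun φ : ℝ => (0:ℂ)
    exact continuous_const
  · show Continuous fun φ : ℝ => exp (-(φ * I))
    fun_prop

theorem circAct_of (π : G →* (E →L[ℂ] E)) (hcont : Continuous (fun x : G × E => π x.1 x.2))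
    (hbd : ∀ φ, ‖π (rot φ)‖ ≤ C) : CircAct (fun φ => π (rot φ)) C where
  cont e := hcont.comp (cont_rot.prodMk continuous_const)
  add s t e := by
    have : (rot (s + t) : G) = rot s * rot t := by rw [rot_add]; rfl
    rw [this, map_mul]; rfl
  zero e := by rw [rot_zero]; simp
  per s e := by rw [rot_two_pi]
  bd φ e := ((π (rot φ)).le_opNorm e).trans (by gcongr; exact hbd φ)

theorem wtMap_of (π : G →* (E →L[ℂ] E)) (ι : (ℕ →₀ L) →ₗ[ℂ] E)
    (hK : ∀ (g : K) v, π g (ι v) = ι (kapL k L g v)) : WtMap (fun φ => π (rot φ)) k ι where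
  eig φ n x := by
    rw [hK, kapL_single, map_smul]
    congr 1
    have h6 : (rot φ).1.1.1 1 1 = exp (-(φ * I)) := rfl
    rw [h6, ← Complex.exp_nat_mul]
    congr 1
    push_cast
    ring

theorem Glob.C_nonneg (h : Glob k N w π ι C)
    (hw0 : ∀ g, 0 < w g) : 0 ≤ C := by
  have h1 := h.bd 1
  have h2 : 0 ≤ C * w 1 := (norm_nonneg _).trans h1
  exact nonneg_of_mul_nonneg_left h2 (hw0 1)

theorem Glob.circ (h : Glob k N w π ι C) (hw : ∀ φ, w (rot φ) ≤ 1)
    (hw0 : ∀ g, 0 < w g) : CircAct (fun φ => π (rot φ)) C :=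
  circAct_of π h.cont (fun φ => (h.bd _).trans (by
    have := h.C_nonneg hw0
    calc C * w (rot φ) ≤ C * 1 := by gcongr; exact hw φ
      _ = C := mul_one C))

theorem Glob.wt (h : Glob k N w π ι C) : WtMap (fun φ => π (rot φ)) k ι := wtMap_of π ι h.hK

/-- The derivative of `t ↦ π (γ t) ι v` at any time. -/
theorem Glob.deriv_at (h : Glob k N w π ι C) {X : gLie} {γ : ℝ → G} (hγ : IsExp X γ)
    (v : ℕ →₀ L) (t : ℝ) :
    HasDerivAt (fun s => π (γ s) (ι v)) (π (γ t) (ι (rhoL k N X v))) t := by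
  have h1 := h.deriv X γ hγ v
  have h2 : HasDerivAt (fun s => π (γ (s - t)) (ι v)) (ι (rhoL k N X v)) t := by
    have h3 : HasDerivAt (fun s => π (γ s) (ι v)) (ι (rhoL k N X v)) (t - t) := by
      rw [sub_self]; exact h1
    exact h3.comp_sub_const t t
  have h4 := (((π (γ t)).restrictScalars ℝ).hasFDerivAt.comp_hasDerivAt t h2)
  refine h4.congr_of_eventuallyEq (Filter.Eventually.of_forall fun s => ?_)
  show π (γ s) (ι v) = π (γ t) (π (γ (s - t)) (ι v))
  have h5 : γ s = γ t * γ (s - t) := by rw [← hγ.1, add_sub_cancel]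
  rw [h5, map_mul]
  rfl

section Bounds

variable [CompleteSpace E]

/-- The `n`-th component of `π (a_t) ι (z^m x)`. -/
noncomputable def FF (π : G →* (E →L[ℂ] E)) (ι : (ℕ →₀ L) →ₗ[ℂ] E) (k n : ℕ) (x : L) (m : ℕ)
    (t : ℝ) : E :=
  proj (fun φ => π (rot φ)) ((k + 2 * n : ℕ) : ℤ) (π (hyp t) (ι (Finsupp.single m x)))

theorem rhoL_hyp (m : ℕ) (x : L) : rhoL k N (elt 0 1 0) (Finsupp.single m x) =
    ((k:ℂ) + m) • Finsupp.single (m + 1) x - (m:ℂ) • Finsupp.single (m - 1) x := by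
  rw [rhoL_single]
  simp

theorem rhoL_conj (m : ℕ) (x : L) (a b : ℝ) :
    rhoL k N (elt a (b * I) 0) (Finsupp.single m x) =
    -(I * (a * (k + 2 * m))) • Finsupp.single m x -
    (I * (b * (k + m))) • Finsupp.single (m + 1) x
     - (I * (b * m)) • Finsupp.single (m - 1) x := by
  rw [rhoL_single]
  simp only [elt_00, elt_01, elt_2, map_mul, Complex.conj_ofReal, Complex.conj_I,
    Complex.ofReal_zero, zero_smul, add_zero]
  module

theorem FF_deriv (h : Glob k N w π ι C) (hw : ∀ φ, w (rot φ) ≤ 1) (hw0 : ∀ g, 0 < w g)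
    (n : ℕ) (x : L) (m : ℕ) (t : ℝ) :
    HasDerivAt (FF π ι k n x m)
      (((k:ℝ) + m) • FF π ι k n x (m + 1) t - (m:ℝ) • FF π ι k n x (m - 1) t) t := by
  have hc := h.circ hw hw0
  have h1 := h.deriv_at isExp_hyp (Finsupp.single m x) t
  have h2 := (((projL hc ((k + 2 * n : ℕ) : ℤ)).restrictScalars ℝ).hasFDerivAt.comp_hasDerivAt
    t h1)
  refine h2.congr_deriv ?_
  show projL hc ((k + 2 * n : ℕ) : ℤ) (π (hyp t) (ι (rhoL k N (elt 0 1 0)
    (Finsupp.single m x)))) = _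
  rw [rhoL_hyp]
  simp only [map_sub, map_smul, projL_apply]
  unfold FF
  rw [← Complex.coe_smul, ← Complex.coe_smul]
  push_cast
  rfl

theorem FF_alg (h : Glob k N w π ι C) (hw : ∀ φ, w (rot φ) ≤ 1) (hw0 : ∀ g, 0 < w g)
    (n : ℕ) (x : L) (m : ℕ) (t : ℝ) :
    ((k:ℂ) + 2 * n) • FF π ι k n x m t =
      ((k + 2 * m : ℂ) * Real.cosh (2 * t)) • FF π ι k n x m t +
      ((k + m : ℂ) * Real.sinh (2 * t)) • FF π ι k n x (m + 1) t +
      ((m : ℂ) * Real.sinh (2 * t)) • FF π ι k n x (m - 1) t := by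
  have hc := h.circ hw hw0
  set j : ℤ := ((k + 2 * n : ℕ) : ℤ) with hj
  -- the derivative at `0` of `φ ↦ Π_n π(k_φ) π(a_t) ι v`, in two ways
  have h1 : HasDerivAt (fun φ : ℝ => projL hc j (π (rot φ) (π (hyp t) (ι (Finsupp.single m x)))))
      (-(j * I) • FF π ι k n x m t) 0 := by
    have h2 : (fun φ : ℝ => projL hc j (π (rot φ) (π (hyp t) (ι (Finsupp.single m x))))) =
        fun φ : ℝ => exp (-(j * φ * I)) • FF π ι k n x m t := by
      funext φ
      rw [projL_apply]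
      exact proj_rot hc j φ _
    rw [h2]
    have h3 : HasDerivAt (fun φ : ℝ => exp (-(j * φ * I))) (-(j * I)) 0 := by
      have := ((((hasDerivAt_id (0:ℝ)).ofReal_comp.const_mul (j:ℂ)).mul_const I).neg.cexp)
      simpa using this
    exact h3.smul_const _
  have h2 : HasDerivAt (fun φ : ℝ => projL hc j (π (rot φ) (π (hyp t) (ι (Finsupp.single m x)))))
      (projL hc j (π (hyp t) (ι (rhoL k N (elt (Real.cosh (2 * t)) (Real.sinh (2 * t) * I) 0)
        (Finsupp.single m x))))) 0 := by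
    have h3 := h.deriv _ _ (isExp_conj t) (Finsupp.single m x)
    have h4 := (((projL hc j).comp (π (hyp t))).restrictScalars ℝ).hasFDerivAt.comp_hasDerivAt
      0 h3
    refine h4.congr_of_eventuallyEq (Filter.Eventually.of_forall fun φ => ?_)
    show projL hc j (π (rot φ) (π (hyp t) (ι (Finsupp.single m x)))) =
      projL hc j (π (hyp t) (π (hyp (-t) * (rot φ : G) * hyp t) (ι (Finsupp.single m x))))
    have h5 : (rot φ : G) * hyp t = hyp t * (hyp (-t) * (rot φ : G) * hyp t) := by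
      rw [← mul_assoc, ← mul_assoc, ← hyp_add, add_neg_cancel, hyp_zero, one_mul]
    congr 1
    have h6 : π (rot φ) (π (hyp t) (ι (Finsupp.single m x))) =
        π ((rot φ : G) * hyp t) (ι (Finsupp.single m x)) := by rw [map_mul]; rfl
    rw [h6, h5, map_mul]
    rfl
  have h3 := h1.unique h2
  rw [rhoL_conj] at h3
  simp only [map_sub, map_smul, projL_apply] at h3
  have h4 : ∀ m', proj (fun φ => π (rot φ)) j (π (hyp t) (ι (Finsupp.single m' x))) =
      FF π ι k n x m' t := fun m' => rfl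
  rw [h4, h4, h4] at h3
  have h5 : (j:ℂ) = (k:ℂ) + 2 * n := by rw [hj]; push_cast; ring
  rw [h5] at h3
  have h6 : I • (-(((k:ℂ) + 2 * n) * I) • FF π ι k n x m t) = ((k:ℂ) + 2 * n) • FF π ι k n x m t := by
    rw [smul_smul]
    congr 1
    linear_combination (-((k:ℂ) + 2 * n)) * Complex.I_mul_I
  rw [← h6, h3]
  simp only [smul_sub, smul_smul]
  have hI := Complex.I_mul_I
  have e1 : I * -(I * (((Real.cosh (2 * t) : ℝ) : ℂ) * (k + 2 * m))) =
      (k + 2 * m : ℂ) * Real.cosh (2 * t) := by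
    linear_combination (-(((Real.cosh (2 * t) : ℝ) : ℂ) * (k + 2 * m))) * hI
  have e2 : I * (I * (((Real.sinh (2 * t) : ℝ) : ℂ) * (k + m))) =
      -((k + m : ℂ) * Real.sinh (2 * t)) := by
    linear_combination ((((Real.sinh (2 * t) : ℝ) : ℂ) * (k + m))) * hI
  have e3 : I * (I * (((Real.sinh (2 * t) : ℝ) : ℂ) * m)) =
      -((m : ℂ) * Real.sinh (2 * t)) := by
    linear_combination ((((Real.sinh (2 * t) : ℝ) : ℂ) * m)) * hI
  rw [e1, e2, e3]
  simp only [neg_smul, sub_neg_eq_add]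

theorem FF_init (h : Glob k N w π ι C) (hw : ∀ φ, w (rot φ) ≤ 1) (hw0 : ∀ g, 0 < w g)
    (n : ℕ) (x : L) (m : ℕ) :
    FF π ι k n x m 0 = if m = n then ι (Finsupp.single n x) else 0 := by
  have hc := h.circ hw hw0
  unfold FF
  rw [hyp_zero, map_one, one_apply_eq_self, proj_iota_single hc h.wt]
  split_ifs with hm
  · rw [hm]
  · rfl

theorem FF_zero_eq (h : Glob k N w π ι C) (hw : ∀ φ, w (rot φ) ≤ 1) (hw0 : ∀ g, 0 < w g)
    (n : ℕ) (x : L) (t : ℝ) (ht : 0 < t) :
    FF π ι k n x 0 t =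
      (((k + n - 1).choose n : ℝ) * (Real.sinh t ^ n / Real.cosh t ^ (n + k))) •
        ι (Finsupp.single n x) := by
  rw [← cf_top]
  refine ode_solve k n (FF π ι k n x) _ (FF_deriv h hw hw0 n x) ?_ (FF_init h hw hw0 n x) t ht
  intro t
  have h1 := FF_alg h hw hw0 n x 0 t
  simp only [Nat.cast_zero, mul_zero, add_zero, zero_mul, zero_smul, Nat.zero_add] at h1
  rw [← Complex.coe_smul, ← Complex.coe_smul (k * Real.cosh (2 * t)),
    ← Complex.coe_smul (k * Real.sinh (2 * t))]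
  push_cast
  push_cast at h1
  exact h1

theorem FF_zero_eq' (h : Glob k N w π ι C) (hw : ∀ φ, w (rot φ) ≤ 1) (hw0 : ∀ g, 0 < w g)
    (hk : 0 < k) (x : L) (m : ℕ) (t : ℝ) (ht : 0 < t) :
    FF π ι k 0 x m t =
      ((-(Real.sinh t / Real.cosh t)) ^ m / Real.cosh t ^ k) • ι (Finsupp.single 0 x) := by
  refine ode_zero k hk (FF π ι k 0 x) _ (FF_deriv h hw hw0 0 x) ?_ (FF_init h hw hw0 0 x) m t ht
  intro t
  have h1 := FF_alg h hw hw0 0 x 0 t
  simp only [Nat.cast_zero, mul_zero, add_zero, zero_mul, zero_smul, Nat.zero_add] at h1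
  rw [← Complex.coe_smul, ← Complex.coe_smul (k * Real.cosh (2 * t)),
    ← Complex.coe_smul (k * Real.sinh (2 * t))]
  push_cast
  push_cast at h1
  simp only [mul_zero, add_zero]
  exact h1

end Bounds

end Pool.Agent.H60.Sob
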