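import Pool.Agent.H60.Sob.Mod

/-!
# One-parameter subgroups of `G`, and `modL` is a Harish-Chandra module
-/

namespace Pool.Agent.H60.Sob

open Complex Topology Filter

/-- The element `[[i x, b], [conj b, -i x]]`, `y` of `𝔤`. -/
noncomputable def elt (x : ℝ) (b : ℂ) (y : ℝ) : gLie :=
  (⟨!![x * I, b; starRingEnd ℂ b, -(x * I)], by
    refine ⟨by simp, by simp, by simp⟩⟩, y)

@[simp] theorem elt_00 (x : ℝ) (b : ℂ) (y : ℝ) : (elt x b y).1.1 0 0 = x * I := rfl
@[simp] theorem elt_01 (x : ℝ) (b : ℂ) (y : ℝ) : (elt x b y).1.1 0 1 = b := rfl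
@[simp] theorem elt_10 (x : ℝ) (b : ℂ) (y : ℝ) :
    (elt x b y).1.1 1 0 = starRingEnd ℂ b := rfl
@[simp] theorem elt_11 (x : ℝ) (b : ℂ) (y : ℝ) : (elt x b y).1.1 1 1 = -(x * I) := rfl
@[simp] theorem elt_2 (x : ℝ) (b : ℂ) (y : ℝ) : (elt x b y).2 = y := rfl

/-- The element `[[a, b], [conj b, conj a]]` of `SU(1,1)`. -/
noncomputable def su (a b : ℂ) (h : a * starRingEnd ℂ a - b * starRingEnd ℂ b = 1) : SU11 :=
  ⟨⟨!![a, b; starRingEnd ℂ b, starRingEnd ℂ a], by
    rw [Matrix.det_fin_two]; simpa using h⟩, by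
    refine ⟨by simp, by simp⟩⟩

@[simp] theorem su_00 (a b : ℂ) (h) : (su a b h).1.1 0 0 = a := rfl
@[simp] theorem su_01 (a b : ℂ) (h) : (su a b h).1.1 0 1 = b := rfl
@[simp] theorem su_10 (a b : ℂ) (h) : (su a b h).1.1 1 0 = starRingEnd ℂ b := rfl
@[simp] theorem su_11 (a b : ℂ) (h) : (su a b h).1.1 1 1 = starRingEnd ℂ a := rfl

/-- Equality in `G` is checked on the first row. -/
theorem G_ext {g h : G} (h0 : g.1.1.1 0 0 = h.1.1.1 0 0) (h1 : g.1.1.1 0 1 = h.1.1.1 0 1)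
    (h2 : g.2 = h.2) : g = h := by
  refine Prod.ext (Subtype.ext (Subtype.ext ?_)) h2
  ext i j
  fin_cases i <;> fin_cases j
  · exact h0
  · exact h1
  · show g.1.1.1 1 0 = h.1.1.1 1 0
    rw [SU_10, SU_10, h1]
  · show g.1.1.1 1 1 = h.1.1.1 1 1
    rw [SU_11, SU_11, h0]

theorem G_mul_00 (g h : G) : (g * h).1.1.1 0 0 =
    g.1.1.1 0 0 * h.1.1.1 0 0 + g.1.1.1 0 1 * starRingEnd ℂ (h.1.1.1 0 1) := by
  show (g.1.1 * h.1.1 : Matrix.SpecialLinearGroup (Fin 2) ℂ) 0 0 = _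
  rw [Matrix.SpecialLinearGroup.coe_mul, Matrix.mul_apply, Fin.sum_univ_two]
  rw [show (h.1.1 : Matrix (Fin 2) (Fin 2) ℂ) 1 0 = _ from SU_10 h]

theorem G_mul_01 (g h : G) : (g * h).1.1.1 0 1 =
    g.1.1.1 0 0 * h.1.1.1 0 1 + g.1.1.1 0 1 * starRingEnd ℂ (h.1.1.1 0 0) := by
  show (g.1.1 * h.1.1 : Matrix.SpecialLinearGroup (Fin 2) ℂ) 0 1 = _
  rw [Matrix.SpecialLinearGroup.coe_mul, Matrix.mul_apply, Fin.sum_univ_two]
  rw [show (h.1.1 : Matrix (Fin 2) (Fin 2) ℂ) 1 1 = _ from SU_11 h]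

theorem G_mul_2 (g h : G) : (g * h).2 = g.2 * h.2 := rfl

@[simp] theorem G_one_00 : (1 : G).1.1.1 0 0 = 1 := rfl
@[simp] theorem G_one_01 : (1 : G).1.1.1 0 1 = 0 := rfl
@[simp] theorem G_one_2 : (1 : G).2 = 1 := rfl

/-- The hyperbolic one-parameter subgroup. -/
noncomputable def hyp (t : ℝ) : G :=
  (su (Real.cosh t) (Real.sinh t) (by
    rw [Complex.conj_ofReal, Complex.conj_ofReal]
    have := Real.cosh_sq_sub_sinh_sq t
    norm_cast
    nlinarith), 1)

/-- The element `exp s` of `ℝˣ`. -/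
noncomputable def cen (s : ℝ) : G := (1, Units.mk0 (Real.exp s) (Real.exp_ne_zero s))

@[simp] theorem hyp_00 (t : ℝ) : (hyp t).1.1.1 0 0 = Real.cosh t := rfl
@[simp] theorem hyp_01 (t : ℝ) : (hyp t).1.1.1 0 1 = Real.sinh t := rfl
@[simp] theorem hyp_2 (t : ℝ) : (hyp t).2 = 1 := rfl
@[simp] theorem cen_00 (t : ℝ) : (cen t).1.1.1 0 0 = 1 := rfl
@[simp] theorem cen_01 (t : ℝ) : (cen t).1.1.1 0 1 = 0 := rfl
@[simp] theorem cen_2 (t : ℝ) : ((cen t).2 : ℝ) = Real.exp t := rfl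

@[simp] theorem rot_00 (t : ℝ) : (rot t).1.1.1.1 0 0 = exp (t * I) := rfl
@[simp] theorem rot_01 (t : ℝ) : (rot t).1.1.1.1 0 1 = 0 := rfl
@[simp] theorem rot_11 (t : ℝ) : (rot t).1.1.1.1 1 1 = exp (-(t * I)) := rfl
@[simp] theorem rot_2 (t : ℝ) : (rot t).1.2 = 1 := rfl

theorem hyp_add (s t : ℝ) : hyp (s + t) = hyp s * hyp t := by
  apply G_ext
  · rw [G_mul_00]
    simp only [hyp_00, hyp_01, Complex.conj_ofReal, Real.cosh_add]
    push_cast; ring
  · rw [G_mul_01]
    simp only [hyp_00, hyp_01, Complex.conj_ofReal, Real.sinh_add]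
    push_cast; ring
  · rw [G_mul_2]; simp

theorem cen_add (s t : ℝ) : cen (s + t) = cen s * cen t := by
  apply G_ext
  · rw [G_mul_00]; simp
  · rw [G_mul_01]; simp
  · rw [G_mul_2]
    ext
    simp [Real.exp_add]

theorem rot_add (s t : ℝ) : rot (s + t) = rot s * rot t := by
  apply Subtype.ext
  apply G_ext
  · show (rot (s + t)).1.1.1.1 0 0 = ((rot s).1 * (rot t).1).1.1.1 0 0
    rw [G_mul_00]
    simp only [rot_00, rot_01, map_zero, mul_zero, add_zero, ← Complex.exp_add]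
    congr 1
    push_cast; ring
  · show (rot (s + t)).1.1.1.1 0 1 = ((rot s).1 * (rot t).1).1.1.1 0 1
    rw [G_mul_01]
    simp
  · show (rot (s + t)).1.2 = ((rot s).1 * (rot t).1).2
    rw [G_mul_2]; simp

theorem rot_zero : rot 0 = 1 := by
  apply Subtype.ext
  apply G_ext
  · simp
  · simp
  · simp

theorem hyp_zero : hyp 0 = 1 := by
  apply G_ext
  · simp
  · simp
  · simp

theorem rot_two_pi (s : ℝ) : rot (s + 2 * Real.pi) = rot s := by
  have : rot (2 * Real.pi) = 1 := by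
    apply Subtype.ext
    apply G_ext
    · show exp (((2 * Real.pi : ℝ) : ℂ) * I) = 1
      push_cast
      exact Complex.exp_two_pi_mul_I
    · simp
    · simp
  rw [rot_add, this, mul_one]

theorem isExp_of {X : gLie} {γ : ℝ → G} (h1 : ∀ s t, γ (s + t) = γ s * γ t)
    (h2 : HasDerivAt (fun t => (γ t).1.1.1 0 0) (X.1.1 0 0) 0)
    (h3 : HasDerivAt (fun t => (γ t).1.1.1 0 1) (X.1.1 0 1) 0)
    (h4 : HasDerivAt (fun t => ((γ t).2 : ℝ)) X.2 0) : IsExp X γ := by
  refine ⟨h1, ?_, h4⟩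
  intro i j
  fin_cases i <;> fin_cases j
  · exact h2
  · exact h3
  · show HasDerivAt (fun t => (γ t).1.1.1 1 0) (X.1.1 1 0) 0
    have h5 : (fun t => (γ t).1.1.1 1 0) = fun t => starRingEnd ℂ ((γ t).1.1.1 0 1) := by
      funext t; rw [SU_10]
    rw [h5, gLie_10]
    exact h3.star
  · show HasDerivAt (fun t => (γ t).1.1.1 1 1) (X.1.1 1 1) 0
    have h5 : (fun t => (γ t).1.1.1 1 1) = fun t => starRingEnd ℂ ((γ t).1.1.1 0 0) := by
      funext t; rw [SU_11]
    rw [h5, gLie_11, ← gLie_conj]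
    exact h2.star

theorem isExp_hyp : IsExp (elt 0 1 0) hyp := by
  refine isExp_of hyp_add ?_ ?_ ?_
  · simp only [hyp_00, elt_00]
    have := (Real.hasDerivAt_cosh 0).ofReal_comp
    simpa using this
  · simp only [hyp_01, elt_01]
    have := (Real.hasDerivAt_sinh 0).ofReal_comp
    simpa using this
  · simp only [hyp_2, elt_2]
    exact hasDerivAt_const _ _

theorem isExp_cen : IsExp (elt 0 0 1) cen := by
  refine isExp_of cen_add ?_ ?_ ?_
  · simp only [cen_00, elt_00]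
    simpa using hasDerivAt_const (0:ℝ) (1:ℂ)
  · simp only [cen_01, elt_01]
    exact hasDerivAt_const _ _
  · simp only [cen_2, elt_2]
    simpa using Real.hasDerivAt_exp 0

/-- Conjugates of rotations by hyperbolic elements. -/
theorem isExp_conj (t : ℝ) :
    IsExp (elt (Real.cosh (2 * t)) (Real.sinh (2 * t) * I) 0)
      (fun φ => hyp (-t) * (rot φ : G) * hyp t) := by
  refine isExp_of ?_ ?_ ?_ ?_
  · intro s s'
    have h1 : (rot (s + s') : G) = rot s * rot s' := by rw [rot_add]; rfl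
    have h2 : hyp t * hyp (-t) = 1 := by rw [← hyp_add, add_neg_cancel, hyp_zero]
    rw [h1]
    calc hyp (-t) * ((rot s : G) * rot s') * hyp t
        = hyp (-t) * (rot s : G) * 1 * rot s' * hyp t := by group
      _ = hyp (-t) * (rot s : G) * (hyp t * hyp (-t)) * rot s' * hyp t := by rw [h2]
      _ = _ := by group
  · have h1 : (fun φ => (hyp (-t) * (rot φ : G) * hyp t).1.1.1 0 0) = fun φ : ℝ =>
        (Real.cosh t : ℂ) ^ 2 * exp (φ * I) - (Real.sinh t : ℂ) ^ 2 * exp (-(φ * I)) := by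
      funext φ
      rw [G_mul_00, G_mul_00, G_mul_01]
      simp only [hyp_00, hyp_01, rot_00, rot_01, Complex.conj_ofReal, map_zero, Real.cosh_neg,
        Real.sinh_neg, ← Complex.exp_conj, map_mul, Complex.conj_I]
      push_cast
      ring_nf
    rw [h1]
    have h2 : HasDerivAt (fun φ : ℝ => exp ((φ:ℂ) * I)) I 0 := by
      have := ((hasDerivAt_id (0:ℝ)).ofReal_comp.mul_const I).cexp
      simpa using this
    have h3 : HasDerivAt (fun φ : ℝ => exp (-((φ:ℂ) * I))) (-I) 0 := by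
      have := ((hasDerivAt_id (0:ℝ)).ofReal_comp.mul_const I).neg.cexp
      simpa using this
    refine ((h2.const_mul _).sub (h3.const_mul _)).congr_deriv ?_
    rw [elt_00, Real.cosh_two_mul]
    push_cast
    ring
  · have h1 : (fun φ => (hyp (-t) * (rot φ : G) * hyp t).1.1.1 0 1) = fun φ : ℝ =>
        (Real.cosh t : ℂ) * Real.sinh t * (exp (φ * I) - exp (-(φ * I))) := by
      funext φ
      rw [G_mul_01, G_mul_00, G_mul_01]
      simp only [hyp_00, hyp_01, rot_00, rot_01, Complex.conj_ofReal, map_zero, Real.cosh_neg,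
        Real.sinh_neg, ← Complex.exp_conj, map_mul, Complex.conj_I]
      push_cast
      ring_nf
    rw [h1]
    have h2 : HasDerivAt (fun φ : ℝ => exp ((φ:ℂ) * I)) I 0 := by
      have := ((hasDerivAt_id (0:ℝ)).ofReal_comp.mul_const I).cexp
      simpa using this
    have h3 : HasDerivAt (fun φ : ℝ => exp (-((φ:ℂ) * I))) (-I) 0 := by
      have := ((hasDerivAt_id (0:ℝ)).ofReal_comp.mul_const I).neg.cexp
      simpa using this
    refine ((h2.sub h3).const_mul _).congr_deriv ?_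
    rw [elt_01, Real.sinh_two_mul]
    push_cast
    ring
  · have h1 : (fun φ => ((hyp (-t) * (rot φ : G) * hyp t).2 : ℝ)) = fun φ : ℝ => 1 := by
      funext φ
      rw [G_mul_2, G_mul_2]
      simp
    rw [h1]
    exact hasDerivAt_const _ _

variable {L : Type} [AddCommGroup L] [Module ℂ L]

theorem exp_ne_of (k n m : ℕ) (h : n ≠ m) : ∃ θ : ℝ,
    exp (-(θ * I)) ^ (k + 2 * n) ≠ exp (-(θ * I)) ^ (k + 2 * m) := by
  have hd : ((n:ℝ) - m) ≠ 0 := sub_ne_zero.mpr (by exact_mod_cast h)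
  refine ⟨Real.pi / (2 * ((n:ℝ) - m)), fun he => ?_⟩
  rw [← Complex.exp_nat_mul, ← Complex.exp_nat_mul, Complex.exp_eq_exp_iff_exists_int] at he
  obtain ⟨j, hj⟩ := he
  have hd' : ((n:ℂ) - m) ≠ 0 := by exact_mod_cast hd
  push_cast at hj
  have hpi : (Real.pi : ℂ) ≠ 0 := by exact_mod_cast Real.pi_ne_zero
  have hI := Complex.I_ne_zero
  field_simp at hj
  have h7 : ((n:ℂ) - m) * (1 + 2 * j) = ((n:ℂ) - m) * 0 := by
    linear_combination (-1/2) * hj
  have h8 : (1 + 2 * j : ℂ) = 0 := mul_left_cancel₀ hd' h7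
  have h9 : (1 + 2 * j : ℤ) = 0 := by exact_mod_cast h8
  omega

theorem kapL_apply (k : ℕ) (g : K) (v : ℕ →₀ L) (n : ℕ) :
    (kapL k L g v) n = ((g.1.1.1 1 1) ^ (k + 2 * n)) • v n := by
  induction v using Finsupp.induction_linear with
  | zero => simp
  | add v w hv hw => rw [map_add, Finsupp.add_apply, hv, hw, Finsupp.add_apply, smul_add]
  | single m x =>
    rw [kapL_single, Finsupp.smul_apply, Finsupp.single_apply]
    split_ifs with h
    · rw [h]
    · simp

theorem modL_admissible [FiniteDimensional ℂ L] (k : ℕ) (N : L →ₗ[ℂ] L) (χ : K → ℂ)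
    (W : Submodule ℂ (ℕ →₀ L)) (hW : ∀ v ∈ W, ∀ g, (modL k N).κ g v = χ g • v) :
    FiniteDimensional ℂ W := by
  have hW' : ∀ v ∈ W, ∀ g : K, ∀ n, ((g.1.1.1 1 1) ^ (k + 2 * n)) • v n = χ g • v n := by
    intro v hv g n
    rw [← kapL_apply]
    show ((modL k N).κ g v) n = _
    rw [hW v hv g, Finsupp.smul_apply]
  by_cases h0 : W = ⊥
  · rw [h0]; infer_instance
  · obtain ⟨v0, hv0, hne⟩ := W.ne_bot_iff.mp h0
    obtain ⟨n0, hn0⟩ := Finsupp.ne_iff.mp hne
    rw [Finsupp.zero_apply] at hn0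
    have h1 : W ≤ LinearMap.range (Finsupp.lsingle n0 : L →ₗ[ℂ] (ℕ →₀ L)) := by
      intro v hv
      refine ⟨v n0, ?_⟩
      rw [Finsupp.lsingle_apply]
      ext n
      rw [Finsupp.single_apply]
      split_ifs with h
      · rw [h]
      · by_contra hvn
        obtain ⟨θ, hθ⟩ := exp_ne_of k n n0 (Ne.symm h)
        have h2 := hW' v hv (rot θ) n
        have h3 := hW' v0 hv0 (rot θ) n0
        have h4 := smul_left_injective ℂ (Ne.symm hvn) h2
        have h5 := smul_left_injective ℂ hn0 h3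
        apply hθ
        have h6 : (rot θ).1.1.1 1 1 = exp (-(θ * I)) := rfl
        rw [h6] at h4 h5
        rw [h4, h5]
    exact Submodule.finiteDimensional_of_le h1

theorem modL_isHC [FiniteDimensional ℂ L] {k : ℕ} (hk : 0 < k) (N : L →ₗ[ℂ] L) :
    IsHarishChandra (modL k N) := by
  classical
  refine ⟨modL_admissible k N, ?_⟩
  let b := Module.finBasis ℂ L
  refine ⟨Finset.univ.image fun i => Finsupp.single 0 (b i), fun W hS hρ => ?_⟩
  have h0 : ∀ x, Finsupp.single 0 x ∈ W := by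
    intro x
    have h1 : (⊤ : Submodule ℂ L) ≤ W.comap (Finsupp.lsingle 0) := by
      rw [← b.span_eq, Submodule.span_le]
      rintro _ ⟨i, rfl⟩
      exact hS _ (Finset.mem_image.mpr ⟨i, Finset.mem_univ _, rfl⟩)
    exact h1 (Submodule.mem_top (x := x))
  have h1 : ∀ n, ∀ x, Finsupp.single n x ∈ W := by
    intro n
    induction n using Nat.strong_induction_on with
    | _ n ih =>
      intro x
      rcases n with _ | n
      · exact h0 x
      · have h2 := hρ (elt 0 1 0) _ (ih n (Nat.lt_succ_self n) x)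
        have h3 : (modL k N).ρ (elt 0 1 0) (Finsupp.single n x) = ((k + n : ℂ)) • Finsupp.single (n + 1) x -
            (n:ℂ) • Finsupp.single (n - 1) x := by
          show rhoL k N (elt 0 1 0) (Finsupp.single n x) = _
          rw [rhoL_single]
          simp
        rw [h3] at h2
        have h4 : (n:ℂ) • (Finsupp.single (n - 1) x : ℕ →₀ L) ∈ W :=
          W.smul_mem _ (ih (n - 1) (by omega) x)
        have h5 := W.add_mem h2 h4
        rw [sub_add_cancel] at h5
        have h6 : (k + n : ℂ) ≠ 0 := by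
          exact_mod_cast (by omega : k + n ≠ 0)
        exact (W.smul_mem_iff h6).mp h5
  rw [eq_top_iff]
  intro v _
  rw [← v.sum_single]
  exact W.sum_mem fun n _ => h1 n _

end Pool.Agent.H60.Sob
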