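import Pool.Agent.H60.Sob.Circ

/-!
# The `(𝔤, K)`-modules: weight-`k` holomorphic discrete series, twisted by a nilpotent map
-/

namespace Pool.Agent.H60.Sob

open Complex Topology Filter

variable {L : Type} [AddCommGroup L] [Module ℂ L]

/-- The action of the Lie algebra `𝔤 = su(1,1) × ℝ` on `ℂ[z] ⊗ L = ℕ →₀ L`: the matrix
`[[x, b], [conj b, conj x]]` acts by
`z^n ↦ -x (k + 2 n) z^n + (k + n) conj b z^(n+1) - n b z^(n-1)`, and the factor `ℝ` acts by
multiples of `N`. -/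
noncomputable def rhoL (k : ℕ) (N : L →ₗ[ℂ] L) (X : gLie) : (ℕ →₀ L) →ₗ[ℂ] (ℕ →₀ L) :=
  Finsupp.lsum ℂ fun n : ℕ =>
    (-(X.1.1 0 0) * (k + 2 * n)) • (Finsupp.lsingle n : L →ₗ[ℂ] (ℕ →₀ L)) +
    ((k + n) * starRingEnd ℂ (X.1.1 0 1)) • (Finsupp.lsingle (n + 1) : L →ₗ[ℂ] (ℕ →₀ L)) -
    (n * X.1.1 0 1) • (Finsupp.lsingle (n - 1) : L →ₗ[ℂ] (ℕ →₀ L)) +
    (X.2 : ℂ) • ((Finsupp.lsingle n : L →ₗ[ℂ] (ℕ →₀ L)) ∘ₗ N)

theorem rhoL_single (k : ℕ) (N : L →ₗ[ℂ] L) (X : gLie) (n : ℕ) (x : L) :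
    rhoL k N X (Finsupp.single n x) =
      (-(X.1.1 0 0) * (k + 2 * n)) • Finsupp.single n x +
      ((k + n) * starRingEnd ℂ (X.1.1 0 1)) • Finsupp.single (n + 1) x -
      (n * X.1.1 0 1) • Finsupp.single (n - 1) x +
      (X.2 : ℂ) • Finsupp.single n (N x) := by
  simp [rhoL, Finsupp.sum_single_index]

/-- The action of `K`: the element `diag(conj c, c)` acts on `z^n` by `c^(k + 2n)`. -/
noncomputable def kapL (k : ℕ) (L : Type) [AddCommGroup L] [Module ℂ L] :
    K →* Module.End ℂ (ℕ →₀ L) where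
  toFun g := Finsupp.lsum ℂ fun n : ℕ =>
    ((g.1.1.1 1 1) ^ (k + 2 * n)) • (Finsupp.lsingle n : L →ₗ[ℂ] (ℕ →₀ L))
  map_one' := by
    refine Finsupp.lhom_ext fun n x => ?_
    simp [Finsupp.sum_single_index]
  map_mul' := by
    intro g h
    refine Finsupp.lhom_ext fun n x => ?_
    have h1 : (g * h).1.1.1 1 1 = g.1.1.1 1 1 * h.1.1.1 1 1 := by
      have h2 : h.1.1.1 0 1 = 0 := h.2.1
      show (g.1.1.1 * h.1.1.1 : Matrix.SpecialLinearGroup (Fin 2) ℂ) 1 1 = _
      rw [Matrix.SpecialLinearGroup.coe_mul, Matrix.mul_apply, Fin.sum_univ_two]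
      have h3 : (h.1.1.1 : Matrix (Fin 2) (Fin 2) ℂ) 0 1 = 0 := h2
      rw [h3, mul_zero, zero_add]
    rw [h1]
    simp [Finsupp.sum_single_index, mul_pow, smul_smul]

theorem kapL_single (k : ℕ) (g : K) (n : ℕ) (x : L) :
    kapL k L g (Finsupp.single n x) = ((g.1.1.1 1 1) ^ (k + 2 * n)) • Finsupp.single n x := by
  simp [kapL, Finsupp.sum_single_index]

theorem gLie_conj (X : gLie) : starRingEnd ℂ (X.1.1 0 0) = - X.1.1 0 0 := by
  obtain ⟨⟨X, h3, h4, h5⟩, x⟩ := X
  show starRingEnd ℂ (X 0 0) = - X 0 0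
  rw [← h4]; linear_combination h5

theorem gLie_10 (X : gLie) : X.1.1 1 0 = starRingEnd ℂ (X.1.1 0 1) := X.1.2.1

theorem gLie_11 (X : gLie) : X.1.1 1 1 = - X.1.1 0 0 := by
  obtain ⟨⟨X, h3, h4, h5⟩, x⟩ := X
  show X 1 1 = - X 0 0
  linear_combination h5

theorem rhoL_lie (k : ℕ) (N : L →ₗ[ℂ] L) (X Y : gLie) :
    rhoL k N (bracket X Y) = rhoL k N X ∘ₗ rhoL k N Y - rhoL k N Y ∘ₗ rhoL k N X := by
  refine Finsupp.lhom_ext fun n x => ?_
  have h00 : (bracket X Y).1.1 0 0 = X.1.1 0 1 * starRingEnd ℂ (Y.1.1 0 1) -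
      Y.1.1 0 1 * starRingEnd ℂ (X.1.1 0 1) := by
    simp only [bracket, Matrix.sub_apply, Matrix.mul_apply, Fin.sum_univ_two, gLie_10]
    ring
  have h01 : (bracket X Y).1.1 0 1 = 2 * (X.1.1 0 0 * Y.1.1 0 1 - Y.1.1 0 0 * X.1.1 0 1) := by
    simp only [bracket, Matrix.sub_apply, Matrix.mul_apply, Fin.sum_univ_two, gLie_11]
    ring
  have h2 : (bracket X Y).2 = 0 := rfl
  simp only [LinearMap.sub_apply, LinearMap.comp_apply, rhoL_single, map_add, map_sub, map_smul]
  rw [h00, h01, h2]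
  simp only [map_mul, map_sub, gLie_conj]
  have hs : starRingEnd ℂ (2:ℂ) = 2 := by
    rw [show (2:ℂ) = ((2:ℝ):ℂ) by norm_num, Complex.conj_ofReal]
  rw [hs]
  rcases n with _ | n
  · simp only [Nat.cast_zero, zero_add, zero_mul, zero_smul, Nat.cast_one, Nat.sub_self,
      Complex.ofReal_zero]
    module
  · simp only [Nat.add_sub_cancel, Complex.ofReal_zero, zero_smul]
    rcases n with _ | n
    · simp only [Nat.cast_add, Nat.cast_zero, Nat.cast_one, zero_add]
      module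
    · simp only [Nat.cast_add, Nat.cast_one, Nat.add_sub_cancel]
      module

/-- The entries of an element of `K`. -/
theorem K_01 (g : K) : g.1.1.1.1 0 1 = 0 := g.2.1

theorem SU_10 (g : G) : g.1.1.1 1 0 = starRingEnd ℂ (g.1.1.1 0 1) := g.1.2.1

theorem SU_11 (g : G) : g.1.1.1 1 1 = starRingEnd ℂ (g.1.1.1 0 0) := g.1.2.2

theorem SU_det (g : G) : g.1.1.1 0 0 * starRingEnd ℂ (g.1.1.1 0 0) -
    g.1.1.1 0 1 * starRingEnd ℂ (g.1.1.1 0 1) = 1 := by
  have h := g.1.1.2
  rw [Matrix.det_fin_two] at h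
  rw [← SU_10, ← SU_11]
  exact h

theorem K_unit (g : K) : g.1.1.1.1 0 0 * starRingEnd ℂ (g.1.1.1.1 0 0) = 1 := by
  have h := SU_det g.1
  rw [K_01 g] at h
  simpa using h

theorem kapL_apply_eq (k : ℕ) (g : K) (v : ℕ →₀ L) :
    kapL k L g v = v.sum fun n x => ((g.1.1.1 1 1) ^ (k + 2 * n)) • Finsupp.single n x := by
  show (Finsupp.lsum ℂ fun n : ℕ => ((g.1.1.1 1 1) ^ (k + 2 * n)) •
    (Finsupp.lsingle n : L →ₗ[ℂ] (ℕ →₀ L))) v = _
  rw [Finsupp.lsum_apply]
  rfl

theorem kapL_fin (k : ℕ) (v : ℕ →₀ L) :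
    FiniteDimensional ℂ (Submodule.span ℂ (Set.range fun g => kapL k L g v)) := by
  classical
  let F : Submodule ℂ (ℕ →₀ L) :=
    Submodule.span ℂ (v.support.image fun n => Finsupp.single n (v n) : Finset (ℕ →₀ L))
  have hF : FiniteDimensional ℂ F := FiniteDimensional.span_finset ℂ _
  refine Submodule.finiteDimensional_of_le (S₂ := F) (Submodule.span_le.mpr ?_)
  rintro _ ⟨g, rfl⟩
  simp only [SetLike.mem_coe]
  rw [kapL_apply_eq]
  refine F.sum_mem fun n hn => F.smul_mem _ (Submodule.subset_span ?_)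
  simp only [Finset.coe_image, Set.mem_image]
  exact ⟨n, hn, rfl⟩

theorem continuous_K_entry (i j : Fin 2) : Continuous fun g : K => g.1.1.1.1 i j := by
  have h1 : Continuous fun g : K => g.1.1.1 :=
    continuous_subtype_val.comp (continuous_fst.comp continuous_subtype_val)
  have h2 : Continuous fun g : K => g.1.1.1.1 := continuous_subtype_val.comp h1
  exact (continuous_apply j).comp ((continuous_apply i).comp h2)

theorem kapL_cont (k : ℕ) (v : ℕ →₀ L) (l : (ℕ →₀ L) →ₗ[ℂ] ℂ) :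
    Continuous fun g => l (kapL k L g v) := by
  induction v using Finsupp.induction_linear with
  | zero => simp only [map_zero]; exact continuous_const
  | add v w hv hw => simp only [map_add]; exact hv.add hw
  | single n x =>
    simp only [kapL_single, map_smul, smul_eq_mul]
    exact ((continuous_K_entry 1 1).pow _).mul continuous_const

theorem IsExp_K (X : gLie) (γ : ℝ → K) (h : IsExp X (fun t => (γ t : G))) :
    X.1.1 0 1 = 0 ∧ X.2 = 0 := by
  obtain ⟨h1, h2, h3⟩ := h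
  constructor
  · have h4 := h2 0 1
    have h5 : (fun t => ((γ t : G)).1.1.1 0 1) = fun _ => (0:ℂ) := by
      funext t; exact K_01 (γ t)
    have h6 : HasDerivAt (fun t : ℝ => ((γ t : G)).1.1 0 1) (0:ℂ) 0 := by
      show HasDerivAt (fun t : ℝ => ((γ t : G)).1.1.1 0 1) (0:ℂ) 0
      rw [h5]; exact hasDerivAt_const _ _
    exact h4.unique h6
  · have h5 : (fun t => (((γ t : G)).2 : ℝ)) = fun _ => (1:ℝ) := by
      funext t
      have h6 : (γ t : G) = (γ (t/2) : G) * (γ (t/2) : G) := by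
        have := h1 (t/2) (t/2)
        rwa [add_halves] at this
      have h7 : ((γ t : G)).2 = ((γ (t/2) : G)).2 * ((γ (t/2) : G)).2 := by rw [h6]; rfl
      rw [h7]
      rcases (γ (t/2)).2.2 with h8 | h8 <;> rw [h8] <;> simp
    have h6 : HasDerivAt (fun t => (((γ t : G)).2 : ℝ)) (0:ℝ) 0 := by
      rw [h5]; exact hasDerivAt_const _ _
    exact h3.unique h6

theorem IsExp_zero {X : gLie} {γ : ℝ → G} (h : IsExp X γ) : γ 0 = 1 := by
  have h1 := h.1 0 0
  rw [add_zero] at h1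
  exact left_eq_mul.mp h1

theorem kapL_deriv (k : ℕ) (N : L →ₗ[ℂ] L) (X : gLie) (γ : ℝ → K)
    (h : IsExp X (fun t => (γ t : G))) (v : ℕ →₀ L) (l : (ℕ →₀ L) →ₗ[ℂ] ℂ) :
    HasDerivAt (fun t => l (kapL k L (γ t) v)) (l (rhoL k N X v)) 0 := by
  obtain ⟨hX1, hX2⟩ := IsExp_K X γ h
  induction v using Finsupp.induction_linear with
  | zero => simp only [map_zero]; exact hasDerivAt_const _ _
  | add v w hv hw => simp only [map_add]; exact hv.add hw
  | single n x =>
    simp only [kapL_single, rhoL_single, hX1, hX2, map_smul, map_add, map_sub, smul_eq_mul]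
    have h4 := (h.2.1 1 1).pow (k + 2 * n)
    have h5 : γ 0 = 1 := Subtype.ext (IsExp_zero h)
    have h6 : (γ 0 : G).1.1.1 1 1 = 1 := by rw [h5]; simp
    have h7 := h4.mul_const (l (Finsupp.single n x))
    refine h7.congr_deriv ?_
    have h8 : ((γ 0 : G).1.1 1 1) = 1 := h6
    simp only [h8, gLie_11, one_pow, map_zero, Complex.ofReal_zero]
    push_cast
    ring

theorem kapL_Ad (k : ℕ) (N : L →ₗ[ℂ] L) (g : K) (X : gLie) (v : ℕ →₀ L) :
    kapL k L g (rhoL k N X v) = rhoL k N (Ad g X) (kapL k L g v) := by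
  have hd : g.1.1.1.1 1 1 = starRingEnd ℂ (g.1.1.1.1 0 0) := SU_11 g.1
  have hc : g.1.1.1.1 1 0 = 0 := by rw [SU_10 g.1, K_01]; simp
  have hu := K_unit g
  have h00 : (Ad g X).1.1 0 0 = X.1.1 0 0 := by
    simp only [Ad, Matrix.SpecialLinearGroup.coe_inv, Matrix.adjugate_fin_two, Matrix.mul_apply,
      Fin.sum_univ_two, K_01, hc, hd, Matrix.of_apply, Matrix.cons_val', Matrix.cons_val_zero,
      Matrix.cons_val_one, Matrix.cons_val_fin_one]
    linear_combination (X.1.1 0 0) * hu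
  have h01 : (Ad g X).1.1 0 1 = (g.1.1.1.1 0 0) ^ 2 * X.1.1 0 1 := by
    simp only [Ad, Matrix.SpecialLinearGroup.coe_inv, Matrix.adjugate_fin_two, Matrix.mul_apply,
      Fin.sum_univ_two, K_01, Matrix.of_apply, Matrix.cons_val', Matrix.cons_val_zero,
      Matrix.cons_val_one, Matrix.cons_val_fin_one]
    ring
  have h2 : (Ad g X).2 = X.2 := rfl
  induction v using Finsupp.induction_linear with
  | zero => simp only [map_zero]
  | add v w hv hw => simp only [map_add, hv, hw]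
  | single n x =>
    simp only [kapL_single, rhoL_single, map_smul, map_add, map_sub, h00, h01, h2, map_mul,
      map_pow]
    rw [show (g.1.1.1 1 1 : ℂ) = starRingEnd ℂ (g.1.1.1.1 0 0) from hd]
    set c := starRingEnd ℂ (g.1.1.1.1 0 0) with hcdef
    set a := g.1.1.1.1 0 0 with ha
    rcases n with _ | n
    · simp only [Nat.cast_zero, zero_mul, zero_smul, smul_add, smul_smul, Nat.zero_add, mul_zero,
        add_zero, smul_sub]
      module
    · have hn : c ^ (k + 2 * n) = c ^ (k + 2 * (n + 1)) * a ^ 2 := by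
        have h3 : c ^ (k + 2 * (n + 1)) = c ^ (k + 2 * n) * c ^ 2 := by ring
        rw [h3]
        linear_combination (-(c ^ (k + 2 * n)) * (a * c + 1)) * hu
      simp only [Nat.add_sub_cancel]
      rw [hn]
      module

/-- The weight-`k` holomorphic discrete series tensored with the representation `L` of `ℝˣ` on
which the Lie algebra of `ℝˣ` acts by `N`. -/
noncomputable def modL (k : ℕ) (N : L →ₗ[ℂ] L) : GKModule (ℕ →₀ L) where
  ρ := rhoL k N
  κ := kapL k L
  ρ_add X Y := by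
    refine Finsupp.lhom_ext fun n x => ?_
    simp only [LinearMap.add_apply, rhoL_single, Prod.fst_add, Prod.snd_add, Submodule.coe_add,
      Matrix.add_apply, map_add, Complex.ofReal_add]
    module
  ρ_smul r X := by
    refine Finsupp.lhom_ext fun n x => ?_
    simp only [LinearMap.smul_apply, rhoL_single, Prod.smul_fst, Prod.smul_snd,
      Submodule.coe_smul, Matrix.smul_apply, smul_eq_mul, Complex.ofReal_mul,
      Complex.real_smul, map_mul, Complex.conj_ofReal]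
    module
  ρ_lie := rhoL_lie k N
  κ_fin := kapL_fin k
  κ_cont := kapL_cont k
  κ_deriv := kapL_deriv k N
  κ_Ad := kapL_Ad k N

end Pool.Agent.H60.Sob
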