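import Pool.Agent.H60.Sob.Gap

/-!
# Concrete globalizations: weighted sup norms on the closed unit disc
-/

namespace Pool.Agent.H60.Sob

open Complex Topology Filter

/-- The closed unit disc. -/
abbrev DD : Type := Metric.closedBall (0:ℂ) 1

theorem DD_norm (Z : DD) : ‖(Z:ℂ)‖ ≤ 1 := by
  have := Z.2
  rwa [Metric.mem_closedBall, dist_zero_right] at this

/-- The denominator `a - conj b Z`. -/
def den (g : G) (Z : ℂ) : ℂ := g.1.1.1 0 0 - starRingEnd ℂ (g.1.1.1 0 1) * Z

/-- The numerator `conj a Z - b`. -/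
def num (g : G) (Z : ℂ) : ℂ := starRingEnd ℂ (g.1.1.1 0 0) * Z - g.1.1.1 0 1

theorem SU_norm (g : G) : ‖g.1.1.1 0 0‖ ^ 2 - ‖g.1.1.1 0 1‖ ^ 2 = 1 := by
  have h := SU_det g
  rw [Complex.mul_conj, Complex.mul_conj, Complex.normSq_eq_norm_sq, Complex.normSq_eq_norm_sq] at h
  exact_mod_cast h

theorem den_num_norm (g : G) (Z : ℂ) : ‖den g Z‖ ^ 2 - ‖num g Z‖ ^ 2 = 1 - ‖Z‖ ^ 2 := by
  have h := SU_det g
  have h1 : (((‖den g Z‖ ^ 2 - ‖num g Z‖ ^ 2 : ℝ)) : ℂ) = ((1 - ‖Z‖ ^ 2 : ℝ) : ℂ) := by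
    rw [← Complex.normSq_eq_norm_sq, ← Complex.normSq_eq_norm_sq, ← Complex.normSq_eq_norm_sq]
    push_cast
    rw [← Complex.mul_conj, ← Complex.mul_conj, ← Complex.mul_conj]
    unfold den num
    simp only [map_sub, map_mul, Complex.conj_conj]
    linear_combination (1 - Z * starRingEnd ℂ Z) * h
  exact_mod_cast h1

theorem SU_pos (g : G) : 0 < ‖g.1.1.1 0 0‖ + ‖g.1.1.1 0 1‖ := by
  have := SU_norm g
  have h1 := norm_nonneg (g.1.1.1 0 0)
  have h2 := norm_nonneg (g.1.1.1 0 1)
  by_contra h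
  push Not at h
  have h3 : ‖g.1.1.1 0 0‖ = 0 := by linarith
  have h4 : ‖g.1.1.1 0 1‖ = 0 := by linarith
  rw [h3, h4] at this
  norm_num at this

theorem SU_one_le (g : G) : 1 ≤ ‖g.1.1.1 0 0‖ + ‖g.1.1.1 0 1‖ := by
  have := SU_norm g
  have h1 := norm_nonneg (g.1.1.1 0 0)
  have h2 := norm_nonneg (g.1.1.1 0 1)
  nlinarith

theorem den_lower (g : G) (Z : DD) : 1 ≤ ‖den g Z‖ * (‖g.1.1.1 0 0‖ + ‖g.1.1.1 0 1‖) := by
  have h0 := SU_norm g
  have h3 := SU_pos g
  have h1 : ‖g.1.1.1 0 0‖ - ‖g.1.1.1 0 1‖ ≤ ‖den g Z‖ := by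
    have h4 := norm_sub_norm_le (g.1.1.1 0 0) (starRingEnd ℂ (g.1.1.1 0 1) * (Z:ℂ))
    rw [norm_mul, RCLike.norm_conj] at h4
    have h5 := DD_norm Z
    have h6 : ‖g.1.1.1 0 1‖ * ‖(Z:ℂ)‖ ≤ ‖g.1.1.1 0 1‖ := by
      nlinarith [norm_nonneg (g.1.1.1 0 1)]
    unfold den
    linarith
  nlinarith

theorem den_ne (g : G) (Z : DD) : den g Z ≠ 0 := by
  intro h
  have := den_lower g Z
  rw [h, norm_zero, zero_mul] at this
  norm_num at this

theorem den_upper (g : G) (Z : DD) : ‖den g Z‖ ≤ ‖g.1.1.1 0 0‖ + ‖g.1.1.1 0 1‖ := by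
  unfold den
  refine (norm_sub_le _ _).trans ?_
  rw [norm_mul, RCLike.norm_conj]
  have h5 := DD_norm Z
  nlinarith [norm_nonneg (g.1.1.1 0 1)]

theorem num_le_den (g : G) (Z : DD) : ‖num g Z‖ ≤ ‖den g Z‖ := by
  have h := den_num_norm g Z
  have h5 := DD_norm Z
  have h6 : ‖(Z:ℂ)‖ ^ 2 ≤ 1 := by nlinarith [norm_nonneg (Z:ℂ)]
  exact abs_le_of_sq_le_sq' (by linarith) (norm_nonneg _) |>.2

/-- The action of `g⁻¹` on the disc. -/
noncomputable def mu (g : G) (Z : DD) : DD :=
  ⟨num g Z / den g Z, by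
    rw [Metric.mem_closedBall, dist_zero_right, norm_div]
    exact div_le_one_of_le₀ (num_le_den g Z) (norm_nonneg _)⟩

theorem mu_coe (g : G) (Z : DD) : ((mu g Z : DD) : ℂ) = num g Z / den g Z := rfl

theorem cont_den {X : Type*} [TopologicalSpace X] {f : X → G} {h : X → DD} (hf : Continuous f)
    (hh : Continuous h) : Continuous fun x => den (f x) (h x) := by
  unfold den
  have h1 := (continuous_G_entry 0 0).comp hf
  have h2 := (continuous_G_entry 0 1).comp hf
  have h3 : Continuous fun x => ((h x : DD) : ℂ) := continuous_subtype_val.comp hh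
  exact h1.sub ((Complex.continuous_conj.comp h2).mul h3)

theorem cont_num {X : Type*} [TopologicalSpace X] {f : X → G} {h : X → DD} (hf : Continuous f)
    (hh : Continuous h) : Continuous fun x => num (f x) (h x) := by
  unfold num
  have h1 := (continuous_G_entry 0 0).comp hf
  have h2 := (continuous_G_entry 0 1).comp hf
  have h3 : Continuous fun x => ((h x : DD) : ℂ) := continuous_subtype_val.comp hh
  exact ((Complex.continuous_conj.comp h1).mul h3).sub h2

theorem cont_mu {X : Type*} [TopologicalSpace X] {f : X → G} {h : X → DD} (hf : Continuous f)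
    (hh : Continuous h) : Continuous fun x => mu (f x) (h x) :=
  Continuous.subtype_mk ((cont_num hf hh).div (cont_den hf hh) fun x => den_ne (f x) (h x)) _

theorem den_mul (g h : G) (Z : DD) : den (g * h) Z = den g Z * den h (mu g Z) := by
  have h1 : den g Z * den h (mu g Z) =
      h.1.1.1 0 0 * den g Z - starRingEnd ℂ (h.1.1.1 0 1) * num g Z := by
    have e : den h (mu g Z) = h.1.1.1 0 0 - starRingEnd ℂ (h.1.1.1 0 1) * (num g Z / den g Z) :=
      rfl
    rw [e]
    have := den_ne g Z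
    field_simp
  rw [h1]
  unfold den num
  rw [G_mul_00, G_mul_01]
  simp only [map_add, map_mul, Complex.conj_conj]
  ring

theorem num_mul (g h : G) (Z : DD) : num (g * h) Z = den g Z * num h (mu g Z) := by
  have h1 : den g Z * num h (mu g Z) =
      starRingEnd ℂ (h.1.1.1 0 0) * num g Z - h.1.1.1 0 1 * den g Z := by
    have e : num h (mu g Z) = starRingEnd ℂ (h.1.1.1 0 0) * (num g Z / den g Z) - h.1.1.1 0 1 :=
      rfl
    rw [e]
    have := den_ne g Z
    field_simp
  rw [h1]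
  unfold den num
  rw [G_mul_00, G_mul_01]
  simp only [map_add, map_mul, Complex.conj_conj]
  ring

theorem mu_mul (g h : G) (Z : DD) : mu (g * h) Z = mu h (mu g Z) := by
  apply Subtype.ext
  rw [mu_coe, mu_coe, den_mul, num_mul, mul_div_mul_left _ _ (den_ne g Z)]

theorem den_one (Z : ℂ) : den 1 Z = 1 := by simp [den]

theorem num_one (Z : ℂ) : num 1 Z = Z := by simp [num]

theorem mu_one (Z : DD) : mu 1 Z = Z := by
  apply Subtype.ext
  rw [mu_coe, den_one, num_one, div_one]

/-- The automorphy factor. -/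
noncomputable def cfac (k α : ℕ) (g : G) (Z : DD) : ℂ :=
  ((‖den g Z‖ ^ (2 * α) : ℝ) : ℂ) / den g Z ^ k

theorem cont_cfac (k α : ℕ) {X : Type*} [TopologicalSpace X] {f : X → G} {h : X → DD}
    (hf : Continuous f) (hh : Continuous h) : Continuous fun x => cfac k α (f x) (h x) := by
  unfold cfac
  refine Continuous.div ?_ ((cont_den hf hh).pow k) (fun x => pow_ne_zero _ (den_ne (f x) (h x)))
  exact Complex.continuous_ofReal.comp ((cont_den hf hh).norm.pow _)

theorem cfac_mul (k α : ℕ) (g h : G) (Z : DD) :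
    cfac k α (g * h) Z = cfac k α g Z * cfac k α h (mu g Z) := by
  unfold cfac
  rw [den_mul, norm_mul, mul_pow, mul_pow]
  push_cast
  rw [mul_div_mul_comm]

theorem cfac_one (k α : ℕ) (Z : DD) : cfac k α 1 Z = 1 := by
  simp [cfac, den_one]

theorem cfac_norm_le {k α : ℕ} (h : α ≤ k) (g : G) (Z : DD) :
    ‖cfac k α g Z‖ ≤ (‖g.1.1.1 0 0‖ + ‖g.1.1.1 0 1‖) ^ k := by
  unfold cfac
  rw [norm_div, norm_pow, Complex.norm_real, Real.norm_of_nonneg (by positivity)]
  have hd := norm_pos_iff.mpr (den_ne g Z)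
  set x := ‖den g Z‖ with hx
  set S := ‖g.1.1.1 0 0‖ + ‖g.1.1.1 0 1‖ with hS
  have h1 : 1 ≤ x * S := den_lower g Z
  have h2 : x ≤ S := den_upper g Z
  have hS1 : 1 ≤ S := SU_one_le g
  rw [div_le_iff₀ (by positivity)]
  have e1 : x ^ (2 * α) = x ^ α * x ^ α := by rw [← pow_add]; congr 1; omega
  have e2 : S ^ k * x ^ k = (S ^ α * x ^ α) * (S ^ (k - α) * x ^ (k - α)) := by
    rw [mul_mul_mul_comm, ← pow_add, ← pow_add]
    congr 2 <;> omega
  rw [e1, e2]
  have h3 : 1 ≤ S ^ (k - α) * x ^ (k - α) := by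
    rw [← mul_pow, mul_comm]; exact one_le_pow₀ h1
  calc x ^ α * x ^ α ≤ S ^ α * x ^ α * 1 := by rw [mul_one]; gcongr
    _ ≤ _ := by gcongr

theorem cfac_norm_eq (d : ℕ) (g : G) (Z : DD) : ‖cfac (2 * d) d g Z‖ = 1 := by
  unfold cfac
  rw [norm_div, norm_pow, Complex.norm_real, Real.norm_of_nonneg (by positivity)]
  have hd := norm_pos_iff.mpr (den_ne g Z)
  exact div_self (by positivity)

section Rep

variable {L : Type} [NormedAddCommGroup L] [NormedSpace ℂ L] [FiniteDimensional ℂ L]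

theorem N_cont (N : L →ₗ[ℂ] L) : Continuous N := LinearMap.continuous_of_finiteDimensional N

theorem PiFun_cont_aux (k α : ℕ) (N : L →ₗ[ℂ] L) (g : G) (f : C(DD, L)) :
    Continuous fun Z : DD =>
      cfac k α g Z • (f (mu g Z) + (Real.log (g.2 : ℝ) : ℂ) • N (f (mu g Z))) := by
  have h1 : Continuous fun Z : DD => cfac k α g Z := cont_cfac k α continuous_const continuous_id
  have h2 : Continuous fun Z : DD => mu g Z := cont_mu continuous_const continuous_id
  have h3 : Continuous fun Z : DD => f (mu g Z) := f.continuous.comp h2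
  have h4 : Continuous fun Z : DD => N (f (mu g Z)) := (N_cont N).comp h3
  exact h1.smul (h3.add (continuous_const.smul h4))

/-- The action on all continuous functions on the disc. -/
noncomputable def PiFun (k α : ℕ) (N : L →ₗ[ℂ] L) (g : G) (f : C(DD, L)) : C(DD, L) :=
  ⟨fun Z => cfac k α g Z • (f (mu g Z) + (Real.log (g.2 : ℝ) : ℂ) • N (f (mu g Z))),
    PiFun_cont_aux k α N g f⟩

theorem PiFun_apply (k α : ℕ) (N : L →ₗ[ℂ] L) (g : G) (f : C(DD, L)) (Z : DD) :
    PiFun k α N g f Z =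
      cfac k α g Z • (f (mu g Z) + (Real.log (g.2 : ℝ) : ℂ) • N (f (mu g Z))) := rfl

/-- The hypothesis that the action grows at most like `w`. -/
def GrowthOK (k α : ℕ) (N : L →ₗ[ℂ] L) (w : G → ℝ) : Prop :=
  ∀ g Z x, ‖cfac k α g Z‖ * ‖x + (Real.log (g.2 : ℝ) : ℂ) • N x‖ ≤ w g * ‖x‖

variable {k α : ℕ} {N : L →ₗ[ℂ] L} {w : G → ℝ}

theorem PiFun_norm (hG : GrowthOK k α N w) (hw : ∀ g, 0 < w g) (g : G) (f : C(DD, L)) :
    ‖PiFun k α N g f‖ ≤ w g * ‖f‖ := by
  rw [ContinuousMap.norm_le _ (by have := hw g; positivity)]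
  intro Z
  rw [PiFun_apply, norm_smul]
  refine (hG g Z _).trans ?_
  have := (hw g).le
  gcongr
  exact f.norm_coe_le_norm _

/-- The action by bounded operators. -/
noncomputable def PiL (hG : GrowthOK k α N w) (hw : ∀ g, 0 < w g) (g : G) :
    C(DD, L) →L[ℂ] C(DD, L) :=
  LinearMap.mkContinuous
    { toFun := PiFun k α N g
      map_add' := by
        intro f f'
        ext Z
        simp only [PiFun_apply, ContinuousMap.add_apply, map_add]
        module
      map_smul' := by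
        intro c f
        ext Z
        simp only [PiFun_apply, ContinuousMap.smul_apply, map_smul, RingHom.id_apply]
        module } (w g) (PiFun_norm hG hw g)

theorem PiL_apply (hG : GrowthOK k α N w) (hw : ∀ g, 0 < w g) (g : G) (f : C(DD, L)) :
    PiL hG hw g f = PiFun k α N g f := rfl

theorem PiFun_mul (hN : ∀ x, N (N x) = 0) (g h : G) (f : C(DD, L)) :
    PiFun k α N (g * h) f = PiFun k α N g (PiFun k α N h f) := by
  ext Z
  simp only [PiFun_apply]
  rw [mu_mul, cfac_mul, G_mul_2, Units.val_mul, Real.log_mul g.2.ne_zero h.2.ne_zero]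
  simp only [map_smul, map_add, hN, smul_zero, add_zero]
  push_cast
  module

theorem PiFun_one (f : C(DD, L)) : PiFun k α N 1 f = f := by
  ext Z
  simp only [PiFun_apply, mu_one, cfac_one]
  simp

theorem PiFun_cont {X : Type*} [TopologicalSpace X] {a : X → G} {b : X → C(DD, L)}
    (ha : Continuous a) (hb : Continuous b) : Continuous fun x => PiFun k α N (a x) (b x) := by
  apply ContinuousMap.continuous_of_continuous_uncurry
  have h01 : Continuous fun p : X × DD => a p.1 := ha.comp continuous_fst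
  have h02 : Continuous fun p : X × DD => p.2 := continuous_snd
  have h1 : Continuous fun p : X × DD => cfac k α (a p.1) p.2 := cont_cfac k α h01 h02
  have h2 : Continuous fun p : X × DD => mu (a p.1) p.2 := cont_mu h01 h02
  have h3 : Continuous fun p : X × DD => b p.1 (mu (a p.1) p.2) :=
    (hb.comp continuous_fst).eval h2
  have h4 : Continuous fun p : X × DD => N (b p.1 (mu (a p.1) p.2)) :=
    (N_cont N).comp h3
  have h5 : Continuous fun p : X × DD => ((Real.log ((a p.1).2 : ℝ) : ℝ) : ℂ) := by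
    refine Complex.continuous_ofReal.comp ?_
    refine Continuous.log ?_ (fun p => (a p.1).2.ne_zero)
    exact Units.continuous_val.comp (continuous_snd.comp h01)
  exact h1.smul (h3.add (h5.smul h4))

end Rep

end Pool.Agent.H60.Sob
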