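import Pool.Agent.H60.Sob.Model

/-!
# Concrete globalizations: the embedding of `ℕ →₀ L`
-/

namespace Pool.Agent.H60.Sob

open Complex Topology Filter

/-- The coordinate function on the disc. -/
noncomputable def Zf : C(DD, ℂ) := ⟨fun Z => (Z : ℂ), continuous_subtype_val⟩

/-- The function `1 - |Z|²`. -/
noncomputable def Wf : C(DD, ℂ) := ⟨fun Z => ((1 - ‖(Z:ℂ)‖ ^ 2 : ℝ) : ℂ), by fun_prop⟩

@[simp] theorem Zf_apply (Z : DD) : Zf Z = (Z : ℂ) := rfl
@[simp] theorem Wf_apply (Z : DD) : Wf Z = ((1 - ‖(Z:ℂ)‖ ^ 2 : ℝ) : ℂ) := rfl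

/-- The denominator as a continuous function on the disc. -/
noncomputable def denf (g : G) : C(DD, ℂ) :=
  (g.1.1.1 0 0) • (1 : C(DD, ℂ)) - (starRingEnd ℂ (g.1.1.1 0 1)) • Zf

/-- The numerator as a continuous function on the disc. -/
noncomputable def numf (g : G) : C(DD, ℂ) :=
  (starRingEnd ℂ (g.1.1.1 0 0)) • Zf - (g.1.1.1 0 1) • (1 : C(DD, ℂ))

theorem denf_apply (g : G) (Z : DD) : denf g Z = den g Z := by
  simp [denf, den]

theorem numf_apply (g : G) (Z : DD) : numf g Z = num g Z := by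
  simp [numf, num]

theorem inv_apply (g : G) (Z : DD) : (Ring.inverse (denf g)) Z = (den g Z)⁻¹ := by
  have hu : IsUnit (denf g) := by
    rw [ContinuousMap.isUnit_iff_forall_ne_zero]
    intro Z
    rw [denf_apply]
    exact den_ne g Z
  have h1 : (Ring.inverse (denf g)) * denf g = 1 := Ring.inverse_mul_cancel _ hu
  have h2 := congrArg (fun f : C(DD, ℂ) => f Z) h1
  simp only [ContinuousMap.mul_apply, ContinuousMap.one_apply, denf_apply] at h2
  exact eq_inv_of_mul_eq_one_left h2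

section Emb

variable {L : Type} [NormedAddCommGroup L] [NormedSpace ℂ L]

/-- The map `f ↦ f x` from scalar to vector valued functions. -/
noncomputable def JJ (x : L) : C(DD, ℂ) →L[ℂ] C(DD, L) :=
  LinearMap.mkContinuous
    { toFun := fun f => ⟨fun Z => f Z • x, by fun_prop⟩
      map_add' := by intro f g; ext Z; simp [add_smul]
      map_smul' := by intro c f; ext Z; simp [smul_smul] } ‖x‖ (by
        intro f
        rw [ContinuousMap.norm_le _ (by positivity)]
        intro Z
        simp only [LinearMap.coe_mk, AddHom.coe_mk, ContinuousMap.coe_mk]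
        rw [norm_smul, mul_comm]
        gcongr
        exact f.norm_coe_le_norm Z)

theorem JJ_apply (x : L) (f : C(DD, ℂ)) (Z : DD) : JJ x f Z = f Z • x := rfl

theorem JJ_add (x y : L) (f : C(DD, ℂ)) : JJ (x + y) f = JJ x f + JJ y f := by
  ext Z; simp [JJ_apply]

theorem JJ_smul (c : ℂ) (x : L) (f : C(DD, ℂ)) : JJ (c • x) f = c • JJ x f := by
  ext Z
  rw [JJ_apply, ContinuousMap.smul_apply, JJ_apply, smul_comm]

/-- The embedding `z^n x ↦ (1 - |Z|²)^α Z^n x`. -/
noncomputable def iot (α : ℕ) (L : Type) [NormedAddCommGroup L] [NormedSpace ℂ L] :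
    (ℕ →₀ L) →ₗ[ℂ] C(DD, L) :=
  Finsupp.lsum ℂ fun n : ℕ =>
    { toFun := fun x => JJ x (Wf ^ α * Zf ^ n)
      map_add' := fun x y => JJ_add x y _
      map_smul' := fun c x => JJ_smul c x _ }

theorem iot_single (α n : ℕ) (x : L) :
    iot α L (Finsupp.single n x) = JJ x (Wf ^ α * Zf ^ n) := by
  unfold iot
  rw [Finsupp.lsum_single]
  rfl

variable [FiniteDimensional ℂ L] {k α : ℕ} {N : L →ₗ[ℂ] L} {w : G → ℝ}

theorem Wf_mu (g : G) (Z : DD) : Wf (mu g Z) * ((‖den g Z‖ ^ 2 : ℝ) : ℂ) = Wf Z := by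
  rw [Wf_apply, Wf_apply, mu_coe, norm_div, ← Complex.ofReal_mul]
  congr 1
  have h := den_num_norm g Z
  have hd := norm_pos_iff.mpr (den_ne g Z)
  rw [← h]
  field_simp

theorem PiFun_iot (g : G) (n : ℕ) (x : L) :
    PiFun k α N g (iot α L (Finsupp.single n x)) =
      JJ (x + (Real.log (g.2 : ℝ) : ℂ) • N x)
        (Wf ^ α * (numf g ^ n * (Ring.inverse (denf g)) ^ (k + n))) := by
  ext Z
  rw [PiFun_apply, iot_single, JJ_apply, JJ_apply]
  simp only [ContinuousMap.mul_apply, ContinuousMap.pow_apply, Zf_apply, numf_apply, inv_apply,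
    map_smul, mu_coe]
  have h1 : cfac k α g Z * (Wf (mu g Z) ^ α * (num g Z / den g Z) ^ n) =
      Wf Z ^ α * (num g Z ^ n * (den g Z)⁻¹ ^ (k + n)) := by
    rw [← Wf_mu g Z]
    unfold cfac
    have := den_ne g Z
    rw [mul_pow, inv_pow, pow_add, div_pow, pow_mul]
    push_cast
    field_simp
  rw [← h1]
  module

/-- The closed subspace spanned by the image of `ℕ →₀ L`. -/
noncomputable def EE (α : ℕ) (L : Type) [NormedAddCommGroup L] [NormedSpace ℂ L] :
    Submodule ℂ C(DD, L) := (LinearMap.range (iot α L)).topologicalClosure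

theorem EE_closed : IsClosed (EE α L : Set C(DD, L)) :=
  Submodule.isClosed_topologicalClosure _

theorem iot_mem (v : ℕ →₀ L) : iot α L v ∈ EE α L :=
  Submodule.le_topologicalClosure _ ⟨v, rfl⟩

/-- The closed algebra generated by `Z`. -/
noncomputable def AA : Subalgebra ℂ C(DD, ℂ) := (Algebra.adjoin ℂ {Zf}).topologicalClosure

theorem Zf_mem : Zf ∈ AA :=
  Subalgebra.le_topologicalClosure _ (Algebra.self_mem_adjoin_singleton _ _)

theorem AA_closed : IsClosed (AA : Set C(DD, ℂ)) := Subalgebra.isClosed_topologicalClosure _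

theorem numf_mem (g : G) : numf g ∈ AA :=
  AA.sub_mem (AA.smul_mem Zf_mem _) (AA.smul_mem AA.one_mem _)

theorem Zf_norm : ‖Zf‖ ≤ 1 := by
  rw [ContinuousMap.norm_le _ zero_le_one]
  intro Z
  exact DD_norm Z

theorem inv_mem (g : G) : Ring.inverse (denf g) ∈ AA := by
  have hS := SU_norm g
  have ha : g.1.1.1 0 0 ≠ 0 := by
    intro h
    rw [h, norm_zero] at hS
    nlinarith [sq_nonneg ‖g.1.1.1 0 1‖]
  set c : ℂ := starRingEnd ℂ (g.1.1.1 0 1) / g.1.1.1 0 0 with hc
  have hc1 : ‖c‖ < 1 := by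
    rw [hc, norm_div, RCLike.norm_conj, div_lt_one (norm_pos_iff.mpr ha)]
    have h1 := norm_nonneg (g.1.1.1 0 0)
    have h2 := norm_nonneg (g.1.1.1 0 1)
    nlinarith
  have hcZ : ‖c • Zf‖ < 1 := by
    rw [norm_smul]
    have := Zf_norm
    nlinarith [norm_nonneg c]
  have h1 : (Ring.inverse (1 - c • Zf)) ∈ AA := by
    have hs := hasSum_geom_series_inverse (c • Zf) hcZ
    refine AA_closed.mem_of_tendsto hs.tendsto_sum_nat (Filter.Eventually.of_forall fun n => ?_)
    exact AA.sum_mem fun i _ => AA.pow_mem (AA.smul_mem Zf_mem _) _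
  have h2 : Ring.inverse (denf g) = (g.1.1.1 0 0)⁻¹ • Ring.inverse (1 - c • Zf) := by
    have h3 : denf g = (g.1.1.1 0 0) • (1 - c • Zf) := by
      rw [hc, smul_sub, smul_smul, mul_div_cancel₀ _ ha]
      rfl
    have hu : IsUnit (1 - c • Zf) := isUnit_one_sub_of_norm_lt_one hcZ
    have hu2 : IsUnit (denf g) := by
      rw [ContinuousMap.isUnit_iff_forall_ne_zero]
      intro Z
      rw [denf_apply]
      exact den_ne g Z
    have h4 : denf g * ((g.1.1.1 0 0)⁻¹ • Ring.inverse (1 - c • Zf)) = 1 := by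
      rw [h3, smul_mul_smul_comm, mul_inv_cancel₀ ha, one_smul, Ring.mul_inverse_cancel _ hu]
    calc Ring.inverse (denf g) = Ring.inverse (denf g) *
          (denf g * ((g.1.1.1 0 0)⁻¹ • Ring.inverse (1 - c • Zf))) := by rw [h4, mul_one]
      _ = (g.1.1.1 0 0)⁻¹ • Ring.inverse (1 - c • Zf) := by
          rw [← mul_assoc, Ring.inverse_mul_cancel _ hu2, one_mul]
  rw [h2]
  exact AA.smul_mem h1 _

theorem AA_le {f : C(DD, ℂ)} (hf : f ∈ AA) (x : L) : JJ x (Wf ^ α * f) ∈ EE α L := by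
  have hcl : IsClosed {f : C(DD, ℂ) | JJ x (Wf ^ α * f) ∈ EE α L} := by
    refine EE_closed.preimage ?_
    exact (JJ x).continuous.comp (continuous_const.mul continuous_id)
  have h1 : ∀ f ∈ (Algebra.adjoin ℂ {Zf} : Subalgebra ℂ C(DD, ℂ)), JJ x (Wf ^ α * f) ∈ EE α L := by
    intro f hf
    rw [Algebra.adjoin_singleton_eq_range_aeval] at hf
    obtain ⟨p, rfl⟩ := hf
    induction p using Polynomial.induction_on' with
    | add p q hp hq =>
      have : (Polynomial.aeval Zf).toRingHom (p + q) = (Polynomial.aeval Zf).toRingHom p +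
        (Polynomial.aeval Zf).toRingHom q := map_add _ _ _
      rw [this, mul_add, map_add]
      exact (EE α L).add_mem hp hq
    | monomial n a =>
      have : (Polynomial.aeval Zf).toRingHom (Polynomial.monomial n a) = a • Zf ^ n := by
        simp [Polynomial.aeval_monomial, Algebra.smul_def]
      rw [this, mul_smul_comm, map_smul, ← iot_single]
      exact (EE α L).smul_mem _ (iot_mem _)
  exact closure_minimal (s := ((Algebra.adjoin ℂ {Zf} : Subalgebra ℂ C(DD, ℂ)) : Set C(DD, ℂ)))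
    h1 hcl hf

theorem PiFun_mem (hG : GrowthOK k α N w) (hw : ∀ g, 0 < w g) (g : G) (f : C(DD, L))
    (hf : f ∈ EE α L) : PiFun k α N g f ∈ EE α L := by
  have hcl : IsClosed {f : C(DD, L) | PiL hG hw g f ∈ EE α L} :=
    EE_closed.preimage (PiL hG hw g).continuous
  have h1 : ∀ v : ℕ →₀ L, PiL hG hw g (iot α L v) ∈ EE α L := by
    intro v
    induction v using Finsupp.induction_linear with
    | zero => rw [map_zero, map_zero]; exact (EE α L).zero_mem
    | add v w hv hw => rw [map_add, map_add]; exact (EE α L).add_mem hv hw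
    | single n x =>
      rw [PiL_apply, PiFun_iot]
      exact AA_le (AA.mul_mem (AA.pow_mem (numf_mem g) _) (AA.pow_mem (inv_mem g) _)) _
  refine closure_minimal (s := (LinearMap.range (iot α L) : Set C(DD, L))) ?_ hcl hf
  rintro _ ⟨v, rfl⟩
  exact h1 v

end Emb

end Pool.Agent.H60.Sob
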