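import Pool.Agent.H60.Sob.Grp

/-!
# The differential equations satisfied by the `K`-components of `π(a_t) v`
-/

namespace Pool.Agent.H60.Sob

open Topology Filter

section Hop

variable {E : Type*} [NormedAddCommGroup E] [NormedSpace ℝ E]

theorem vecHop (f f' : ℝ → E) (hf : ∀ t, HasDerivAt f (f' t) t) (h0 : f 0 = 0) (j : ℕ) (a : E)
    (h : Tendsto (fun t : ℝ => (t ^ j)⁻¹ • f' t) (𝓝[>] 0) (𝓝 a)) :
    Tendsto (fun t : ℝ => (t ^ (j + 1))⁻¹ • f t) (𝓝[>] 0) (𝓝 (((j:ℝ) + 1)⁻¹ • a)) := by
  rw [Metric.tendsto_nhds]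
  intro ε hε
  have h1 := (Metric.tendsto_nhds.mp h) (ε / 2) (by positivity)
  rw [eventually_nhdsWithin_iff, Metric.eventually_nhds_iff] at h1
  obtain ⟨δ, hδ, h1⟩ := h1
  have h2 : ∀ t : ℝ, 0 < t → t < δ → ‖f' t - t ^ j • a‖ ≤ (ε / 2) * t ^ j := by
    intro t ht htδ
    have h3 := h1 (y := t) (by rw [Real.dist_eq, sub_zero, abs_of_pos ht]; exact htδ) ht
    rw [dist_eq_norm] at h3
    have h4 : f' t - t ^ j • a = t ^ j • ((t ^ j)⁻¹ • f' t - a) := by
      rw [smul_sub, smul_smul, mul_inv_cancel₀ (by positivity), one_smul]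
    rw [h4, norm_smul, Real.norm_of_nonneg (by positivity), mul_comm]
    gcongr
  rw [eventually_nhdsWithin_iff, Metric.eventually_nhds_iff]
  refine ⟨δ, hδ, fun T hTd hT => ?_⟩
  rw [Set.mem_Ioi] at hT
  rw [Real.dist_eq, sub_zero, abs_of_pos hT] at hTd
  set g : ℝ → E := fun t => f t - (t ^ (j + 1) / ((j:ℝ) + 1)) • a with hg
  have hgd : ∀ t, HasDerivAt g (f' t - t ^ j • a) t := by
    intro t
    have h3 : HasDerivAt (fun t : ℝ => t ^ (j + 1) / ((j:ℝ) + 1)) (t ^ j) t := by
      have h4 := (hasDerivAt_pow (j + 1) t).div_const ((j:ℝ) + 1)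
      refine h4.congr_deriv ?_
      push_cast
      have : ((j:ℝ) + 1) ≠ 0 := by positivity
      field_simp
    exact (hf t).sub (h3.smul_const a)
  have hg0 : g 0 = 0 := by simp [hg, h0]
  have h5 : ∀ s, 0 < s → s < T → ‖g T - g s‖ ≤ (ε / 2) * T ^ j * T := by
    intro s hs hsT
    have h6 := (convex_Icc s T).norm_image_sub_le_of_norm_hasDerivWithin_le (f := g)
      (f' := fun t => f' t - t ^ j • a) (C := (ε / 2) * T ^ j) (x := s) (y := T)
      (fun x _ => (hgd x).hasDerivWithinAt) (fun x hx => by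
        have hx0 : 0 < x := lt_of_lt_of_le hs hx.1
        refine (h2 x hx0 (lt_of_le_of_lt hx.2 hTd)).trans ?_
        have := hx.2
        gcongr) ⟨le_refl s, hsT.le⟩ ⟨hsT.le, le_refl T⟩
    refine h6.trans ?_
    rw [Real.norm_of_nonneg (by linarith)]
    have : 0 ≤ (ε / 2) * T ^ j := by positivity
    nlinarith
  have h7 : ‖g T - g 0‖ ≤ (ε / 2) * T ^ j * T := by
    have hc : Tendsto (fun s => ‖g T - g s‖) (𝓝[>] 0) (𝓝 ‖g T - g 0‖) := by
      have : ContinuousAt g 0 := (hgd 0).continuousAt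
      exact ((tendsto_const_nhds.sub this.tendsto).norm).mono_left nhdsWithin_le_nhds
    refine le_of_tendsto hc ?_
    filter_upwards [Ioo_mem_nhdsGT hT] with s hs
    exact h5 s hs.1 hs.2
  rw [hg0, sub_zero] at h7
  rw [dist_eq_norm]
  have h8 : (T ^ (j + 1))⁻¹ • f T - ((j:ℝ) + 1)⁻¹ • a = (T ^ (j + 1))⁻¹ • g T := by
    rw [hg]
    simp only
    rw [smul_sub, smul_smul]
    congr 2
    field_simp
  rw [h8, norm_smul, norm_inv, Real.norm_of_nonneg (by positivity)]
  calc (T ^ (j + 1))⁻¹ * ‖g T‖ ≤ (T ^ (j + 1))⁻¹ * ((ε / 2) * T ^ j * T) := by gcongr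
    _ = ε / 2 := by field_simp; ring
    _ < ε := by linarith

end Hop

section Ode

variable {E : Type*} [NormedAddCommGroup E] [NormedSpace ℝ E]

/-- The scalar `(k)_n / n!` in the recursive form. -/
noncomputable def cf (k n : ℕ) : ℕ → ℝ
  | 0 => 1
  | (j + 1) => ((j:ℝ) + 1)⁻¹ * ((k:ℝ) + (n - j - 1 : ℕ)) * cf k n j

theorem ode_taylor (k n : ℕ) (F : ℕ → ℝ → E) (e : E)
    (hA : ∀ m t, HasDerivAt (F m) (((k:ℝ) + m) • F (m + 1) t - (m:ℝ) • F (m - 1) t) t)
    (hi : ∀ m, F m 0 = if m = n then e else 0) :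
    ∀ j, j ≤ n → ∀ m, m + j ≤ n →
      Tendsto (fun t : ℝ => (t ^ j)⁻¹ • F m t) (𝓝[>] 0)
        (𝓝 (if m + j = n then cf k n j • e else 0)) := by
  intro j
  induction j with
  | zero =>
    intro _ m hm
    simp only [pow_zero, inv_one, one_smul, add_zero, cf]
    rw [← hi m]
    exact (hA m 0).continuousAt.tendsto.mono_left nhdsWithin_le_nhds
  | succ j ih =>
    intro hj m hm
    have hne : F m 0 = 0 := by
      rw [hi m, if_neg (by omega)]
    have h1 := ih (by omega) (m + 1) (by omega)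
    have h2 : Tendsto (fun t : ℝ => (t ^ j)⁻¹ • ((m:ℝ) • F (m - 1) t)) (𝓝[>] 0) (𝓝 0) := by
      rcases m with _ | m
      · simp
      · have h3 := ih (by omega) m (by omega)
        rw [if_neg (by omega)] at h3
        have h4 := h3.const_smul (((m + 1 : ℕ) : ℝ))
        rw [smul_zero] at h4
        refine h4.congr (fun t => ?_)
        rw [Nat.add_sub_cancel, smul_comm]
    have h5 : Tendsto (fun t : ℝ => (t ^ j)⁻¹ • (((k:ℝ) + m) • F (m + 1) t - (m:ℝ) • F (m - 1) t))
        (𝓝[>] 0) (𝓝 (((k:ℝ) + m) • (if m + 1 + j = n then cf k n j • e else 0))) := by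
      have h6 := (h1.const_smul ((k:ℝ) + m)).sub h2
      rw [sub_zero] at h6
      refine h6.congr (fun t => ?_)
      rw [smul_sub, smul_comm]
    have h7 := vecHop (F m) _ (hA m) hne j _ h5
    convert h7 using 2
    by_cases hmn : m + (j + 1) = n
    · rw [if_pos hmn, if_pos (by omega), smul_smul, smul_smul]
      congr 1
      rw [cf]
      have : n - j - 1 = m := by omega
      rw [this]
    · rw [if_neg hmn, if_neg (by omega), smul_zero, smul_zero]

theorem cf_eq (k n : ℕ) : ∀ j, j ≤ n → cf k n j * (j.factorial : ℝ) =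
    ∏ i ∈ Finset.range j, ((k:ℝ) + (n - 1 - i : ℕ)) := by
  intro j
  induction j with
  | zero => intro _; simp [cf]
  | succ j ih =>
    intro hj
    rw [Finset.prod_range_succ, ← ih (by omega), cf, Nat.factorial_succ]
    have : n - j - 1 = n - 1 - j := by omega
    rw [this]
    push_cast
    have : ((j:ℝ) + 1) ≠ 0 := by positivity
    field_simp

theorem cf_top (k n : ℕ) : cf k n n = ((k + n - 1).choose n : ℝ) := by
  have h1 := cf_eq k n n le_rfl
  have h2 : ∏ i ∈ Finset.range n, ((k:ℝ) + (n - 1 - i : ℕ)) = (k.ascFactorial n : ℝ) := by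
    rw [Finset.prod_range_reflect (fun i => (k:ℝ) + (i:ℕ)) n]
    rw [Nat.ascFactorial_eq_prod_range]
    push_cast
    rfl
  rw [h2, Nat.ascFactorial_eq_factorial_mul_choose'] at h1
  have h3 : (n.factorial : ℝ) ≠ 0 := by positivity
  apply mul_right_cancel₀ h3
  rw [h1]
  push_cast
  ring

theorem sinh_div_tendsto : Tendsto (fun t : ℝ => Real.sinh t / t) (𝓝[>] 0) (𝓝 1) := by
  have h := Real.hasDerivAt_sinh 0
  rw [hasDerivAt_iff_tendsto_slope_zero, Real.cosh_zero] at h
  have h1 := h.mono_left (nhdsGT_le_nhdsNE 0)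
  refine h1.congr (fun t => ?_)
  simp [div_eq_inv_mul]

theorem ode_solve (k n : ℕ) (F : ℕ → ℝ → E) (e : E)
    (hA : ∀ m t, HasDerivAt (F m) (((k:ℝ) + m) • F (m + 1) t - (m:ℝ) • F (m - 1) t) t)
    (hB : ∀ t, ((k:ℝ) + 2 * n) • F 0 t = (k * Real.cosh (2 * t)) • F 0 t +
      (k * Real.sinh (2 * t)) • F 1 t)
    (hi : ∀ m, F m 0 = if m = n then e else 0) (t : ℝ) (ht : 0 < t) :
    F 0 t = (cf k n n * (Real.sinh t ^ n / Real.cosh t ^ (n + k))) • e := by
  set G : ℝ → E := fun t => (Real.cosh t ^ (n + k) / Real.sinh t ^ n) • F 0 t with hG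
  have hGd : ∀ t, 0 < t → HasDerivAt G 0 t := by
    intro t ht
    have hs : 0 < Real.sinh t := Real.sinh_pos_iff.mpr ht
    have hc : 0 < Real.cosh t := Real.cosh_pos t
    have h1 : HasDerivAt (fun t => Real.cosh t ^ (n + k) / Real.sinh t ^ n)
        ((Real.cosh t ^ (n + k) / Real.sinh t ^ n) *
          ((n + k) * (Real.sinh t / Real.cosh t) - n * (Real.cosh t / Real.sinh t))) t := by
      have h2 := ((Real.hasDerivAt_cosh t).pow (n + k)).div ((Real.hasDerivAt_sinh t).pow n)
        (pow_ne_zero n hs.ne')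
      refine h2.congr_deriv ?_
      simp only [Pi.pow_apply]
      rcases n with _ | n
      · rcases k with _ | k
        · simp
        · simp only [Nat.zero_add, Nat.add_sub_cancel, pow_zero]
          push_cast
          field_simp
          ring
      · have : n + 1 + k - 1 = n + k := by omega
        rw [this, Nat.add_sub_cancel]
        push_cast
        field_simp
        ring
    have h3 := h1.smul (hA 0 t)
    refine h3.congr_deriv ?_
    have h4 : (k:ℝ) • F 1 t =
        (n * (Real.cosh t / Real.sinh t) - (n + k) * (Real.sinh t / Real.cosh t)) • F 0 t := by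
      have h5 := hB t
      have h6 : (2 * Real.sinh t * Real.cosh t) • ((k:ℝ) • F 1 t) =
          ((k:ℝ) + 2 * n - k * Real.cosh (2 * t)) • F 0 t := by
        rw [sub_smul, h5, Real.sinh_two_mul]
        module
      have h7 : (k:ℝ) • F 1 t = (2 * Real.sinh t * Real.cosh t)⁻¹ •
          (((k:ℝ) + 2 * n - k * Real.cosh (2 * t)) • F 0 t) := by
        rw [← h6, smul_smul, inv_mul_cancel₀ (by positivity), one_smul]
      rw [h7, smul_smul]
      congr 1
      rw [Real.cosh_two_mul]
      have h8 := Real.cosh_sq_sub_sinh_sq t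
      field_simp
      linear_combination (-(k:ℝ) - 2 * n) * h8
    simp only [Nat.cast_zero, zero_smul, sub_zero, add_zero, zero_add]
    rw [h4, smul_smul, ← add_smul]
    rw [show (Real.cosh t ^ (n + k) / Real.sinh t ^ n *
      (n * (Real.cosh t / Real.sinh t) - (n + k) * (Real.sinh t / Real.cosh t)) +
      Real.cosh t ^ (n + k) / Real.sinh t ^ n *
      ((n + k) * (Real.sinh t / Real.cosh t) - n * (Real.cosh t / Real.sinh t))) = 0 by ring,
      zero_smul]
  have hconst : ∀ s, 0 < s → G s = G t := by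
    intro s hs
    refine isOpen_Ioi.is_const_of_deriv_eq_zero (s := Set.Ioi (0:ℝ)) isPreconnected_Ioi
      (fun x hx => (hGd x hx).differentiableAt.differentiableWithinAt)
      (fun x hx => (hGd x hx).deriv) hs ht
  have hlim : Tendsto G (𝓝[>] 0) (𝓝 (cf k n n • e)) := by
    have h1 := ode_taylor k n F e hA hi n le_rfl 0 (by omega)
    rw [if_pos (by omega)] at h1
    have h2 : Tendsto (fun t : ℝ => Real.cosh t ^ (n + k) * ((Real.sinh t / t) ^ n)⁻¹) (𝓝[>] 0)
        (𝓝 (1 ^ (n + k) * (1 ^ n)⁻¹)) := by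
      refine Tendsto.mul ?_ ?_
      · have : Tendsto Real.cosh (𝓝[>] 0) (𝓝 1) := by
          have := Real.continuous_cosh.tendsto 0
          rw [Real.cosh_zero] at this
          exact this.mono_left nhdsWithin_le_nhds
        exact this.pow _
      · exact (sinh_div_tendsto.pow n).inv₀ (by simp)
    have h3 := h2.smul h1
    rw [one_pow, one_pow, inv_one, mul_one, one_smul] at h3
    refine h3.congr' ?_
    filter_upwards [self_mem_nhdsWithin] with s hs
    rw [Set.mem_Ioi] at hs
    rw [hG, smul_smul]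
    simp only
    congr 1
    have : 0 < Real.sinh s := Real.sinh_pos_iff.mpr hs
    rw [div_pow]
    field_simp
  have hlim2 : Tendsto G (𝓝[>] 0) (𝓝 (G t)) := by
    refine tendsto_const_nhds.congr' ?_
    filter_upwards [self_mem_nhdsWithin] with s hs
    exact (hconst s hs).symm
  have hfin := tendsto_nhds_unique hlim hlim2
  have hs : 0 < Real.sinh t := Real.sinh_pos_iff.mpr ht
  have hc : 0 < Real.cosh t := Real.cosh_pos t
  have : F 0 t = (Real.sinh t ^ n / Real.cosh t ^ (n + k)) • G t := by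
    rw [hG]
    simp only
    rw [smul_smul]
    rw [show Real.sinh t ^ n / Real.cosh t ^ (n + k) * (Real.cosh t ^ (n + k) / Real.sinh t ^ n) = 1
      by field_simp, one_smul]
  rw [this, ← hfin, smul_smul, mul_comm]

theorem sm_deriv (k m : ℕ) (t : ℝ) :
    HasDerivAt (fun t => (-(Real.sinh t / Real.cosh t)) ^ m / Real.cosh t ^ k)
      (((k:ℝ) + m) * ((-(Real.sinh t / Real.cosh t)) ^ (m + 1) / Real.cosh t ^ k) -
        m * ((-(Real.sinh t / Real.cosh t)) ^ (m - 1) / Real.cosh t ^ k)) t := by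
  have hc : 0 < Real.cosh t := Real.cosh_pos t
  have h1 := ((Real.hasDerivAt_sinh t).div (Real.hasDerivAt_cosh t) hc.ne').neg.pow m
  have h2 := h1.div ((Real.hasDerivAt_cosh t).pow k) (pow_ne_zero k hc.ne')
  refine h2.congr_deriv ?_
  simp only [Pi.pow_apply, Pi.neg_apply, Pi.div_apply]
  have h8 := Real.cosh_sq_sub_sinh_sq t
  set S := Real.sinh t
  set c := Real.cosh t
  have h9 : (c * c - S * S) / c ^ 2 = 1 - (S / c) ^ 2 := by field_simp
  rw [h9]
  set x := S / c with hx
  have hS : S = x * c := by rw [hx]; field_simp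
  rw [hS]
  rcases m with _ | m
  · rcases k with _ | k
    · simp
    · simp only [Nat.add_sub_cancel, pow_zero, Nat.cast_zero, zero_mul, add_zero, zero_add, pow_one,
        sub_zero, one_mul, zero_sub]
      push_cast
      field_simp
      ring
  · rcases k with _ | k
    · simp only [Nat.add_sub_cancel, pow_zero, Nat.cast_zero, zero_mul, mul_zero, sub_zero]
      push_cast
      field_simp
      ring
    · simp only [Nat.add_sub_cancel]
      push_cast
      field_simp
      ring

theorem ode_zero (k : ℕ) (hk : 0 < k) (F : ℕ → ℝ → E) (e : E)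
    (hA : ∀ m t, HasDerivAt (F m) (((k:ℝ) + m) • F (m + 1) t - (m:ℝ) • F (m - 1) t) t)
    (hB : ∀ t, ((k:ℝ) + 2 * (0:ℕ)) • F 0 t = (k * Real.cosh (2 * t)) • F 0 t +
      (k * Real.sinh (2 * t)) • F 1 t)
    (hi : ∀ m, F m 0 = if m = 0 then e else 0) :
    ∀ m t, 0 < t → F m t = ((-(Real.sinh t / Real.cosh t)) ^ m / Real.cosh t ^ k) • e := by
  intro m
  induction m using Nat.strong_induction_on with
  | _ m ih =>
    rcases m with _ | m
    · intro t ht
      rw [ode_solve k 0 F e hA hB hi t ht]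
      simp [cf]
    · intro t ht
      have h1 := hA m t
      have h2 := (sm_deriv k m t).smul_const e
      have h3 : (F m) =ᶠ[𝓝 t] fun t =>
          ((-(Real.sinh t / Real.cosh t)) ^ m / Real.cosh t ^ k) • e := by
        filter_upwards [lt_mem_nhds ht] with s hs
        exact ih m (Nat.lt_succ_self m) s hs
      have h4 := h1.unique (h2.congr_of_eventuallyEq h3)
      have h5 : (m:ℝ) • F (m - 1) t =
          (m:ℝ) • (((-(Real.sinh t / Real.cosh t)) ^ (m - 1) / Real.cosh t ^ k) • e) := by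
        rcases m with _ | m
        · simp
        · rw [Nat.add_sub_cancel, ih m (by omega) t ht]
      rw [h5, sub_smul, mul_smul, mul_smul] at h4
      have h6 := sub_left_injective h4
      have hne : ((k:ℝ) + m) ≠ 0 := by positivity
      exact smul_right_injective E hne h6

end Ode

end Pool.Agent.H60.Sob
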