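import Mathlib

/-!
# Definitions used in the statement

The real reductive group `SU(1,1) × ℝˣ`, its Harish-Chandra modules, `G`-continuous norms, weights
and Sobolev gaps.
-/

namespace Pool.Agent.H60.SobS

open Complex Topology

/-- The group `SU(1,1)`, as a subgroup of `SL(2,ℂ)`: matrices `[[a, b], [conj b, conj a]]` of
determinant one. -/
def SU11 : Subgroup (Matrix.SpecialLinearGroup (Fin 2) ℂ) where
  carrier := {g | g 1 0 = starRingEnd ℂ (g 0 1) ∧ g 1 1 = starRingEnd ℂ (g 0 0)}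
  one_mem' := by simp
  mul_mem' := by
    rintro g h ⟨h1, h2⟩ ⟨h3, h4⟩
    constructor <;>
    · simp only [Matrix.SpecialLinearGroup.coe_mul, Matrix.mul_apply, Fin.sum_univ_two, h1, h2, h3,
        h4, map_add, map_mul, Complex.conj_conj]
      ring
  inv_mem' := by
    rintro g ⟨h1, h2⟩
    rw [Set.mem_ofPred_eq, Matrix.SpecialLinearGroup.SL2_inv_expl]
    simp [h1, h2]

/-- The Lie algebra `su(1,1)`: matrices `[[x, b], [conj b, conj x]]` of trace zero. -/
def su11 : Submodule ℝ (Matrix (Fin 2) (Fin 2) ℂ) where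
  carrier := {X | X 1 0 = starRingEnd ℂ (X 0 1) ∧ X 1 1 = starRingEnd ℂ (X 0 0) ∧
    X 0 0 + X 1 1 = 0}
  add_mem' := by
    rintro X Y ⟨h1, h2, h3⟩ ⟨h4, h5, h6⟩
    refine ⟨by simp [h1, h4], by simp [h2, h5], ?_⟩
    simp only [Matrix.add_apply]
    linear_combination h3 + h6
  zero_mem' := by simp
  smul_mem' := by
    rintro c X ⟨h1, h2, h3⟩
    refine ⟨by simp [h1], by simp [h2], ?_⟩
    simp only [Matrix.smul_apply, ← smul_add, h3, smul_zero]

/-- The real reductive group `G = SU(1,1) × ℝˣ` (the real points of a connected reductive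
algebraic group). -/
def G : Type := SU11 × ℝˣ

instance : Group G := Prod.instGroup (G := SU11) (H := ℝˣ)
noncomputable instance : TopologicalSpace G := instTopologicalSpaceProd (X := SU11) (Y := ℝˣ)

/-- The component in `SU(1,1)` of an element of `G`, as a matrix. -/
def G.mat (g : G) : Matrix (Fin 2) (Fin 2) ℂ := g.1.1.1

/-- The component in `ℝˣ` of an element of `G`, as a real number. -/
def G.val (g : G) : ℝ := g.2.1

/-- Its Lie algebra `𝔤 = su(1,1) × ℝ`. -/
def gLie : Type := su11 × ℝ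

noncomputable instance : AddCommGroup gLie := Prod.instAddCommGroup (G := su11) (H := ℝ)
noncomputable instance : Module ℝ gLie := Prod.instModule (M := su11) (N := ℝ)

/-- The component in `su(1,1)` of an element of `𝔤`, as a matrix. -/
def gLie.mat (X : gLie) : Matrix (Fin 2) (Fin 2) ℂ := X.1.1

/-- The component in `ℝ` of an element of `𝔤`. -/
def gLie.val (X : gLie) : ℝ := X.2

theorem bracket_mem (X Y : gLie) : X.mat * Y.mat - Y.mat * X.mat ∈ su11 := by
  obtain ⟨⟨X, h1, h2, h3⟩, x⟩ := X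
  obtain ⟨⟨Y, h4, h5, h6⟩, y⟩ := Y
  refine ⟨?_, ?_, ?_⟩
  all_goals
    simp only [gLie.mat, Matrix.sub_apply, Matrix.mul_apply, Fin.sum_univ_two, h1, h2, h4, h5,
      map_sub, map_add, map_mul, Complex.conj_conj]
    ring

/-- The Lie bracket of `𝔤`: the commutator of matrices on `su(1,1)`; the factor `ℝ` is central. -/
def bracket (X Y : gLie) : gLie := (⟨X.mat * Y.mat - Y.mat * X.mat, bracket_mem X Y⟩, 0)

theorem Ad_mem (g : G) (X : gLie) : g.mat * X.mat * g⁻¹.mat ∈ su11 := by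
  obtain ⟨⟨g, h1, h2⟩, y⟩ := g
  obtain ⟨⟨X, h3, h4, h5⟩, x⟩ := X
  have h6 : X 1 1 = - X 0 0 := by linear_combination h5
  have h7 : starRingEnd ℂ (X 0 0) = - X 0 0 := by rw [← h4, h6]
  show g.1 * X * (g⁻¹).1 ∈ su11
  refine ⟨?_, ?_, ?_⟩
  all_goals
    simp only [Matrix.SpecialLinearGroup.coe_inv, Matrix.adjugate_fin_two, Matrix.mul_apply,
      Fin.sum_univ_two, h1, h2, h3, h6, Matrix.of_apply, Matrix.cons_val', Matrix.cons_val_zero,
      Matrix.cons_val_one, Matrix.cons_val_fin_one, map_add, map_mul, map_neg,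
      Complex.conj_conj, h7]
    ring

/-- The adjoint action of `G` on `𝔤`. -/
def Ad (g : G) (X : gLie) : gLie := (⟨g.mat * X.mat * g⁻¹.mat, Ad_mem g X⟩, X.val)

/-- The maximal compact subgroup `K = U(1) × {±1}` of `G`: the elements with diagonal component in
`SU(1,1)` and component `±1` in `ℝˣ`. -/
def K : Subgroup G where
  carrier := {g | g.mat 0 1 = 0 ∧ (g.val = 1 ∨ g.val = -1)}
  one_mem' := by
    refine ⟨?_, Or.inl ?_⟩
    · show (1 : Matrix (Fin 2) (Fin 2) ℂ) 0 1 = 0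
      simp
    · rfl
  mul_mem' := by
    rintro ⟨⟨g, hg1, hg2⟩, y⟩ ⟨⟨h, hh1, hh2⟩, z⟩ ⟨h1, h2⟩ ⟨h3, h4⟩
    simp only [G.mat, G.val] at h1 h2 h3 h4
    refine ⟨?_, ?_⟩
    · show (g * h) 0 1 = 0
      simp [Matrix.SpecialLinearGroup.coe_mul, Matrix.mul_apply, Fin.sum_univ_two, h1, h3]
    · show (y : ℝ) * z = 1 ∨ (y : ℝ) * z = -1
      rcases h2 with h2 | h2 <;> rcases h4 with h4 | h4 <;> rw [h2, h4] <;> simp
  inv_mem' := by
    rintro ⟨⟨g, hg1, hg2⟩, y⟩ ⟨h1, h2⟩
    simp only [G.mat, G.val] at h1 h2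
    refine ⟨?_, ?_⟩
    · show (g⁻¹) 0 1 = 0
      rw [Matrix.SpecialLinearGroup.SL2_inv_expl]
      simp [h1]
    · show ((y⁻¹ : ℝˣ) : ℝ) = 1 ∨ ((y⁻¹ : ℝˣ) : ℝ) = -1
      rw [Units.val_inv_eq_inv_val]
      rcases h2 with h2 | h2 <;> rw [h2] <;> norm_num

/-- The type of elements of `K`. -/
def KT : Type := K

instance : Group KT := K.toGroup
noncomputable instance : TopologicalSpace KT := instTopologicalSpaceSubtype (p := (· ∈ K))

/-- The inclusion of `K` in `G`. -/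
def KT.inc (k : KT) : G := k.1

/-- `γ` is the one-parameter subgroup `t ↦ exp (t X)` of `G`: a homomorphism `ℝ → G` whose
derivative at `0` is `X`. -/
def IsExp (X : gLie) (γ : ℝ → G) : Prop :=
  (∀ s t, γ (s + t) = γ s * γ t) ∧
  (∀ i j, HasDerivAt (fun t => (γ t).mat i j) (X.mat i j) 0) ∧
  HasDerivAt (fun t => (γ t).val) X.val 0

/-- The set `S` spans a finite dimensional space. -/
def FinSpan {V : Type} [AddCommGroup V] [Module ℂ V] (S : Set V) : Prop :=
  FiniteDimensional ℂ (Submodule.span ℂ S)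

/-- A `(𝔤, K)`-module structure on a complex vector space `V`: `ρ` and `κ` are the actions of `𝔤`
and `K`. -/
structure GKModule (V : Type) [AddCommGroup V] [Module ℂ V] where
  /-- the action of the Lie algebra -/
  ρ : gLie → V → V
  /-- the action of `K` -/
  κ : KT → V → V
  ρ_lin : ∀ X, IsLinearMap ℂ (ρ X)
  κ_lin : ∀ k, IsLinearMap ℂ (κ k)
  ρ_add : ∀ X Y v, ρ (X + Y) v = ρ X v + ρ Y v
  ρ_smul : ∀ (r : ℝ) X v, ρ (r • X) v = (r : ℂ) • ρ X v
  ρ_lie : ∀ X Y v, ρ (bracket X Y) v = ρ X (ρ Y v) - ρ Y (ρ X v)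
  κ_one : ∀ v, κ 1 v = v
  κ_mul : ∀ k l v, κ (k * l) v = κ k (κ l v)
  /-- every vector is `K`-finite -/
  κ_fin : ∀ v, FinSpan (Set.range fun k => κ k v)
  /-- the action of `K` is continuous -/
  κ_cont : ∀ v (l : V →ₗ[ℂ] ℂ), Continuous fun k => l (κ k v)
  /-- the two actions of the Lie algebra of `K` agree -/
  κ_deriv : ∀ X (γ : ℝ → KT), IsExp X (fun t => (γ t).inc) → ∀ v (l : V →ₗ[ℂ] ℂ),
    HasDerivAt (fun t => l (κ (γ t) v)) (l (ρ X v)) 0
  /-- compatibility with the adjoint action of `K` on `𝔤` -/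
  κ_Ad : ∀ k X v, κ k (ρ X v) = ρ (Ad k.inc X) (κ k v)

variable {V : Type} [AddCommGroup V] [Module ℂ V]

/-- A Harish-Chandra module: an admissible `(𝔤, K)`-module, finitely generated over `𝔤`.
(Since `K` is commutative, its irreducible representations are characters.) -/
def IsHarishChandra (M : GKModule V) : Prop :=
  (∀ χ : KT → ℂ, FinSpan {v | ∀ k, M.κ k v = χ k • v}) ∧
  (∃ S : Finset V, ∀ W : Submodule ℂ V, (∀ v ∈ S, v ∈ W) → (∀ X, ∀ v ∈ W, M.ρ X v ∈ W) → W = ⊤)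

/-- `φ` is an embedding of `(𝔤, K)`-modules, making `V` a submodule of `U`. -/
def IsEmb {U : Type} [AddCommGroup U] [Module ℂ U] (M : GKModule V) (M' : GKModule U)
    (φ : V →ₗ[ℂ] U) : Prop :=
  Function.Injective φ ∧ (∀ X v, φ (M.ρ X v) = M'.ρ X (φ v)) ∧
    (∀ k v, φ (M.κ k v) = M'.κ k (φ v))

/-- A weight on `G`: a positive, locally bounded, submultiplicative function. -/
def IsWeight (w : G → ℝ) : Prop :=
  (∀ g, 0 < w g) ∧ (∀ g h, w (g * h) ≤ w g * w h) ∧
  (∀ g, ∃ C : ℝ, ∀ᶠ h in 𝓝 g, w h ≤ C)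

/-- The Banach space `E` is, through `ι : V → E`, the completion of `V` with respect to the norm
`‖ι v‖`; the group `G` acts continuously on `E` by `π`, with growth at most `C w`; the `K`-finite
vectors of `E` are exactly the vectors of `V`, and the actions of `K` and `𝔤` on them agree with
those on `V`. -/
structure IsGlobalization (M : GKModule V) (w : G → ℝ) (E : Type) [NormedAddCommGroup E]
    [NormedSpace ℂ E] (π : G → E → E) (ι : V → E) (C : ℝ) : Prop where
  complete : CompleteSpace E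
  π_lin : ∀ g, IsLinearMap ℂ (π g)
  π_one : ∀ e, π 1 e = e
  π_mul : ∀ g h e, π (g * h) e = π g (π h e)
  π_cont : Continuous (fun x : G × E => π x.1 x.2)
  ι_lin : IsLinearMap ℂ ι
  ι_inj : Function.Injective ι
  ι_dense : DenseRange ι
  fin_iff : ∀ e, FinSpan (Set.range fun k : KT => π k.inc e) ↔ e ∈ Set.range ι
  ι_K : ∀ k v, π (KT.inc k) (ι v) = ι (M.κ k v)
  ι_deriv : ∀ X γ, IsExp X γ → ∀ v, HasDerivAt (fun t => π (γ t) (ι v)) (ι (M.ρ X v)) 0
  growth : ∀ g e, ‖π g e‖ ≤ C * w g * ‖e‖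

/-- `p ∈ Norm(V, w)`: `p` is a `G`-continuous norm on `V` whose growth is at most `C w`. -/
def InNorm (M : GKModule V) (w : G → ℝ) (p : V → ℝ) : Prop :=
  ∃ (E : Type) (_ : NormedAddCommGroup E) (_ : NormedSpace ℂ E) (π : G → E → E) (ι : V → E)
    (C : ℝ), IsGlobalization M w E π ι C ∧ ∀ v, p v = ‖ι v‖

/-- `k` is the element `diag(e^{iθ}, e^{-iθ})` of the maximal torus `U(1)` of `K`. -/
def IsRot (θ : ℝ) (k : KT) : Prop := k.inc.mat 0 0 = exp (θ * I) ∧ k.inc.val = 1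

/-- `D` is the operator `D_s = (1 + Δ_K)^{s/2}`: it acts on vectors of weight `m ∈ ℤ` under the
maximal torus `U(1)` by the scalar `(1 + m²)^{s/2}`. -/
def IsSobolev (M : GKModule V) (s : ℝ) (D : V →ₗ[ℂ] V) : Prop :=
  ∀ (m : ℤ) (v : V), (∀ θ k, IsRot θ k → M.κ k v = exp (m * θ * I) • v) →
    D v = (((1 + (m : ℝ) ^ 2) ^ (s / 2) : ℝ) : ℂ) • v

/-- `p ≲ q_s`, where `q_s(v) = q(D_s v)`. -/
def SobLe (M : GKModule V) (s : ℝ) (p q : V → ℝ) : Prop :=
  ∃ D, IsSobolev M s D ∧ ∃ c : ℝ, ∀ v, p v ≤ c * q (D v)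

/-- The Sobolev gap `s(V, w)`, for `Norm(V, w)` nonempty: the infimum of all `s ≥ 0` such that
`p ≲ q_s` for all `p, q ∈ Norm(V, w)`. As `Norm(V, w)/∼` has a maximal class `[p_max]` and a minimal
class `[p_min]`, the condition on `s` says that `p_max ≲ (p_min)_s`. -/
noncomputable def sobolevGap (M : GKModule V) (w : G → ℝ) : ℝ :=
  sInf {s | 0 ≤ s ∧ ∀ p q, InNorm M w p → InNorm M w q → SobLe M s p q}

/-- `p` represents the maximal class of `Norm(V, w)`. -/
def IsMaxNorm (M : GKModule V) (w : G → ℝ) (p : V → ℝ) : Prop :=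
  InNorm M w p ∧ ∀ q, InNorm M w q → ∃ c : ℝ, ∀ v, q v ≤ c * p v

/-- `p` represents the minimal class of `Norm(V, w)`. -/
def IsMinNorm (M : GKModule V) (w : G → ℝ) (p : V → ℝ) : Prop :=
  InNorm M w p ∧ ∀ q, InNorm M w q → ∃ c : ℝ, ∀ v, p v ≤ c * q v

/-- The Sobolev gap computed from given representatives of the maximal and minimal classes. -/
noncomputable def gapOf (M : GKModule V) (pmax pmin : V → ℝ) : ℝ :=
  sInf {s | 0 ≤ s ∧ SobLe M s pmax pmin}

end Pool.Agent.H60.SobS
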